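import Pool.Agent.Lib.MP_11349d_lc.T.Climb

/-!
# Add: adding a side condition to a condition

PROOF of `exists_side`. `exists_of_ev` for the conjunction of `hN`, `ev_exd`, `ev_mdl`, `ev_side` gives `M` containing
`cb p.b`, `z`, `o ν`, `s y` for `y ∈ p.m`, `o v.1`, `o v.2.1` for `v ∈ p.w` (a finite set), and `d` with `F.Dl M d`. `hN` for `p.b` gives
`b ∈ S a`, `⊥ ≠ b ≤ p.b` and `x` with `F.IsSide a M x`, `Nice ... x b`. `x.d = d` as far as needed (`IsSide.om`). `IsMdl`: `ev_mdl`.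
`z ∈ range x.N`: `z ∈ M`, `z < h a`. `Blw D y x` for `y ∈ p.m`: `s y ∈ M` and `s y < h a` by `(F.bd a ha).s` (with
`(hp.mdl y hy).lt`, `.Y`), so `s y ∈ range x.N`; `range y.N ⊆ M` (`ev_side`) and below `h a`; `o y.d ∈ M`, so `y.d < x.d`.
`exists_add`: `p' = ⟨b, p.w, insert x p.m⟩`: clause `res` for `x`: `v.2.1 < x.d`.
-/

set_option autoImplicit false

namespace Pool.Agent.BPF

open Cardinal Pool.Agent.CSI

namespace Flt

variable {O Ω B : Type} [LinearOrder O] [WellFoundedLT O] [LinearOrder Ω] [WellFoundedLT Ω]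
    [OrderBot O] [OrderBot Ω] [CompleteBooleanAlgebra B] {T : LTree Ω}
    (F : Flt (O := O) (B := B) T)

theorem exists_side (hΩ : IsOm1 Ω) {a : O} (ha : Lm a) (hN : F.NS a) {p : Cnd O Ω B}
    (hp : F.PD a p) {z : O} (hz : z < F.h a) (ν : Ω) :
    ∃ (x : Side O Ω B) (b : B), IsMdl T F.toDat a (F.h a) x ∧ b ∈ F.S a ∧ b ≠ ⊥ ∧ b ≤ p.b ∧
      Nice T F.toDat a x b ∧ z ∈ Set.range x.N ∧ ν < x.d ∧ (∀ y ∈ p.m, Blw F.toDat y x) ∧
      ∀ v ∈ p.w, v.1 < x.d ∧ v.2.1 < x.d := by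
  have hev : ∀ᶠ M in clubF O, (∀ p' ∈ F.S a, F.cb p' ∈ M → p' ≠ ⊥ → ∃ r ∈ F.S a, r ≠ ⊥ ∧
      r ≤ p' ∧ ∃ x, F.IsSide a M x ∧ Nice T F.toDat a x r) ∧
      (∀ a, Lm a → ∀ x, F.IsSide a M x → IsMdl T F.toDat a (F.h a) x) ∧
      (∀ x : Side O Ω B, F.s x ∈ M → F.o x.d ∈ M ∧ Set.range x.N ⊆ M) := by
    filter_upwards [hN, F.ev_mdl hΩ, F.ev_side] with M h1 h2 h3
    exact ⟨h1, h2, h3⟩
  have hA : ({F.cb p.b, z, F.o ν} ∪ F.s '' (p.m : Set (Side O Ω B)) ∪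
      (fun v : Ω × Ω × ℕ => F.o v.1) '' (p.w : Set (Ω × Ω × ℕ)) ∪
      (fun v : Ω × Ω × ℕ => F.o v.2.1) '' (p.w : Set (Ω × Ω × ℕ)) : Set O).Countable := by
    refine Set.Finite.countable ?_
    refine ((Set.Finite.union ?_ (p.m.finite_toSet.image _)).union
      (p.w.finite_toSet.image _)).union (p.w.finite_toSet.image _)
    exact (Set.finite_singleton _).insert _ |>.insert _
  obtain ⟨M, hAM, -, hNM, hmdl, hside⟩ := exists_of_ev hev hA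
  have hbM : F.cb p.b ∈ M := hAM (by simp)
  have hzM : z ∈ M := hAM (by simp)
  have hνM : F.o ν ∈ M := hAM (by simp)
  have hsM : ∀ y ∈ p.m, F.s y ∈ M := fun y hy =>
    hAM (Or.inl (Or.inl (Or.inr ⟨y, hy, rfl⟩)))
  have hw1 : ∀ v ∈ p.w, F.o v.1 ∈ M := fun v hv => hAM (Or.inl (Or.inr ⟨v, hv, rfl⟩))
  have hw2 : ∀ v ∈ p.w, F.o v.2.1 ∈ M := fun v hv => hAM (Or.inr ⟨v, hv, rfl⟩)
  obtain ⟨b, hbS, hb0, hble, x, hx, hnice⟩ := hNM p.b hp.b hbM hp.ne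
  refine ⟨x, b, hmdl a ha x hx, hbS, hb0, hble, hnice, ?_, (hx.om ν).1 hνM, ?_, ?_⟩
  · rw [hx.N]
    exact ⟨hzM, hz⟩
  · intro y hy
    refine ⟨?_, ?_, (hx.om y.d).1 (hside y (hsM y hy)).1⟩
    · rw [hx.N]
      exact ⟨hsM y hy, (F.bd a ha).s y (hp.mdl y hy).lt (hp.mdl y hy).Y⟩
    · rw [hx.N]
      intro w hw
      refine ⟨(hside y (hsM y hy)).2 hw, ?_⟩
      obtain ⟨n, rfl⟩ := hw
      exact (hp.mdl y hy).lt n
  · intro v hv
    exact ⟨(hx.om v.1).1 (hw1 v hv), (hx.om v.2.1).1 (hw2 v hv)⟩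

open Classical in
theorem exists_add (hΩ : IsOm1 Ω) {a : O} (ha : Lm a) (hN : F.NS a) {p : Cnd O Ω B}
    (hp : F.PD a p) {z : O} (hz : z < F.h a) (ν : Ω) :
    ∃ p', F.PD a p' ∧ p'.le p ∧ p'.w = p.w ∧ ∃ x ∈ p'.m, p'.m = insert x p.m ∧
      z ∈ Set.range x.N ∧ ν < x.d ∧ (∀ y ∈ p.m, Blw F.toDat y x) ∧
      ∀ v ∈ p.w, v.1 < x.d ∧ v.2.1 < x.d := by
  obtain ⟨x, b, hmdl, hbS, hb0, hble, hnice, hz', hν, hblw, hw⟩ := F.exists_side hΩ ha hN hp hz ν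
  refine ⟨⟨b, p.w, insert x p.m⟩, ?_, ⟨hble, subset_rfl, Finset.subset_insert _ _⟩, rfl, x,
    Finset.mem_insert_self _ _, rfl, hz', hν, hblw, hw⟩
  refine ⟨hbS, hb0, ?_, ?_, ?_, ?_⟩
  · intro y hy
    rcases Finset.mem_insert.1 hy with rfl | hy
    · exact hmdl
    · exact hp.mdl y hy
  · intro y hy
    rcases Finset.mem_insert.1 hy with rfl | hy
    · exact hnice
    · exact Nice_mono (hp.nice y hy) hble
  · intro y hy y' hy'
    rcases Finset.mem_insert.1 hy with h1 | h1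
    · rcases Finset.mem_insert.1 hy' with h2 | h2
      · exact Or.inl (h1.trans h2.symm)
      · rw [h1]
        exact Or.inr (Or.inr (hblw y' h2))
    · rcases Finset.mem_insert.1 hy' with h2 | h2
      · rw [h2]
        exact Or.inr (Or.inl (hblw y h1))
      · exact hp.chain y h1 y' h2
  · intro v hv y hy h1 h2
    rcases Finset.mem_insert.1 hy with rfl | hy
    · exact absurd (hw v hv).2 (not_lt.2 h2)
    · exact hble.trans (hp.res v hv y hy h1 h2)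

/-- there is a condition below every nonzero `b ∈ S a`: `⟨b, ∅, ∅⟩` -/
theorem PD_empty {a : O} {b : B} (hb : b ∈ F.S a) (hne : b ≠ ⊥) : F.PD a ⟨b, ∅, ∅⟩ := by
  refine ⟨hb, hne, ?_, ?_, ?_, ?_⟩
  · intro x hx
    exact absurd hx (Finset.notMem_empty x)
  · intro x hx
    exact absurd hx (Finset.notMem_empty x)
  · intro x hx
    exact absurd hx (Finset.notMem_empty x)
  · intro v hv
    exact absurd hv (Finset.notMem_empty v)

end Flt

end Pool.Agent.BPF
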