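import Pool.Agent.Lib.MP_11349d_lc.T.Cap3

/-!
# Asm: the statements of TreeApi

PROOFS. `ev_T1` is `ev_lg'`. `ev_T2` from `ev_Tk2` (`c ∈ M` by `ev_mem`). `cap_U`: by normality for `c ∈ M` and for `C`
(code `F.ct`) use `ev_iSup` (`X = Ω`, code `F.o`) for `f ξ = ⨅ n, (C ξ n ⊓ U c ξ n)ᶜ` (in `S a` by `U_mem`):
`q ⊓ Perp a C ≤ ⨆ ξ < d, f ξ`; below `C d n ⊓ U c d n` and `Perp a C` we have `C ξ (T.r ξ d n) ⊓ U c ξ (T.r ξ d n)` (`Perp_tr`, `U_tr`),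
which is disjoint from `f ξ`. `persist` from `persist'` and `Dg_of`. `ih_succ_lim`: conjunction of `h1` and `ev_capt`
(`NS_of hΩ hl h0`) and `ev_f1` for `pr l`: given `p ∈ S l'`, `q ≤ pr a p = pr a (pr l p)` apply `IHM a l M` to `pr l p` to get
`r ≤ pr l p`, a nice side condition `x`; then `ev_capt`. `¬ Lm l'` because of `Sc l l'`. `U_ad`, `U_unb` from `Ufc` with
`exists_Sc`, `NS_of`, `U_mem`.
-/

set_option autoImplicit false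

namespace Pool.Agent.BPF

open Cardinal Pool.Agent.CSI

namespace Flt

variable {O Ω B : Type} [LinearOrder O] [WellFoundedLT O] [LinearOrder Ω] [WellFoundedLT Ω]
    [OrderBot O] [OrderBot Ω] [CompleteBooleanAlgebra B] {T : LTree Ω}
    (F : Flt (O := O) (B := B) T)

theorem cap_Ux : ∀ᶠ M in clubF O, ∀ d, F.Dl M d → ∀ c ∈ M, Lm c → ∀ a, c < a →
    ∀ y : Finset ℕ, ∀ n ∈ y, ∀ q, F.Gen a M q → q ≤ F.Cap a M d y → q ⊓ F.U c d n = ⊥ := by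
  have h0 : ∀ᶠ M in clubF O, ∀ c ∈ M, ∀ C ∈ (Set.univ : Set (Ω → ℕ → B)), F.ct C ∈ M →
      ∀ a, (∀ ξ, (⨅ n, (C ξ n ⊓ F.U c ξ n)ᶜ) ∈ F.S a) → ∀ q, F.Gen a M q →
        q ⊓ ⨆ ξ, (⨅ n, (C ξ n ⊓ F.U c ξ n)ᶜ) ≤
          ⨆ ξ, ⨆ _ : F.o ξ ∈ M, (⨅ n, (C ξ n ⊓ F.U c ξ n)ᶜ) :=
    ev_normal fun c => ev_normalOn F.ct_inj.injOn fun C _ =>
      F.ev_iSup F.o fun ξ => ⨅ n, (C ξ n ⊓ F.U c ξ n)ᶜ
  filter_upwards [h0] with M h0 d hd c hcM hc a hca y n hn q hq hqC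
  rw [← le_bot_iff]
  have h1 : q ⊓ F.U c d n ≤ (q ⊓ F.U c d n) ⊓ F.Cap a M d y :=
    le_inf le_rfl (inf_le_left.trans hqC)
  refine h1.trans ?_
  unfold Cap
  rw [inf_iSup_eq]
  refine iSup_le fun C => ?_
  rw [inf_iSup_eq]
  refine iSup_le fun hC => ?_
  set e : B := q ⊓ F.U c d n ⊓ (Perp T F.toDat a C ⊓ ⨅ n ∈ y, C d n) with he
  have heq : e ≤ q := inf_le_left.trans inf_le_left
  have heU : e ≤ F.U c d n := inf_le_left.trans inf_le_right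
  have heP : e ≤ Perp T F.toDat a C := inf_le_right.trans inf_le_left
  have heC : e ≤ C d n := inf_le_right.trans (inf_le_right.trans (iInf₂_le n hn))
  have hP : Perp T F.toDat a C ≤ ⨆ ξ, (⨅ n, (C ξ n ⊓ F.U c ξ n)ᶜ) := by
    unfold Perp
    exact inf_le_right.trans (iInf₂_le c ⟨hc, hca⟩)
  have h2 := h0 c hcM C trivial hC.1 a (fun ξ => F.iInf_mem fun m =>
    F.compl_iff.2 (F.inf_mem (hC.2 ξ m) (F.U_mem hc hca ξ m))) q hq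
  have h3 : e ≤ e ⊓ ⨆ ξ, ⨆ _ : F.o ξ ∈ M, (⨅ n, (C ξ n ⊓ F.U c ξ n)ᶜ) :=
    le_inf le_rfl ((le_inf heq (heP.trans hP)).trans h2)
  refine h3.trans ?_
  rw [inf_iSup_eq]
  refine iSup_le fun ξ => ?_
  rw [inf_iSup_eq]
  refine iSup_le fun hξ => ?_
  have hξd : ξ < d := (hd ξ).1 hξ
  have h4 : e ≤ C ξ (T.r ξ d n) := (le_inf heP heC).trans (Perp_tr T F.toDat a C hξd.le n)
  have h5 : e ≤ F.U c ξ (T.r ξ d n) := heU.trans (F.U_tr hc hξd.le n)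
  calc e ⊓ ⨅ n, (C ξ n ⊓ F.U c ξ n)ᶜ
      ≤ (C ξ (T.r ξ d n) ⊓ F.U c ξ (T.r ξ d n)) ⊓ (C ξ (T.r ξ d n) ⊓ F.U c ξ (T.r ξ d n))ᶜ :=
        inf_le_inf (le_inf h4 h5) (iInf_le _ (T.r ξ d n))
    _ = ⊥ := inf_compl_eq_bot

theorem ih_succ_limx (hΩ : IsOm1 Ω) {a l l' : O} (hal : a < l) (hl : Lm l)
    (hll : Sc l l') (h0 : F.IH ⊥ l) (h1 : F.IH a l) : F.IH a l' := by
  have hnl : ¬ Lm l' := by
    rintro ⟨-, h⟩
    obtain ⟨d, hd1, hd2⟩ := h l hll.1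
    exact absurd (hll.2 d hd1) (not_le.2 hd2)
  have hpr : ∀ᶠ M in clubF O, ∀ p ∈ (Set.univ : Set B), F.cb p ∈ M → F.cb (F.pr l p) ∈ M :=
    ev_fun F.cb_inj.injOn F.cb fun p => F.pr l p
  unfold IH at h1 ⊢
  filter_upwards [h1, F.ev_capt hΩ hl hll (F.NS_of hΩ hl h0), hpr] with M h1 h2 h3
  intro d hd p hp hpM y q hq hq0 hqp hgen hcap
  refine ⟨fun _ => ?_, fun h => absurd h hnl⟩
  have h4 := (h1 d hd (F.pr l p) (F.pr_mem l p) (h3 p trivial hpM) y q hq hq0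
    (by rw [F.pr_pr hal.le]; exact hqp) hgen hcap).2 hl
  obtain ⟨r, hr, hr0, hrp, hrq, hrg, x, hx, hnice, hxy⟩ := h4
  obtain ⟨r', hr', hr0', hrp', hrr, hrg', hrc⟩ := h2 d hd x hx r hr hr0 hrg hnice y hxy p hp hpM hrp
  exact ⟨r', hr', hr0', hrp', hrr.trans hrq, hrg', hrc⟩

end Flt

end Pool.Agent.BPF
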