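import Pool.Agent.Lib.MP_11349d_lc.T.LemD2
import Pool.Agent.Lib.MP_11349d_lc.T.Add

/-!
# Cap1: the condition for the capture step

`rem x e`: the side condition `x` without the nodes in the finite set `e`.
PROOFS. `rem_nice`: `y0`: `(rem x e).Y ≤ x.Y`. `y1`: the left side becomes smaller, the right side only depends on `x.N`,
`x.d`. `y2`: use `y2` of `x` for the finite set `e ∪ e'`; if `y i ∉ e`, `(rem x e).Y (y i) = x.Y (y i)`.
-/

set_option autoImplicit false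

namespace Pool.Agent.BPF

open Cardinal Pool.Agent.CSI

open Classical in
/-- the side condition `x` without the nodes in `e` -/
noncomputable def rem {O Ω B : Type} [CompleteBooleanAlgebra B] (x : Side O Ω B) (e : Finset ℕ) :
    Side O Ω B := ⟨x.d, x.N, fun n => if n ∈ e then ⊥ else x.Y n⟩

section
variable {O Ω B : Type} [LinearOrder O] [LinearOrder Ω] [OrderBot O] [OrderBot Ω]
  [CompleteBooleanAlgebra B] {T : LTree Ω} {D : Dat O Ω B}

omit [LinearOrder O] [LinearOrder Ω] [OrderBot O] [OrderBot Ω] in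
private theorem rem_Y_le (x : Side O Ω B) (e : Finset ℕ) (n : ℕ) : (rem x e).Y n ≤ x.Y n := by
  classical
  change (if n ∈ e then ⊥ else x.Y n) ≤ x.Y n
  split_ifs
  · exact bot_le
  · exact le_rfl

omit [LinearOrder O] [LinearOrder Ω] [OrderBot O] [OrderBot Ω] in
private theorem rem_Y_of {x : Side O Ω B} {e : Finset ℕ} {n : ℕ} (h : n ∉ e) :
    (rem x e).Y n = x.Y n := by
  classical
  exact if_neg h

theorem rem_mdl {a h : O} (hb : ⊥ ∈ D.S a) {x : Side O Ω B} (hx : IsMdl T D a h x) (e : Finset ℕ) :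
    IsMdl T D a h (rem x e) := by
  refine ⟨hx.lt, hx.om, hx.pos, hx.bot, hx.top, hx.cone, fun n => ?_⟩
  classical
  change (if n ∈ e then ⊥ else x.Y n) ∈ D.S a
  split_ifs
  · exact hb
  · exact hx.Y n

theorem rem_nice {a : O} {x : Side O Ω B} {b : B} (hx : Nice T D a x b) (e : Finset ℕ) :
    Nice T D a (rem x e) b := by
  classical
  refine ⟨?_, ?_, ?_⟩
  · intro c hc hl hca n
    have h1 := hx.y0 c hc hl hca n
    rw [eq_bot_iff] at h1 ⊢
    exact (inf_le_inf_right _ (inf_le_inf_left _ (rem_Y_le x e n))).trans h1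
  · intro k W hW hWS hWT t
    refine le_trans ?_ (hx.y1 k W hW hWS hWT t)
    exact inf_le_inf_right _ (inf_le_inf_left _ (iInf_mono fun i => rem_Y_le x e (t i)))
  · intro c hc hl hca k V hV hVS e'
    refine (hx.y2 c hc hl hca k V hV hVS (e ∪ e')).trans ?_
    refine iSup_le fun y => iSup_le fun hy => ?_
    have h1 : ∀ i, y i ∉ e' := fun i h => hy i (Finset.mem_union_right _ h)
    have h2 : ∀ i, (rem x e).Y (y i) = x.Y (y i) := fun i =>
      rem_Y_of fun h => hy i (Finset.mem_union_left _ h)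
    refine le_iSup_of_le y (le_iSup_of_le h1 ?_)
    simp only [h2]
    exact le_rfl

theorem blw_rem {x y : Side O Ω B} (h : Blw D y x) (e : Finset ℕ) : Blw D y (rem x e) := by
  exact ⟨h.mem, h.sub, h.lt⟩

end

namespace Flt

variable {O Ω B : Type} [LinearOrder O] [WellFoundedLT O] [LinearOrder Ω] [WellFoundedLT Ω]
    [OrderBot O] [OrderBot Ω] [CompleteBooleanAlgebra B] {T : LTree Ω}
    (F : Flt (O := O) (B := B) T)

/-- the supremum of the elements of `S a` which force that `x` is nice -/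
noncomputable def NV (a : O) (x : Side O Ω B) : B := sSup {b | b ∈ F.S a ∧ Nice T F.toDat a x b}

theorem NV_nice (a : O) (x : Side O Ω B) : Nice T F.toDat a x (F.NV a x) := by
  exact Nice_sSup fun b hb => hb.2

theorem NV_mem (a : O) (x : Side O Ω B) : F.NV a x ∈ F.S a := by
  exact F.sup_mem a _ fun b hb => hb.1

theorem le_iSup_NV (hΩ : IsOm1 Ω) {a : O} (ha : Lm a) (hN : F.NS a) {ρ : Cnd O Ω B}
    (hρ : F.PD a ρ) : ρ.b ≤ ⨆ x, ⨆ _ : IsMdl T F.toDat a (F.h a) x ∧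
      (∀ y ∈ ρ.m, Blw F.toDat y x) ∧ ∀ v ∈ ρ.w, v.1 < x.d ∧ v.2.1 < x.d, F.NV a x := by
  obtain ⟨s, hs⟩ : ∃ s, s = ⨆ x, ⨆ _ : IsMdl T F.toDat a (F.h a) x ∧
      (∀ y ∈ ρ.m, Blw F.toDat y x) ∧ ∀ v ∈ ρ.w, v.1 < x.d ∧ v.2.1 < x.d, F.NV a x := ⟨_, rfl⟩
  rw [← hs]
  have hsm : s ∈ F.S a := by
    rw [hs]
    exact F.iSup_mem fun x => F.iSup_mem fun _ => F.NV_mem a x
  by_contra hc
  have h0 : ρ.b ⊓ sᶜ ≠ ⊥ := by
    intro h
    apply hc
    rw [← compl_compl s]
    exact le_compl_iff_disjoint_right.2 (disjoint_iff.2 h)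
  have h1 : F.PD a ⟨ρ.b ⊓ sᶜ, ρ.w, ρ.m⟩ :=
    PD_restr hρ (F.inf_mem hρ.b (F.compl_mem a s hsm)) h0 inf_le_left
  obtain ⟨x, b, hx, hb, hb0, hble, hnice, -, -, hxm, hxw⟩ :=
    F.exists_side hΩ ha hN h1 (F.bd a ha).lt ⊥
  have h2 : b ≤ s := by
    rw [hs]
    refine le_iSup_of_le x (le_iSup_of_le ⟨hx, hxm, hxw⟩ ?_)
    exact le_sSup ⟨hb, hnice⟩
  have h3 : b ≤ sᶜ := hble.trans inf_le_right
  exact hb0 (le_bot_iff.1 ((le_inf h2 h3).trans (inf_compl_eq_bot (a := s)).le))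

end Flt

end Pool.Agent.BPF
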