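import Pool.Agent.Lib.MP_11349d_lc.T.Cap1

/-!
# Cap1b: the condition for the capture step, the proof

`ev_cap1`: parameters `a`, `p` (normality). (1) Decide `p`: by `pr_le_iSup_b`, `q ≤ pr a p ≤ ⨆ ρ (PD a ρ, j a ρ ≤ p), ρ.b`; by
`ev_iSup` (`X = Cnd`, `c = F.cc`, `f ρ = if F.PD a ρ ∧ F.j a ρ ≤ p then ρ.b else ⊥`) there is such `ρ` with `F.cc ρ ∈ M`,
`q₁ = q ⊓ ρ.b ≠ ⊥`. (2) `NV x' = sSup {b ∈ S a | Nice a x' b}` satisfies `Nice a x' (NV x')` (`Nice_sSup`). For fixed `ρ`: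
`ρ.b ≤ ⨆ x', if G ρ x' then NV x' else ⊥`, where
`G ρ x' := IsMdl a (h a) x' ∧ (∀ y ∈ ρ.m, Blw y x') ∧ ∀ v ∈ ρ.w, v.1 < x'.d ∧ v.2.1 < x'.d`: otherwise there is
`b ∈ S a`, `⊥ ≠ b ≤ ρ.b`, disjoint from the supremum, and `exists_side` for the condition `⟨b, ρ.w, ρ.m⟩` (`PD_restr`;
`z = ⊥`, `ν = ⊥`) gives a contradiction. By `ev_iSup` (code `F.s`; normality in `ρ`) there is `x'` with `F.s x' ∈ M`, `G ρ x'`,
`q₂ = q₁ ⊓ NV x' ≠ ⊥`. (3) Let `e = y.image (T.r x'.d d)` (`x'.d < d` as `F.o x'.d ∈ M`, `ev_side`), `x'' = rem x' e`. Then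
`F.s x'' ∈ M` (`ev_nrm`, `ev_all` for the finite set `e`). The result is
`ρ' = ⟨q₂, ρ.w ∪ y.image (fun n => (x'.d, d, n)), insert x (insert x'' ρ.m)⟩`. `PD a ρ'`: `mdl`: `rem_mdl`, and `ev_mdl` for `x`;
`nice`: `rem_nice`, `Nice_mono`; `chain`: `Blw y x''` for `y ∈ ρ.m` (same `N`, `d` as `x'`), `Blw x'' x` by `blw_of_mem`;
`res`: for `v = (x'.d, d, n)` only `x` is a side condition with `x'.d < x.d` (the others satisfy `y.d ≤ x'.d`), `d = x.d`,
`T.r d d n = n`, `q₂ ≤ q ≤ x.Y n`; for `v ∈ ρ.w` and `x''` or `x`: `v.2.1 < x'.d`, nothing to check.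
-/

set_option autoImplicit false

namespace Pool.Agent.BPF

open Cardinal Pool.Agent.CSI

namespace Flt

variable {O Ω B : Type} [LinearOrder O] [WellFoundedLT O] [LinearOrder Ω] [WellFoundedLT Ω]
    [OrderBot O] [OrderBot Ω] [CompleteBooleanAlgebra B] {T : LTree Ω}
    (F : Flt (O := O) (B := B) T)

theorem ev_cap1 (hΩ : IsOm1 Ω) {a a' : O} (ha : Lm a) (hs : Sc a a') (hN : F.NS a) :
    ∀ᶠ M in clubF O, ∀ d, F.Dl M d → ∀ x, F.IsSide a M x → ∀ q ∈ F.S a, q ≠ ⊥ → F.Gen a M q →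
      Nice T F.toDat a x q → ∀ y : Finset ℕ, (∀ n ∈ y, q ≤ x.Y n) → ∀ p ∈ F.S a', F.cb p ∈ M →
      q ≤ F.pr a p → ∃ (x' : Side O Ω B) (ρ : Cnd O Ω B), F.s x' ∈ M ∧ ⊥ < x'.d ∧ x'.d < d ∧
        F.PD a ρ ∧ F.j a ρ ≤ p ∧ ρ.b ≤ q ∧ x ∈ ρ.m ∧ rem x' (y.image (T.r x'.d d)) ∈ ρ.m ∧
        ∀ n ∈ y, (x'.d, d, n) ∈ ρ.w := by
  classical
  let f : B → Cnd O Ω B → B := fun p ρ => if F.PD a ρ ∧ F.j a ρ ≤ p then ρ.b else ⊥
  let G : Cnd O Ω B → Side O Ω B → Prop := fun ρ x => IsMdl T F.toDat a (F.h a) x ∧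
      (∀ y ∈ ρ.m, Blw F.toDat y x) ∧ ∀ v ∈ ρ.w, v.1 < x.d ∧ v.2.1 < x.d
  let g : Cnd O Ω B → Side O Ω B → B := fun ρ x => if G ρ x then F.NV a x else ⊥
  filter_upwards [F.ev_side, F.ev_cc, F.ev_mdl hΩ, ev_nrm F.cb_inj (fun p => F.ev_iSup F.cc (f p)),
    ev_nrm F.cc_inj (fun ρ => F.ev_iSup F.s (g ρ)),
    ev_nrm F.s_inj (fun x => ev_all fun e : Finset ℕ => ev_mem (F.s (rem x e)))] with M hside hcc
    hmdl h1 h2 h3 d hd x hx q hqS hq0 hqG hqN y hy p hpS hpM hqp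
  -- deciding `p`
  have e1 : q ≤ ⨆ ρ, ⨆ _ : F.cc ρ ∈ M, f p ρ := by
    have e2 : q ≤ ⨆ ρ, f p ρ := by
      refine (hqp.trans (F.pr_le_iSup_b ha hs hpS)).trans ?_
      refine iSup_mono fun ρ => iSup_le fun h => ?_
      show ρ.b ≤ if F.PD a ρ ∧ F.j a ρ ≤ p then ρ.b else ⊥
      rw [if_pos h]
    have e3 := h1 p hpM a (fun ρ => by
      show (if F.PD a ρ ∧ F.j a ρ ≤ p then ρ.b else ⊥) ∈ F.S a
      split_ifs with h
      · exact h.1.b
      · exact F.bot_mem a) q hqG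
    exact (le_inf le_rfl e2).trans e3
  obtain ⟨ρ, hρM, hρ0⟩ := ne_of_iSup hq0 e1
  have hρ : F.PD a ρ ∧ F.j a ρ ≤ p := by
    by_contra hn
    apply hρ0
    show q ⊓ (if F.PD a ρ ∧ F.j a ρ ≤ p then ρ.b else ⊥) = ⊥
    rw [if_neg hn, inf_bot_eq]
  have hρ1 : q ⊓ ρ.b ≠ ⊥ := by
    intro h0
    apply hρ0
    show q ⊓ (if F.PD a ρ ∧ F.j a ρ ≤ p then ρ.b else ⊥) = ⊥
    rw [if_pos hρ, h0]
  obtain ⟨hρP, hρp⟩ := hρ
  -- the model below
  have e4 : q ⊓ ρ.b ≤ ⨆ x', ⨆ _ : F.s x' ∈ M, g ρ x' := by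
    have e5 : q ⊓ ρ.b ≤ ⨆ x', g ρ x' := by
      refine (inf_le_right.trans (F.le_iSup_NV hΩ ha hN hρP)).trans ?_
      refine iSup_mono fun x' => iSup_le fun h => ?_
      show F.NV a x' ≤ if G ρ x' then F.NV a x' else ⊥
      rw [if_pos h]
    have e6 := h2 ρ hρM a (fun x' => by
      show (if G ρ x' then F.NV a x' else ⊥) ∈ F.S a
      split_ifs with h
      · exact F.NV_mem a x'
      · exact F.bot_mem a) (q ⊓ ρ.b) (F.gen_mono inf_le_left hqG)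
    exact (le_inf le_rfl e5).trans e6
  obtain ⟨x', hx'M, hx'0⟩ := ne_of_iSup hρ1 e4
  have hG : G ρ x' := by
    by_contra hn
    apply hx'0
    show q ⊓ ρ.b ⊓ (if G ρ x' then F.NV a x' else ⊥) = ⊥
    rw [if_neg hn, inf_bot_eq]
  have hne : q ⊓ ρ.b ⊓ F.NV a x' ≠ ⊥ := by
    intro h0
    apply hx'0
    show q ⊓ ρ.b ⊓ (if G ρ x' then F.NV a x' else ⊥) = ⊥
    rw [if_pos hG, h0]
  obtain ⟨hG1, hG2, hG3⟩ := hG
  have hx'd : x'.d < d := (hd _).1 (hside x' hx'M).1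
  have hxd : x.d = d := by
    apply le_antisymm
    · by_contra hlt
      exact lt_irrefl _ ((hd d).1 ((hx.om d).2 (not_le.1 hlt)))
    · by_contra hlt
      exact lt_irrefl _ ((hx.om x.d).1 ((hd x.d).2 (not_le.1 hlt)))
  set e : Finset ℕ := y.image (T.r x'.d d) with he
  have hrM : F.s (rem x' e) ∈ M := h3 x' hx'M e
  have hrmdl : IsMdl T F.toDat a (F.h a) (rem x' e) := rem_mdl (F.bot_mem a) hG1 e
  have hbρ : q ⊓ ρ.b ⊓ F.NV a x' ≤ ρ.b := inf_le_left.trans inf_le_right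
  have hbq : q ⊓ ρ.b ⊓ F.NV a x' ≤ q := inf_le_left.trans inf_le_left
  have hrx : Blw F.toDat (rem x' e) x := F.blw_of_mem ha hside hx hrmdl hrM
  have hyx : ∀ z ∈ ρ.m, Blw F.toDat z x := fun z hz =>
    F.blw_of_mem ha hside hx (hρP.mdl z hz) ((hcc ρ hρM).2.2 z hz)
  have hyr : ∀ z ∈ ρ.m, Blw F.toDat z (rem x' e) := fun z hz => blw_rem (hG2 z hz) e
  have hPD : F.PD a ⟨q ⊓ ρ.b ⊓ F.NV a x', ρ.w ∪ y.image (fun n => (x'.d, d, n)),
      insert x (insert (rem x' e) ρ.m)⟩ := by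
    refine ⟨F.inf_mem (F.inf_mem hqS hρP.b) (F.NV_mem a x'), hne, ?_, ?_, ?_, ?_⟩
    · intro z hz
      rcases Finset.mem_insert.1 hz with rfl | hz
      · exact hmdl a ha z hx
      rcases Finset.mem_insert.1 hz with rfl | hz
      · exact hrmdl
      · exact hρP.mdl z hz
    · intro z hz
      rcases Finset.mem_insert.1 hz with rfl | hz
      · exact Nice_mono hqN hbq
      rcases Finset.mem_insert.1 hz with rfl | hz
      · exact rem_nice (Nice_mono (F.NV_nice a x') inf_le_right) e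
      · exact Nice_mono (hρP.nice z hz) hbρ
    · intro z hz0 z' hz0'
      have hzc := Finset.mem_insert.1 hz0
      have hzc' := Finset.mem_insert.1 hz0'
      rw [Finset.mem_insert] at hzc hzc'
      clear hz0 hz0'
      rcases hzc with h | h | h
      · rcases hzc' with h' | h' | h'
        · exact Or.inl (h.trans h'.symm)
        · rw [h, h']
          exact Or.inr (Or.inr hrx)
        · rw [h]
          exact Or.inr (Or.inr (hyx z' h'))
      · rcases hzc' with h' | h' | h'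
        · rw [h, h']
          exact Or.inr (Or.inl hrx)
        · exact Or.inl (h.trans h'.symm)
        · rw [h]
          exact Or.inr (Or.inr (hyr z' h'))
      · rcases hzc' with h' | h' | h'
        · rw [h']
          exact Or.inr (Or.inl (hyx z h))
        · rw [h']
          exact Or.inr (Or.inl (hyr z h))
        · exact hρP.chain z h z' h'
    · intro v hv z hz hvz hzv
      show q ⊓ ρ.b ⊓ F.NV a x' ≤ z.Y (T.r z.d v.2.1 v.2.2)
      rcases Finset.mem_union.1 hv with hv | hv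
      · have hvx := (hG3 v hv).2
        rcases Finset.mem_insert.1 hz with rfl | hz
        · rw [hxd] at hzv
          exact absurd (hzv.trans_lt hvx) (not_lt.2 hx'd.le)
        rcases Finset.mem_insert.1 hz with rfl | hz
        · exact absurd (lt_of_le_of_lt hzv hvx) (lt_irrefl _)
        · exact hbρ.trans (hρP.res v hv z hz hvz hzv)
      · obtain ⟨n, hn, rfl⟩ := Finset.mem_image.1 hv
        rcases Finset.mem_insert.1 hz with rfl | hz
        · show _ ≤ z.Y (T.r z.d d n)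
          rw [hxd, T.r_self]
          exact hbq.trans (hy n hn)
        rcases Finset.mem_insert.1 hz with rfl | hz
        · exact absurd hvz (lt_irrefl _)
        · exact absurd (lt_trans hvz (hG2 z hz).lt) (lt_irrefl _)
  refine ⟨x', _, hx'M, hG1.pos, hx'd, hPD, ?_, hbq, Finset.mem_insert_self _ _,
    Finset.mem_insert_of_mem (Finset.mem_insert_self _ _), ?_⟩
  · refine (F.j_mono a ρ _ ha hρP hPD ⟨hbρ, Finset.subset_union_left, ?_⟩).trans hρp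
    exact (Finset.subset_insert _ _).trans (Finset.subset_insert _ _)
  · intro n hn
    exact Finset.mem_union_right _ (Finset.mem_image.2 ⟨n, hn, rfl⟩)

end Flt

end Pool.Agent.BPF
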