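import Pool.Agent.Lib.MP_11349d_lc.T.LemD2

/-!
# LemD3: Lemma D: conditions containing the side condition of `M` are generic

PROOFS. `climb_Fr`: `climb` for `m = {y ∈ ρ.m | y ∉ m₀}` (contains `x`: `Blw x x` is false; every `y ∈ m` is `x` or above `x`, so
`c ∈ Set.range y.N` and `Mem D y V` by `Blw.sub`), `b`, `V`. It gives the greatest `z ∈ m` and `s` with
`b ⊓ V z.d s ⊓ ⨅ y ∈ m, ⨅ i, y.Y (T.r y.d z.d (s i)) ≠ ⊥`; the last term is `Fr T m₀ ρ z.d s` (all `y.d ≤ z.d`), and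
`Sb V W ⊓ V z.d s ≤ W z.d s`.
`ev_lemD`: let `E ⊆ S a'`, `F.cS E ∈ M` (so `#E < #O` by `F.small`). Suppose
`b₀ = j a p ⊓ sSup E ⊓ (sSup {e | e ∈ E ∧ F.cb e ∈ M})ᶜ ≠ ⊥`. There is `e₀ ∈ E` with `b₀ ⊓ e₀ ≠ ⊥`, and (`exists_j_le` for `p`) a
condition `ρ` below `p` with `j a ρ ≤ b₀ ⊓ e₀`. `x ∈ ρ.m`, `ρ.b ≤ p.b` is generic (`gen_mono`). Let
`m₀ = {y ∈ ρ.m | Blw y x}`, `w₀ = {v ∈ ρ.w | v.1 < d ∧ v.2.1 < d}`, `Q = {v ∈ ρ.w | v.1 < d ∧ d ≤ v.2.1}`, `k = Q.card`,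
`t i = T.r d v.2.1 v.2.2` for the `i`-th element `v` of `Q` (`Q.equivFin`). `F.cc ⟨⊥, w₀, m₀⟩ ∈ M` by `ev_cc_mem` (for `y ∈ m₀`,
`F.s y ∈ Set.range x.N ⊆ M`). `ρ ∈ Ep a E w₀ m₀`. `ρ.b ≤ x.Y (t i)` for all `i` (clause `res`, `x.d = d`).
CASE 1: there is `p₁ ∈ Ep a E w₀ m₀` with `F.cc p₁ ∈ M` and `b = ρ.b ⊓ p₁.b ⊓ Fr T m₀ p₁ d t ≠ ⊥`. `union_PD` (with `ev_cc`,
`ev_side`) gives `ρ'` below `ρ` and `p₁`. By `ev_r` (witness in `M`, parameters `a`, `E`, `p₁`) there is `e ∈ E` with `F.cb e ∈ M`,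
`j a p₁ ≤ e`. `j a ρ' ≤ j a p₁ ≤ e ≤ sSup {e | ...}` and `j a ρ' ≤ j a ρ ≤ b₀`; so `j a ρ' = ⊥`, contradiction (`j_ne`).
CASE 2: otherwise `ev_WD` gives `ρ.b ≤ WD ξ (T.res ξ d t)` for all `ξ < d` and `n k WD ∈ M`, `n k WD < h a` (`(F.bd a ha).n`,
`WD_InS`), so `Mem x WD`. `y1` for `x` and `ρ.b` gives `c ∈ Set.range x.N`, `¬ Lm c`, `c < a`, `V` with `Mem x V`, `InS c V`,
`b = ρ.b ⊓ (Lg c V ⊓ Sb V WD) ≠ ⊥`. `climb_Fr` gives `ξ`, `s` with `b ⊓ WD ξ s ⊓ Fr T m₀ ρ ξ s ≠ ⊥`; but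
`WD ξ s ≤ (ρ.b ⊓ Fr T m₀ ρ ξ s)ᶜ`. Contradiction.
-/

set_option autoImplicit false

namespace Pool.Agent.BPF

open Cardinal Pool.Agent.CSI

namespace Flt

variable {O Ω B : Type} [LinearOrder O] [WellFoundedLT O] [LinearOrder Ω] [WellFoundedLT Ω]
    [OrderBot O] [OrderBot Ω] [CompleteBooleanAlgebra B] {T : LTree Ω}
    (F : Flt (O := O) (B := B) T)

theorem climb_Fr {a : O} (ha : Lm a) {ρ : Cnd O Ω B} (hρ : F.PD a ρ) {x : Side O Ω B}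
    (hxρ : x ∈ ρ.m) {m₀ : Finset (Side O Ω B)}
    (hm₀ : ∀ y, y ∈ m₀ ↔ y ∈ ρ.m ∧ Blw F.toDat y x) {c : O} (hcx : c ∈ Set.range x.N)
    (hcl : ¬ Lm c) (hca : c < a) {k : ℕ} {V W : Nm Ω B k} (hVx : Mem F.toDat x V)
    (hV : InS F.toDat c V) {b : B} (hb : b ≠ ⊥) (hbρ : b ≤ ρ.b) (hL : b ≤ Lg T F.toDat c V)
    (hS : b ≤ Sb V W) : ∃ ξ s, b ⊓ W ξ s ⊓ Fr T m₀ ρ ξ s ≠ ⊥ := by
  classical
  have hmem : ∀ y, y ∈ ρ.m.filter (fun y => y ∉ m₀) ↔ y ∈ ρ.m ∧ y ∉ m₀ := fun y =>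
    Finset.mem_filter
  have hab : ∀ y ∈ ρ.m.filter (fun y => y ∉ m₀), Set.range x.N ⊆ Set.range y.N := by
    intro y hy
    obtain ⟨hy1, hy2⟩ := (hmem y).1 hy
    rcases hρ.chain y hy1 x hxρ with h | h | h
    · rw [h]
    · exact absurd ((hm₀ y).2 ⟨hy1, h⟩) hy2
    · exact h.sub
  obtain ⟨z, hz, hzt, s, hs⟩ := climb (T := T) (D := F.toDat) (a := a) (h := F.h a) (c := c) hca hcl
    (F.bot_mem c) (F.mono c a hca.le) hV hb hL (m := ρ.m.filter (fun y => y ∉ m₀))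
    ⟨x, (hmem x).2 ⟨hxρ, fun h => lt_irrefl _ ((hm₀ x).1 h).2.lt⟩⟩
    (fun y hy => hρ.mdl y ((hmem y).1 hy).1)
    (fun y hy => Nice_mono (hρ.nice y ((hmem y).1 hy).1) hbρ)
    (fun y hy y' hy' => hρ.chain y ((hmem y).1 hy).1 y' ((hmem y').1 hy').1)
    (fun y hy => hab y hy hcx) (fun y hy => hab y hy hVx)
  refine ⟨z.d, s, ne_bot_of_le_ne_bot hs ?_⟩
  refine le_inf (le_inf (inf_le_left.trans inf_le_left) ?_) (inf_le_right.trans ?_)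
  · have h1 : b ≤ V z.d s ⇨ W z.d s := (hS.trans (iInf_le _ z.d)).trans (iInf_le _ s)
    exact inf_le_left.trans (le_himp_iff.1 h1)
  · unfold Fr
    refine le_iInf fun y => le_iInf fun hy => ?_
    have hy' := (hmem y).2 hy
    have hyd : y.d ≤ z.d := by
      rcases hzt y hy' with h | h
      · rw [h]
      · exact h.lt.le
    rw [if_pos hyd]
    exact iInf₂_le y hy'

/-- witnesses in the model -/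
private theorem ev_wit : ∀ᶠ M in clubF O, ∀ a ∈ M, ∀ E ∈ {E : Set B | #E < #O}, F.cS E ∈ M →
    ∀ p, F.cc p ∈ M → (∃ e, e ∈ E ∧ F.j a p ≤ e) → ∃ e, (e ∈ E ∧ F.j a p ≤ e) ∧ F.cb e ∈ M :=
  ev_normal fun _ => ev_normalOn F.cS_inj fun _ _ => ev_nrm F.cc_inj fun _ => ev_r0 F.cb _

/-- **Lemma D** -/
theorem ev_lemD : ∀ᶠ M in clubF O, ∀ d, F.Dl M d → ∀ a ∈ M, Lm a → ∀ a', Sc a a' → ∀ x,
    F.IsSide a M x → ∀ p, F.PD a p → x ∈ p.m → F.Gen a M p.b → F.Gen a' M (F.j a p) := by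
  classical
  filter_upwards [F.ev_side, F.ev_cc, F.ev_cc_mem, F.ev_WD, F.ev_wit] with M h1 h2 h3 h4 h5
  intro d hd a haM ha a' hs x hx p hp hxp hgen E hE hEM
  have hEc : #E < #O := (Cardinal.mk_le_mk_of_subset hE).trans_lt (F.small a')
  obtain ⟨S, hSdef⟩ : ∃ S : B, S = sSup {e | e ∈ E ∧ F.cb e ∈ M} := ⟨_, rfl⟩
  rw [← hSdef]
  by_contra hcon
  obtain ⟨b₀, hb₀⟩ : ∃ b₀ : B, b₀ = F.j a p ⊓ sSup E ⊓ Sᶜ := ⟨_, rfl⟩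
  have hb₀ne : b₀ ≠ ⊥ := by
    intro h
    rw [hb₀] at h
    exact hcon (disjoint_compl_right_iff.1 (disjoint_iff.2 h))
  have hb₀j : b₀ ≤ F.j a p := by rw [hb₀]; exact inf_le_left.trans inf_le_left
  have hb₀E : b₀ ≤ sSup E := by rw [hb₀]; exact inf_le_left.trans inf_le_right
  have hb₀S : b₀ ≤ Sᶜ := by rw [hb₀]; exact inf_le_right
  obtain ⟨e₀, he₀, he₀ne⟩ : ∃ e₀ ∈ E, b₀ ⊓ e₀ ≠ ⊥ := by
    have h6 : b₀ ≤ ⨆ e, ⨆ _ : e ∈ E, e := by rw [← sSup_eq_iSup]; exact hb₀E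
    obtain ⟨e, he, hne⟩ := ne_of_iSup (f := fun e : B => e) hb₀ne h6
    exact ⟨e, he, hne⟩
  have hSmem : S ∈ F.S a' := by
    rw [hSdef]
    exact F.sup_mem a' _ fun e he => hE he.1
  have hb₀mem : b₀ ∈ F.S a' := by
    rw [hb₀]
    exact F.inf_mem (F.inf_mem (F.j_mem a a' p ha hs hp) (F.sup_mem a' E hE)) (F.compl_mem a' _ hSmem)
  obtain ⟨ρ, hρ, hρp, hρj⟩ := F.exists_j_le ha hs hp (x := b₀ ⊓ e₀) (F.inf_mem hb₀mem (hE he₀)) (by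
    refine ne_bot_of_le_ne_bot he₀ne (le_inf (inf_le_left.trans hb₀j) le_rfl))
  have hxρ : x ∈ ρ.m := hρp.2.2 hxp
  have hρgen : F.Gen a M ρ.b := F.gen_mono hρp.1 hgen
  have hxd : x.d = d := eq_of_forall_lt_iff fun ξ => ((hx.om ξ).symm.trans (hd ξ))
  obtain ⟨m₀, hm₀⟩ : ∃ m₀ : Finset (Side O Ω B), ∀ y, y ∈ m₀ ↔ y ∈ ρ.m ∧ Blw F.toDat y x :=
    ⟨ρ.m.filter fun y => Blw F.toDat y x, fun y => Finset.mem_filter⟩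
  obtain ⟨w₀, hw₀⟩ : ∃ w₀ : Finset (Ω × Ω × ℕ), ∀ v, v ∈ w₀ ↔ v ∈ ρ.w ∧ v.1 < d ∧ v.2.1 < d :=
    ⟨ρ.w.filter fun v => v.1 < d ∧ v.2.1 < d, fun y => Finset.mem_filter⟩
  obtain ⟨k, t, ht1, ht2⟩ : ∃ (k : ℕ) (t : Fin k → ℕ),
      (∀ v ∈ ρ.w, v.1 < d → d ≤ v.2.1 → ∃ i, t i = T.r d v.2.1 v.2.2) ∧
      ∀ i, ∃ v ∈ ρ.w, v.1 < d ∧ d ≤ v.2.1 ∧ t i = T.r d v.2.1 v.2.2 := by
    obtain ⟨Q, hQ⟩ : ∃ Q : Finset (Ω × Ω × ℕ), ∀ v, v ∈ Q ↔ v ∈ ρ.w ∧ v.1 < d ∧ d ≤ v.2.1 :=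
      ⟨ρ.w.filter fun v => v.1 < d ∧ d ≤ v.2.1, fun y => Finset.mem_filter⟩
    refine ⟨Q.card, fun i => T.r d (Q.equivFin.symm i).1.2.1 (Q.equivFin.symm i).1.2.2, ?_, ?_⟩
    · intro v hv hv1 hv2
      refine ⟨Q.equivFin ⟨v, (hQ v).2 ⟨hv, hv1, hv2⟩⟩, ?_⟩
      simp only [Equiv.symm_apply_apply]
    · intro i
      obtain ⟨g1, g2, g3⟩ := (hQ _).1 (Q.equivFin.symm i).2
      exact ⟨(Q.equivFin.symm i).1, g1, g2, g3, rfl⟩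
  have hccM : F.cc ⟨⊥, w₀, m₀⟩ ∈ M := by
    refine h3 w₀ m₀ (fun v hv => ?_) (fun y hy => ?_)
    · obtain ⟨-, g1, g2⟩ := (hw₀ v).1 hv
      exact ⟨(hd _).2 g1, (hd _).2 g2⟩
    · have g1 := ((hm₀ y).1 hy).2.mem
      rw [hx.N] at g1
      exact g1.1
  have hρEp : ρ ∈ F.Ep a E w₀ m₀ :=
    ⟨hρ, ⟨e₀, he₀, hρj.trans inf_le_right⟩, fun v hv => ((hw₀ v).1 hv).1,
      fun y hy => ((hm₀ y).1 hy).1⟩
  have hYt : ∀ i, ρ.b ≤ x.Y (t i) := by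
    intro i
    obtain ⟨v, hv, hv1, hv2, hv3⟩ := ht2 i
    have g1 := hρ.res v hv x hxρ (by rw [hxd]; exact hv1) (by rw [hxd]; exact hv2)
    rw [hv3]
    rw [hxd] at g1
    exact g1
  by_cases hcase : ∃ p₁ ∈ F.Ep a E w₀ m₀, F.cc p₁ ∈ M ∧ ρ.b ⊓ p₁.b ⊓ Fr T m₀ p₁ d t ≠ ⊥
  · obtain ⟨p₁, hp₁, hp₁M, hne⟩ := hcase
    obtain ⟨hp₁P, hp₁e, hp₁w, hp₁m⟩ := hp₁
    obtain ⟨-, h6, h7⟩ := h2 p₁ hp₁M
    obtain ⟨ρ', hρ', hρ'ρ, hρ'p, -⟩ := F.union_PD ha hd h1 hx hρ hxρ hp₁P h6 h7 hm₀ hp₁m hw₀ hp₁w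
      ht1 (F.inf_mem (F.inf_mem hρ.b hp₁P.b) (F.Fr_mem hp₁P d t)) hne
      (inf_le_left.trans inf_le_left) (inf_le_left.trans inf_le_right) inf_le_right
    obtain ⟨e, ⟨heE, hje⟩, heM⟩ := h5 a haM E hEc hEM p₁ hp₁M hp₁e
    refine F.j_ne ha hρ' (le_bot_iff.1 ?_)
    have h8 : F.j a ρ' ≤ S := by
      refine ((F.j_mono a p₁ ρ' ha hp₁P hρ' hρ'p).trans hje).trans ?_
      rw [hSdef]
      exact le_sSup ⟨heE, heM⟩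
    have h9 : F.j a ρ' ≤ Sᶜ :=
      (((F.j_mono a ρ ρ' ha hρ hρ' hρ'ρ).trans hρj).trans inf_le_left).trans hb₀S
    exact (le_inf h8 h9).trans inf_compl_eq_bot.le
  · have hcase' : ∀ p₁ ∈ F.Ep a E w₀ m₀, F.cc p₁ ∈ M → ρ.b ⊓ p₁.b ⊓ Fr T m₀ p₁ d t = ⊥ := by
      intro p₁ hp₁ hp₁M
      by_contra hne
      exact hcase ⟨p₁, hp₁, hp₁M, hne⟩
    obtain ⟨hWM, hW⟩ := h4 d hd a haM E hEc hEM w₀ m₀ hccM k
    have hW' := hW ρ.b hρgen t hcase'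
    have hIn : InS F.toDat a (F.WD a E w₀ m₀ k) := F.WD_InS
    have hMem : Mem F.toDat x (F.WD a E w₀ m₀ k) := by
      unfold Mem
      rw [hx.N]
      exact ⟨hWM, (F.bd a ha).n k _ hIn⟩
    have hy1 := (hρ.nice x hxρ).y1 k (F.WD a E w₀ m₀ k) hMem hIn F.WD_Tr t
    have hle : ρ.b ≤ ρ.b ⊓ (⨅ i, x.Y (t i)) ⊓
        (⨅ ξ, ⨅ _ : ξ < x.d, F.WD a E w₀ m₀ k ξ (T.res ξ x.d t)) := by
      refine le_inf (le_inf le_rfl (le_iInf hYt)) (le_iInf fun ξ => le_iInf fun hξ => ?_)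
      rw [hxd] at hξ ⊢
      exact hW' ξ hξ
    obtain ⟨c, ⟨hcx, hcl, hca⟩, hne1⟩ := ne_of_iSup hρ.ne (hle.trans hy1)
    obtain ⟨V, ⟨hVx, hV⟩, hne2⟩ := ne_of_iSup hne1 inf_le_right
    have hne3 : ρ.b ⊓ (Lg T F.toDat c V ⊓ Sb V (F.WD a E w₀ m₀ k)) ≠ ⊥ :=
      ne_bot_of_le_ne_bot hne2 (inf_le_inf_right _ inf_le_left)
    obtain ⟨ξ, s, hfin⟩ := F.climb_Fr ha hρ hxρ hm₀ hcx hcl hca hVx hV hne3 inf_le_left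
      (inf_le_right.trans inf_le_left) (inf_le_right.trans inf_le_right)
    apply hfin
    rw [← le_bot_iff]
    have h8 : F.WD a E w₀ m₀ k ξ s ≤ (ρ.b ⊓ Fr T m₀ ρ ξ s)ᶜ := iInf₂_le ρ hρEp
    refine le_trans (le_inf ?_ ?_) (inf_compl_eq_bot (a := ρ.b ⊓ Fr T m₀ ρ ξ s)).le
    · exact le_inf (inf_le_left.trans (inf_le_left.trans inf_le_left)) inf_le_right
    · exact inf_le_left.trans (inf_le_right.trans h8)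

end Flt

end Pool.Agent.BPF
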