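import Pool.Agent.Lib.MP_11349d_lc.T.Prnd

/-!
# Lrg: large trees from nodes which are captured

PROOFS. `wC_Tr`: `Tr T W` and `T.r_comp`. `Perp_tr`: second part of `Perp`.
`ev_lg`: `V = prn T (wC T W C)`; its code is in `M` (`ev_normalOn` for `W` (code `F.n k`), for `C` (code `F.ct`), and
`ev_mem`; `eventually_countable_forall` for `k`). Let `q'` be the left side; it is generic. For `ζ < d`,
`q' ≤ wC T W C ζ (T.res ζ d t)`, because below `Perp`, `C d (t i) ≤ C η (T.r η d (t i))` for `η ≤ ζ` (`T.r_comp`). By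
`ev_Prn_prn`, `q' ≤ Prn T V`; `q' ≤ Perp T F.toDat a C`, `SbP V C = ⊤`, `Sb V W = ⊤` (`prn_le`, `wC_le`).
`ev_lg'`: distribute `Cap` and use `ev_lg` for its `C`.
-/

set_option autoImplicit false

namespace Pool.Agent.BPF

open Cardinal Pool.Agent.CSI

section
variable {O Ω B : Type} [LinearOrder O] [LinearOrder Ω] [OrderBot O] [OrderBot Ω]
  [CompleteBooleanAlgebra B] (T : LTree Ω) (D : Dat O Ω B)

theorem Perp_tr (a : O) (C : Ω → ℕ → B) {ξ η : Ω} (h : ξ ≤ η) (n : ℕ) :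
    Perp T D a C ⊓ C η n ≤ C ξ (T.r ξ η n) := by
  rw [← le_himp_iff]
  exact (inf_le_left.trans inf_le_right).trans
    ((iInf_le _ ξ).trans ((iInf_le _ η).trans ((iInf_le _ h).trans (iInf_le _ n))))

theorem wC_le {k : ℕ} (W : Nm Ω B k) (C : Ω → ℕ → B) (ξ : Ω) (s : Fin k → ℕ) :
    wC T W C ξ s ≤ W ξ s := by
  exact inf_le_left

theorem wC_Tr {k : ℕ} {W : Nm Ω B k} (hW : Tr T W) (C : Ω → ℕ → B) : Tr T (wC T W C) := by
  intro ξ η s hξη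
  refine inf_le_inf (hW ξ η s hξη) (iInf_mono fun i => le_iInf₂ fun ζ hζ => ?_)
  refine (iInf_le _ ζ).trans ((iInf_le _ (hζ.trans hξη)).trans ?_)
  have h := T.r_comp ζ ξ η (s i) hζ hξη
  change C ζ (T.r ζ η (s i)) ≤ C ζ (T.r ζ ξ (T.r ξ η (s i)))
  rw [h]

theorem SbP_wC {k : ℕ} (W : Nm Ω B k) (C : Ω → ℕ → B) : SbP (wC T W C) C = ⊤ := by
  unfold SbP
  simp only [iInf_eq_top, himp_eq_top_iff]
  refine fun ξ s => inf_le_right.trans (iInf_mono fun i => (iInf_le _ ξ).trans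
    ((iInf_le _ le_rfl).trans ?_))
  rw [T.r_self]

theorem Sb_top {k : ℕ} {V W : Nm Ω B k} (h : ∀ ξ s, V ξ s ≤ W ξ s) : Sb V W = ⊤ := by
  unfold Sb
  simp only [iInf_eq_top, himp_eq_top_iff]
  exact h

theorem Sb_trans {k : ℕ} (U V W : Nm Ω B k) : Sb U V ⊓ Sb V W ≤ Sb U W := by
  refine le_iInf₂ fun ξ s => (inf_le_inf (iInf₂_le ξ s) (iInf₂_le ξ s)).trans ?_
  exact himp_triangle _ _ _

theorem SbP_le {k : ℕ} {V W : Nm Ω B k} (h : ∀ ξ s, V ξ s ≤ W ξ s) (C : Ω → ℕ → B) :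
    SbP W C ≤ SbP V C := by
  exact iInf₂_mono fun ξ s => himp_le_himp_right (h ξ s)

theorem Prn_le_Lg {k : ℕ} {a : O} (W : Nm Ω B k) (C : Ω → ℕ → B) (hC : ∀ ξ n, C ξ n ∈ D.S a) :
    Prn T W ⊓ Perp T D a C ⊓ SbP W C ≤ Lg T D a W := by
  rw [inf_assoc]
  exact inf_le_inf_left _ (le_iSup₂_of_le C hC le_rfl)

end

namespace Flt

variable {O Ω B : Type} [LinearOrder O] [WellFoundedLT O] [LinearOrder Ω] [WellFoundedLT Ω]
    [OrderBot O] [OrderBot Ω] [CompleteBooleanAlgebra B] {T : LTree Ω}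
    (F : Flt (O := O) (B := B) T)

theorem wC_InS {k : ℕ} {a : O} {W : Nm Ω B k} {C : Ω → ℕ → B} (h : InS F.toDat a W)
    (hC : ∀ ξ n, C ξ n ∈ F.S a) : InS F.toDat a (wC T W C) := by
  exact fun ξ s => F.inf_mem (h ξ s)
    (F.iInf_mem fun _ => F.iInf_mem fun _ => F.iInf_mem fun _ => hC _ _)

theorem ev_lg : ∀ᶠ M in clubF O, ∀ d, F.Dl M d → ∀ (k : ℕ) (W : Nm Ω B k),
    F.n k W ∈ M → Tr T W → ∀ C, F.ct C ∈ M → ∀ a, InS F.toDat a W →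
    (∀ ξ n, C ξ n ∈ F.S a) → ∀ q, F.Gen a M q → ∀ t,
      q ⊓ (⨅ ζ, ⨅ _ : ζ < d, W ζ (T.res ζ d t)) ⊓ Perp T F.toDat a C ⊓ (⨅ i, C d (t i)) ≤
        ⨆ V : Nm Ω B k, ⨆ _ : F.n k V ∈ M ∧ InS F.toDat a V, Lg T F.toDat a V ⊓ Sb V W := by
  filter_upwards [F.ev_Prn_prn,
    ev_all fun k => ev_f2 (F.n_inj k) F.ct_inj (F.n k) fun (W : Nm Ω B k) C => wC T W C,
    ev_all fun k => ev_f2 (F.n_inj k) F.ct_inj (F.n k) fun (W : Nm Ω B k) C => prn T (wC T W C)]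
    with M h1 h2 h3
  intro d hd k W hWM hW C hCM a hWa hCa q hq t
  have hI := F.wC_InS hWa hCa
  refine le_iSup₂_of_le (prn T (wC T W C)) ⟨h3 k W hWM C hCM, F.prn_InS hI⟩ ?_
  have e1 : Sb (prn T (wC T W C)) W = ⊤ :=
    Sb_top fun ξ s => (prn_le T _ ξ s).trans (wC_le T W C ξ s)
  have e2 : SbP (prn T (wC T W C)) C = ⊤ :=
    top_le_iff.1 ((SbP_wC T W C).symm.le.trans (SbP_le (prn_le T _) C))
  rw [e1, inf_top_eq]
  refine le_trans ?_ (Prn_le_Lg T F.toDat (prn T (wC T W C)) C hCa)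
  rw [e2, inf_top_eq]
  refine le_inf ?_ (inf_le_left.trans inf_le_right)
  refine le_trans ?_ (h1 d hd k (wC T W C) (h2 k W hWM C hCM) (wC_Tr T hW C) a hI q hq t)
  refine le_inf (inf_le_left.trans (inf_le_left.trans inf_le_left)) (le_iInf₂ fun ζ hζ => ?_)
  refine le_inf ((inf_le_left.trans (inf_le_left.trans inf_le_right)).trans (iInf₂_le ζ hζ)) ?_
  refine le_iInf fun i => le_iInf₂ fun η hη => ?_
  have e3 : T.r η ζ (T.res ζ d t i) = T.r η d (t i) := T.r_comp η ζ d (t i) hη hζ.le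
  rw [e3]
  exact (inf_le_inf inf_le_right (iInf_le _ i)).trans
    (Perp_tr T F.toDat a C (hη.trans hζ.le) (t i))

theorem ev_lg' : ∀ᶠ M in clubF O, ∀ d, F.Dl M d → ∀ (k : ℕ) (W : Nm Ω B k),
    F.n k W ∈ M → Tr T W → ∀ a, InS F.toDat a W → ∀ q, F.Gen a M q → ∀ (y : Finset ℕ) t,
      (∀ i, t i ∈ y) →
      q ⊓ (⨅ ζ, ⨅ _ : ζ < d, W ζ (T.res ζ d t)) ⊓ F.Cap a M d y ≤
        ⨆ V : Nm Ω B k, ⨆ _ : F.n k V ∈ M ∧ InS F.toDat a V, Lg T F.toDat a V ⊓ Sb V W := by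
  filter_upwards [F.ev_lg] with M h
  intro d hd k W hWM hW a hWa q hq y t ht
  unfold Cap
  rw [inf_iSup_eq]
  refine iSup_le fun C => ?_
  rw [inf_iSup_eq]
  refine iSup_le fun hC => ?_
  refine le_trans ?_ (h d hd k W hWM hW C hC.1 a hWa hC.2 q hq t)
  rw [← inf_assoc]
  exact inf_le_inf_left _ (le_iInf fun i => iInf₂_le (t i) (ht i))

end Flt

end Pool.Agent.BPF
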