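import Pool.Agent.Lib.MP_11349d_lc.T.Add

/-!
# Ufc: the subtrees `U a`

PROOFS. `exists_node`: by `exists_add` with `z = ⊥`, `ν' = max ν ζ` there is `p₁` below `p` with a greatest side condition
`x`, `ζ, ν < x.d`. Let `m = {y ∈ p₁.m | ν < y.d}`, which contains `x`. `climb` with `c = ⊥`, `V = ⊤` (`k = 1`; `Lg_top`; `IsMdl.bot`,
`IsMdl.top`; `¬ Lm ⊥`) gives `s : Fin 1 → ℕ` and
`b = p₁.b ⊓ ⨅ y ∈ m, y.Y (T.r y.d x.d (s 0)) ≠ ⊥` (`climb` yields its own greatest element `x'` of `m`; it is `x`, because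
`x ∈ m` and `Blw` of all the others). `p' = ⟨b, insert (ν, x.d, s 0) p₁.w, p₁.m⟩` is a condition: clause `res` for
`v = (ν, x.d, s 0)` and `y` with `ν < y.d`: `y ∈ m`.
`U_unb`: if `⨆ n, U a ξ n ≠ ⊤` take `p` with `j a p ≤ (⨆ n, U a ξ n)ᶜ` (`j_dns`; the complement is in `S a'`), then
`exists_node` for `ν = ⊥`, `ζ = ξ`: `j a p' ≤ U a ξ (T.r ξ η n)` by `U_def`.
`ev_Uad` (lemma): if `x ∈ p.m`, `c ∈ range x.N`, `ν < x.d`, then below `j a p`, for every `n` the element `U c x.d n` is disjoint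
from all `j a p'` such that some `v ∈ p'.w` has `v.1 = ν`, `x.d ≤ v.2.1`, `T.r x.d v.2.1 v.2.2 = n`: otherwise
`exists_j_le2` (`U c x.d n ∈ S a ⊆ S a'`) gives `p''` below `p`, `p'` with `j a p'' ≤ U c x.d n`, so `p''.b ≤ U c x.d n`
(`j_pr`, `pr_le`), `p''.b ≤ x.Y n` (clause `res`), contradiction with `y0` for `x` and `p''.b`.
`U_ad`: if the supremum is not `⊤`, take `p` with `j a p` below its complement, `exists_add` with `z = c`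
(`c < a < h a`), `ν = ⊥`; then `j a p' ≤ ⨅ n, (U c x.d n ⊓ U a x.d n)ᶜ` by `Uad`.
-/

set_option autoImplicit false

namespace Pool.Agent.BPF

open Cardinal Pool.Agent.CSI

namespace Flt

variable {O Ω B : Type} [LinearOrder O] [WellFoundedLT O] [LinearOrder Ω] [WellFoundedLT Ω]
    [OrderBot O] [OrderBot Ω] [CompleteBooleanAlgebra B] {T : LTree Ω}
    (F : Flt (O := O) (B := B) T)

theorem not_Lm_bot : ¬ Lm (⊥ : O) := by
  rintro ⟨⟨c, hc⟩, -⟩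
  exact not_lt_bot hc

theorem ufc_mem {a a' : O} (ha : Lm a) (hs : Sc a a') (ξ : Ω) (n : ℕ) : F.U a ξ n ∈ F.S a' := by
  rw [F.U_def a ξ n ha]
  exact F.iSup_mem fun p => F.iSup_mem fun h => F.j_mem a a' p ha hs h.1

theorem exists_node (hΩ : IsOm1 Ω) {a : O} (ha : Lm a) (hN : F.NS a) {p : Cnd O Ω B}
    (hp : F.PD a p) (ν ζ : Ω) :
    ∃ p', F.PD a p' ∧ p'.le p ∧ ∃ η n, ζ ≤ η ∧ (ν, η, n) ∈ p'.w := by
  classical
  have hba : (⊥ : O) < a := by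
    obtain ⟨⟨c, hc⟩, -⟩ := ha
    exact bot_lt_of_lt hc
  have hz : (⊥ : O) < F.h a := hba.trans (F.bd a ha).lt
  obtain ⟨p₁, hp₁, hle, hw, x, hx, hm, hzx, hνx, hblw, hw'⟩ :=
    F.exists_add hΩ ha hN hp hz (max ν ζ)
  have hνx' : ν < x.d := lt_of_le_of_lt (le_max_left _ _) hνx
  have hζx' : ζ < x.d := lt_of_le_of_lt (le_max_right _ _) hνx
  set m := p₁.m.filter (fun y => ν < y.d) with hmdef
  have hxm : x ∈ m := Finset.mem_filter.2 ⟨hx, hνx'⟩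
  have hsub : ∀ y ∈ m, y ∈ p₁.m := fun y hy => (Finset.mem_filter.1 hy).1
  obtain ⟨x', hx'm, hx'top, s, hs⟩ := climb (T := T) (D := F.toDat) (a := a) (h := F.h a)
    (c := ⊥) hba not_Lm_bot (F.bot_mem ⊥) (F.mono ⊥ a bot_le) (k := 1) (V := fun _ _ => ⊤)
    (fun _ _ => F.top_mem ⊥) hp₁.ne (by rw [F.Lg_top]; exact le_top) (m := m) ⟨x, hxm⟩
    (fun y hy => hp₁.mdl y (hsub y hy)) (fun y hy => hp₁.nice y (hsub y hy))
    (fun y hy z hz => hp₁.chain y (hsub y hy) z (hsub z hz))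
    (fun y hy => (hp₁.mdl y (hsub y hy)).bot) (fun y hy => (hp₁.mdl y (hsub y hy)).top 1)
  have hxx : x' = x := by
    rcases hx'top x hxm with h | h
    · exact h.symm
    · have h1 : x' ∈ p₁.m := hsub x' hx'm
      rw [hm, Finset.mem_insert] at h1
      rcases h1 with h1 | h1
      · exact h1
      · exact absurd ((hblw x' h1).lt.trans h.lt) (lt_irrefl _)
  subst hxx
  refine ⟨⟨p₁.b ⊓ ⊤ ⊓ (⨅ y, ⨅ _ : y ∈ m, ⨅ i, y.Y (T.r y.d x'.d (s i))),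
    insert (ν, x'.d, s 0) p₁.w, p₁.m⟩, ⟨?_, hs, hp₁.mdl, ?_, hp₁.chain, ?_⟩, ⟨?_, ?_, ?_⟩,
    x'.d, s 0, hζx'.le, Finset.mem_insert_self _ _⟩
  · refine F.inf_mem (F.inf_mem hp₁.b (F.top_mem a)) ?_
    exact F.iInf_mem fun y => F.iInf_mem fun hy => F.iInf_mem fun i =>
      (hp₁.mdl y (hsub y hy)).Y _
  · intro y hy
    exact Nice_mono (hp₁.nice y hy) (inf_le_left.trans inf_le_left)
  · intro v hv y hy h1 h2
    rcases Finset.mem_insert.1 hv with rfl | hv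
    · refine inf_le_right.trans ?_
      exact (iInf_le _ y).trans ((iInf_le _ (Finset.mem_filter.2 ⟨hy, h1⟩)).trans (iInf_le _ 0))
    · exact (inf_le_left.trans inf_le_left).trans (hp₁.res v hv y hy h1 h2)
  · exact (inf_le_left.trans inf_le_left).trans hle.1
  · exact hle.2.1.trans (Finset.subset_insert _ _)
  · exact hle.2.2

/-- the key computation for almost disjointness -/
theorem Uad {a a' c : O} (ha : Lm a) (hs : Sc a a') (hc : Lm c) (hca : c < a)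
    (hU : ∀ ξ n, F.U c ξ n ∈ F.S a) {p : Cnd O Ω B} (hp : F.PD a p) {x : Side O Ω B}
    (hx : x ∈ p.m) (hcx : c ∈ Set.range x.N) {ν : Ω} (hν : ν < x.d) (n : ℕ) {p' : Cnd O Ω B}
    (hp' : F.PD a p') {v : Ω × Ω × ℕ} (hv : v ∈ p'.w) (hv1 : v.1 = ν) (hv2 : x.d ≤ v.2.1)
    (hvn : T.r x.d v.2.1 v.2.2 = n) : F.j a p ⊓ F.j a p' ⊓ F.U c x.d n = ⊥ := by
  by_contra hne
  obtain ⟨p'', hp'', h1, h2, h3⟩ := F.exists_j_le2 ha hs hp hp'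
    (F.mono a a' hs.1.le (hU x.d n)) hne
  have h4 : p''.b ≤ F.U c x.d n := by
    rw [← F.j_pr a p'' ha hp'']
    exact F.pr_le (hU x.d n) h3
  have h5 : p''.b ≤ x.Y n := by
    have := hp''.res v (h2.2.1 hv) x (h1.2.2 hx) (hv1 ▸ hν) hv2
    rwa [hvn] at this
  have h6 := (hp''.nice x (h1.2.2 hx)).y0 c hcx hc hca n
  apply hp''.ne
  rw [← h6]
  exact le_antisymm (le_inf (le_inf le_rfl h5) h4) (inf_le_left.trans inf_le_left)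

theorem U_unb' (hΩ : IsOm1 Ω) {a a' : O} (ha : Lm a) (hs : Sc a a') (hN : F.NS a) (ξ : Ω) :
    ⨆ n, F.U a ξ n = ⊤ := by
  by_contra hne
  have h0 : (⨆ n, F.U a ξ n)ᶜ ≠ ⊥ := fun h => hne (compl_eq_bot.1 h)
  obtain ⟨p, hp, hle⟩ := F.j_dns a a' ha hs _
    (F.compl_iff.2 (F.iSup_mem fun n => F.ufc_mem ha hs ξ n)) h0
  obtain ⟨p', hp', hle', η, n, hη, hv⟩ := F.exists_node hΩ ha hN hp ⊥ ξ
  have h1 : F.j a p' ≤ (⨆ n, F.U a ξ n)ᶜ := (F.j_mono a p p' ha hp hp' hle').trans hle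
  have h2 : F.j a p' ≤ ⨆ n, F.U a ξ n := by
    refine le_trans ?_ (le_iSup _ (T.r ξ η n))
    rw [F.U_def a ξ _ ha]
    refine le_trans ?_ (le_iSup _ p')
    exact le_iSup (f := fun _ => F.j a p') ⟨hp', (⊥, η, n), hv, rfl, hη, rfl⟩
  apply F.j_ne ha hp'
  rw [← le_bot_iff, ← inf_compl_self (⨆ n, F.U a ξ n)]
  exact le_inf h2 h1

theorem U_ad' (hΩ : IsOm1 Ω) {a a' c : O} (ha : Lm a) (hs : Sc a a') (hN : F.NS a) (hc : Lm c)
    (hca : c < a) (hU : ∀ ξ n, F.U c ξ n ∈ F.S a) :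
    ⨆ ξ, ⨅ n, (F.U c ξ n ⊓ F.U a ξ n)ᶜ = ⊤ := by
  by_contra hne
  have h0 : (⨆ ξ, ⨅ n, (F.U c ξ n ⊓ F.U a ξ n)ᶜ)ᶜ ≠ ⊥ := fun h => hne (compl_eq_bot.1 h)
  have hmem : (⨆ ξ, ⨅ n, (F.U c ξ n ⊓ F.U a ξ n)ᶜ)ᶜ ∈ F.S a' :=
    F.compl_iff.2 (F.iSup_mem fun ξ => F.iInf_mem fun n => F.compl_iff.2
      (F.inf_mem (F.mono a a' hs.1.le (hU ξ n)) (F.ufc_mem ha hs ξ n)))
  obtain ⟨p, hp, hle⟩ := F.j_dns a a' ha hs _ hmem h0
  obtain ⟨p', hp', hle', -, x, hx, -, hcx, hνx, -, -⟩ :=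
    F.exists_add hΩ ha hN hp (hca.trans (F.bd a ha).lt) ⊥
  have h1 : F.j a p' ≤ (⨆ ξ, ⨅ n, (F.U c ξ n ⊓ F.U a ξ n)ᶜ)ᶜ :=
    (F.j_mono a p p' ha hp hp' hle').trans hle
  have h2 : F.j a p' ≤ ⨆ ξ, ⨅ n, (F.U c ξ n ⊓ F.U a ξ n)ᶜ := by
    refine le_trans (le_iInf fun n => ?_)
      (le_iSup (fun ξ => ⨅ n, (F.U c ξ n ⊓ F.U a ξ n)ᶜ) x.d)
    rw [le_compl_iff_disjoint_right, disjoint_iff, ← inf_assoc, F.U_def a x.d n ha, inf_iSup_eq]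
    refine iSup_eq_bot.2 fun p'' => ?_
    rw [inf_iSup_eq]
    refine iSup_eq_bot.2 fun h => ?_
    obtain ⟨hp'', v, hv, hv1, hv2, hvn⟩ := h
    rw [inf_right_comm]
    exact F.Uad ha hs hc hca hU hp' hx hcx hνx n hp'' hv hv1 hv2 hvn
  apply F.j_ne ha hp'
  rw [← le_bot_iff, ← inf_compl_self (⨆ ξ, ⨅ n, (F.U c ξ n ⊓ F.U a ξ n)ᶜ)]
  exact le_inf h2 h1

end Flt

end Pool.Agent.BPF
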