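import Pool.Agent.Lib.MP_11349d_lc.T.Cap1b
import Pool.Agent.Lib.MP_11349d_lc.T.Ufc
import Pool.Agent.Lib.MP_11349d_lc.T.Lrg
import Pool.Agent.Lib.MP_11349d_lc.T.LemD3

/-!
# Cap2: the spare subtree

`F.CN a ν e`: the name of `B^ν ∩ {nodes comparable with an element of level ν in e}`.
PROOFS. `CN_tr`: `ξ ≤ η`; if `n` (level `η`) is comparable with an element of `e` (level `ν`), then so is `T.r ξ η n`; use `r_comp`.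
`CN_ge`: take `ρ`, `v = (ν, d, n)`, `T.r d d n = n`. `CN_ad`: if the supremum is not `⊤` take (`j_dns`, all elements are in
`S a'`) a condition `p` with `j a p` below its complement, `exists_add` with `z = c` (`c < a < h a`) and `ν`: `p'`, `x`,
`c ∈ Set.range x.N`, `ν < x.d`; by `Uad` (distribute the supremum in `CN`) `j a p' ⊓ CN x.d n ⊓ U c x.d n = ⊥` for all `n`, so
`j a p' ≤ ⨅ n, (CN x.d n ⊓ U c x.d n)ᶜ`. Contradiction. `CN_ad'`: let `j a ρ ⊓ CN ν n ⊓ U a ν n ≠ ⊥`. Then there is `p₁` as in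
`CN ν n` and `p₂` as in `U_def` with `j a ρ ⊓ j a p₁ ⊓ j a p₂ ≠ ⊥`. The comparability in `CN ν n` gives `n ∈ e` (both are on level
`ν`). `exists_j_le2` gives `p''` below `ρ`, `p₂`, and `v ∈ p''.w` with `v.1 = ⊥ < ν ≤ v.2.1`, `T.r ν v.2.1 v.2.2 = n`; clause
`res` for `rem x' e` (`(rem x' e).d = ν`): `p''.b ≤ (rem x' e).Y n = ⊥`. Contradiction.
`CN_Perp`: tree part `CN_tr`; almost disjointness from `U c`, `c < a'`, `Lm c`: `c < a` (`CN_ad`) or `c = a` (`CN_ad'`), by `Sc`.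
The unbounded part is a hypothesis.
-/

set_option autoImplicit false

namespace Pool.Agent.BPF

open Cardinal Pool.Agent.CSI

namespace Flt

variable {O Ω B : Type} [LinearOrder O] [WellFoundedLT O] [LinearOrder Ω] [WellFoundedLT Ω]
    [OrderBot O] [OrderBot Ω] [CompleteBooleanAlgebra B] {T : LTree Ω}
    (F : Flt (O := O) (B := B) T)

/-- the spare subtree -/
noncomputable def CN (a : O) (ν : Ω) (e : Finset ℕ) (ξ : Ω) (n : ℕ) : B :=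
  ⨆ p, ⨆ _ : F.PD a p ∧ (∃ v ∈ p.w, v.1 = ν ∧ ξ ≤ v.2.1 ∧ T.r ξ v.2.1 v.2.2 = n) ∧
    ((ξ ≤ ν ∧ ∃ m ∈ e, T.r ξ ν m = n) ∨ (ν ≤ ξ ∧ T.r ν ξ n ∈ e)), F.j a p

variable {a a' : O} (ha : Lm a) (hs : Sc a a')

include ha hs in
theorem CN_mem (ν : Ω) (e : Finset ℕ) (ξ : Ω) (n : ℕ) : F.CN a ν e ξ n ∈ F.S a' := by
  exact F.iSup_mem fun p => F.iSup_mem fun hp => F.j_mem a a' p ha hs hp.1

theorem CN_tr (ν : Ω) (e : Finset ℕ) {ξ η : Ω} (h : ξ ≤ η) (n : ℕ) :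
    F.CN a ν e η n ≤ F.CN a ν e ξ (T.r ξ η n) := by
  unfold CN
  refine iSup_mono fun p => iSup_le fun hp => ?_
  obtain ⟨hp1, ⟨v, hv, hv1, hv2, hvn⟩, hc⟩ := hp
  refine le_iSup_of_le ⟨hp1, ⟨v, hv, hv1, h.trans hv2, ?_⟩, ?_⟩ le_rfl
  · rw [← hvn, T.r_comp _ _ _ _ h hv2]
  · rcases hc with ⟨hη, m, hm, hmn⟩ | ⟨hν, hne⟩
    · exact Or.inl ⟨h.trans hη, m, hm, by rw [← hmn, T.r_comp _ _ _ _ h hη]⟩
    · rcases le_total ξ ν with h1 | h1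
      · exact Or.inl ⟨h1, _, hne, T.r_comp _ _ _ _ h1 hν⟩
      · exact Or.inr ⟨h1, by rw [T.r_comp _ _ _ _ h1 h]; exact hne⟩

theorem CN_ge {ν d : Ω} (hνd : ν ≤ d) {e : Finset ℕ} {n : ℕ} (hn : T.r ν d n ∈ e)
    {ρ : Cnd O Ω B} (hρ : F.PD a ρ) (hv : (ν, d, n) ∈ ρ.w) : F.j a ρ ≤ F.CN a ν e d n := by
  exact le_iSup₂_of_le (f := fun p (_ : F.PD a p ∧
      (∃ v ∈ p.w, v.1 = ν ∧ d ≤ v.2.1 ∧ T.r d v.2.1 v.2.2 = n) ∧
      ((d ≤ ν ∧ ∃ m ∈ e, T.r d ν m = n) ∨ (ν ≤ d ∧ T.r ν d n ∈ e))) => F.j a p) ρ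
    ⟨hρ, ⟨(ν, d, n), hv, rfl, le_rfl, T.r_self d n⟩, Or.inr ⟨hνd, hn⟩⟩ le_rfl

include ha hs in
theorem CN_ad (hΩ : IsOm1 Ω) (hN : F.NS a) (ν : Ω) (e : Finset ℕ) {c : O} (hc : Lm c)
    (hca : c < a) (hU : ∀ ξ n, F.U c ξ n ∈ F.S a) :
    ⨆ ξ, ⨅ n, (F.CN a ν e ξ n ⊓ F.U c ξ n)ᶜ = ⊤ := by
  by_contra hne
  have hmem : (⨆ ξ, ⨅ n, (F.CN a ν e ξ n ⊓ F.U c ξ n)ᶜ)ᶜ ∈ F.S a' :=
    F.compl_iff.2 (F.iSup_mem fun ξ => F.iInf_mem fun n => F.compl_iff.2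
      (F.inf_mem (F.CN_mem ha hs ν e ξ n) (F.mono a a' hs.1.le (hU ξ n))))
  obtain ⟨p, hp, hpj⟩ := F.j_dns a a' ha hs _ hmem fun h => hne (compl_eq_bot.1 h)
  obtain ⟨p', hp', hle, -, x, hx, -, hcx, hνx, -, -⟩ :=
    F.exists_add hΩ ha hN hp (hca.trans (F.bd a ha).lt) ν
  apply F.j_ne ha hp'
  rw [← le_bot_iff, ← inf_compl_eq_bot (a := ⨆ ξ, ⨅ n, (F.CN a ν e ξ n ⊓ F.U c ξ n)ᶜ)]
  refine le_inf (le_iSup_of_le x.d (le_iInf fun n => ?_))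
    ((F.j_mono a p p' ha hp hp' hle).trans hpj)
  rw [le_compl_iff_disjoint_right, disjoint_iff_inf_le, CN, iSup_inf_eq, inf_iSup_eq]
  refine iSup_le fun p₁ => ?_
  rw [iSup_inf_eq, inf_iSup_eq]
  refine iSup_le fun h₁ => ?_
  obtain ⟨hp₁, ⟨v, hv, hv1, hv2, hvn⟩, -⟩ := h₁
  rw [← inf_assoc]
  exact (F.Uad ha hs hc hca hU hp' hx hcx hνx n hp₁ hv hv1 hv2 hvn).le

include ha hs in
theorem CN_ad' {e : Finset ℕ} {ρ : Cnd O Ω B} (hρ : F.PD a ρ) {x' : Side O Ω B}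
    (hx : rem x' e ∈ ρ.m) (h0 : ⊥ < x'.d) :
    F.j a ρ ≤ ⨅ n, (F.CN a x'.d e x'.d n ⊓ F.U a x'.d n)ᶜ := by
  refine le_iInf fun n => ?_
  rw [le_compl_iff_disjoint_right, disjoint_iff_inf_le, CN, iSup_inf_eq, inf_iSup_eq]
  refine iSup_le fun p₁ => ?_
  rw [iSup_inf_eq, inf_iSup_eq]
  refine iSup_le fun h₁ => ?_
  have hn : n ∈ e := by
    rcases h₁.2.2 with ⟨-, m, hm, hmn⟩ | ⟨-, hn⟩
    · rw [T.r_self] at hmn
      rwa [← hmn]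
    · rwa [T.r_self] at hn
  rw [F.U_def a _ _ ha, inf_iSup_eq, inf_iSup_eq]
  refine iSup_le fun p₂ => ?_
  rw [inf_iSup_eq, inf_iSup_eq]
  refine iSup_le fun h₂ => ?_
  obtain ⟨hp₂, v, hv, hv1, hv2, hvn⟩ := h₂
  by_contra hne
  rw [le_bot_iff] at hne
  have hne' : F.j a ρ ⊓ F.j a p₂ ⊓ ⊤ ≠ ⊥ := by
    rw [inf_top_eq]
    intro h0
    apply hne
    rw [← le_bot_iff, ← h0]
    exact le_inf inf_le_left (inf_le_right.trans inf_le_right)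
  obtain ⟨p₃, hp₃, hle, hle', -⟩ := F.exists_j_le2 ha hs hρ hp₂ (F.top_mem a') hne'
  have h3 := hp₃.res v (hle'.2.1 hv) _ (hle.2.2 hx) (by rw [hv1]; exact h0) hv2
  have h4 : (rem x' e).Y (T.r (rem x' e).d v.2.1 v.2.2) = ⊥ := by
    show (if T.r x'.d v.2.1 v.2.2 ∈ e then ⊥ else x'.Y _) = ⊥
    rw [hvn, if_pos hn]
  rw [h4, le_bot_iff] at h3
  exact hp₃.ne h3

include ha hs in
theorem CN_Perp (hΩ : IsOm1 Ω) (hN : F.NS a) (hU : ∀ c, Lm c → c < a → ∀ ξ n, F.U c ξ n ∈ F.S a)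
    {e : Finset ℕ} {ρ : Cnd O Ω B} (hρ : F.PD a ρ) {x' : Side O Ω B} (hx : rem x' e ∈ ρ.m)
    (h0 : ⊥ < x'.d) {r : B} (hr : r ≤ F.j a ρ) (hb : r ≤ ⨅ ξ, ⨆ n, F.CN a x'.d e ξ n) :
    r ≤ Perp T F.toDat a' (F.CN a x'.d e) := by
  refine le_inf (le_inf hb ?_) ?_
  · refine le_iInf fun ξ => le_iInf fun η => le_iInf fun h => le_iInf fun n => ?_
    rw [le_himp_iff]
    exact inf_le_right.trans (F.CN_tr _ _ h n)
  · refine le_iInf fun c => le_iInf fun hc => ?_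
    have hca : c ≤ a := by
      by_contra h
      exact absurd (hs.2 c (not_le.1 h)) (not_le.2 hc.2)
    rcases lt_or_eq_of_le hca with hca | rfl
    · rw [F.CN_ad ha hs hΩ hN _ _ hc.1 hca (hU c hc.1 hca)]
      exact le_top
    · exact (hr.trans (F.CN_ad' ha hs hρ hx h0)).trans
        (le_iSup (fun ξ => ⨅ n, (F.CN c x'.d e ξ n ⊓ F.U c ξ n)ᶜ) x'.d)

end Flt

end Pool.Agent.BPF
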