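import Pool.Agent.Lib.MP_11349d_lc.T.Pers

/-!
# Prs2: persistence of large trees, the proof

`persist'`: Suppose `b = Lg T F.toDat a W ⊓ (⨆ V (InS c V), Lg c V ⊓ Sb V W)ᶜ ≠ ⊥`. `b ∈ S c` (`Perp_mem`,
`Prn_mem`, `Lg_mem`, `Sb_mem`), `Lg a W ∈ S a`. `exists_of_ev` for the conjunction of `hDa`, `hI`, `ev_exd`, `ev_lg` and the
clubs below gives `M` containing the codes of `b`, `pr a b`, `W`, `tcl T W`, and `d`. (1) `hDa` for `pr a b`: a generic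
`r₀ ∈ S a`, `⊥ ≠ r₀ ≤ pr a b ≤ Lg a W` (`pr_le`). (2) By `ev_iSup` for the family
`f C = if ∀ ξ n, C ξ n ∈ S a then Perp a C ⊓ SbP W C else ⊥` (code `ct`; the club depends on the fixed
`a`, `W`) there is `C` in `S a` with `ct C ∈ M`, `r₁ = r₀ ⊓ Perp a C ⊓ SbP W C ≠ ⊥`. (3) `r₁ ≤ ⨆ s, W d s` (`Prn_ne`): choose
`s` with `r₂ = r₁ ⊓ W d s ≠ ⊥`; `r₂ ≤ ⨅ i, C d (s i)`, so `r₂ ≤ Cap a M d (tup s)`. (4) `IHM a c M` for `p = b`, `q = r₂`,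
`y = tup s` (`r₂ ≤ pr a b`): `r₃ ∈ S c`, `r₃ ≠ ⊥`, `r₃ ≤ b`, `r₃ ≤ r₂`, `Gen c M r₃`, `r₃ ≤ Cap c M d (tup s)`; choose `C'` in `S c`,
`ct C' ∈ M`, `r₄ = r₃ ⊓ Perp c C' ⊓ ⨅ n ∈ tup s, C' d n ≠ ⊥`. (5) `r₄ ≤ Prn T W ⊓ W d s`, so
`r₄ ≤ tcl T W ζ (T.res ζ d s)` for `ζ < d`. `ev_lg` at stage `c` for `tcl T W` and `C'`:
`r₄ ≤ ⨆ V (InS c V), Lg c V ⊓ Sb V (tcl T W) ≤ ⨆ V, Lg c V ⊓ Sb V W`; but `r₄ ≤ b`. Contradiction.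
-/

set_option autoImplicit false

namespace Pool.Agent.BPF

open Cardinal Pool.Agent.CSI

namespace Flt

variable {O Ω B : Type} [LinearOrder O] [WellFoundedLT O] [LinearOrder Ω] [WellFoundedLT Ω]
    [OrderBot O] [OrderBot Ω] [CompleteBooleanAlgebra B] {T : LTree Ω}
    (F : Flt (O := O) (B := B) T)

theorem persist' (hΩ : IsOm1 Ω) {a c : O} (hac : a < c) (ha : ¬ Lm a) (hc : ¬ Lm c) (hDa : F.Dg a)
    (hI : F.IH a c) {k : ℕ} {W : Nm Ω B k} (hW : InS F.toDat a W) :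
    Lg T F.toDat a W ≤ ⨆ V : Nm Ω B k, ⨆ _ : InS F.toDat c V, Lg T F.toDat c V ⊓ Sb V W := by
  obtain ⟨R, hR⟩ : ∃ R, R = ⨆ V : Nm Ω B k, ⨆ _ : InS F.toDat c V, Lg T F.toDat c V ⊓ Sb V W :=
    ⟨_, rfl⟩
  rw [← hR]
  by_contra hcon
  obtain ⟨b, hb⟩ : ∃ b, b = Lg T F.toDat a W ⊓ Rᶜ := ⟨_, rfl⟩
  have hbne : b ≠ ⊥ := by
    intro h
    apply hcon
    rw [hb, ← disjoint_iff, ← le_compl_iff_disjoint_right, compl_compl] at h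
    exact h
  have hWc : InS F.toDat c W := fun ξ s => F.mono a c hac.le (hW ξ s)
  have hRS : R ∈ F.S c := by
    rw [hR]
    refine F.iSup_mem fun V => F.iSup_mem fun hV => ?_
    exact F.inf_mem (F.Lg_mem hV) (F.Sb_mem hV hWc)
  have hbS : b ∈ F.S c := by
    rw [hb]
    exact F.inf_mem (F.mono a c hac.le (F.Lg_mem hW)) (F.compl_mem c R hRS)
  have hbL : b ≤ Lg T F.toDat a W := by
    rw [hb]
    exact inf_le_left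
  have hbR : b ≤ Rᶜ := by
    rw [hb]
    exact inf_le_right
  obtain ⟨f, hf⟩ : ∃ f : (Ω → ℕ → B) → B, f = fun C => ⨆ _ : ∀ ξ n, C ξ n ∈ F.S a,
      Perp T F.toDat a C ⊓ SbP W C := ⟨_, rfl⟩
  have hfS : ∀ C, f C ∈ F.S a := by
    intro C
    rw [hf]
    exact F.iSup_mem fun h => F.inf_mem (F.Perp_mem h) (F.SbP_mem hW h)
  have hLgf : Lg T F.toDat a W ≤ ⨆ C, f C := by
    rw [hf]
    exact inf_le_right
  have hLgP : Lg T F.toDat a W ≤ Prn T W := inf_le_left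
  have hprne : F.pr a b ≠ ⊥ := fun h => hbne (F.pr_eq_bot.1 h)
  have hprL : F.pr a b ≤ Lg T F.toDat a W := F.pr_le (F.Lg_mem hW) hbL
  have hev : ∀ᶠ M in clubF O,
      (∀ p ∈ F.S a, F.cb p ∈ M → p ≠ ⊥ → ∃ r ∈ F.S a, r ≠ ⊥ ∧ r ≤ p ∧ F.Gen a M r) ∧
      F.IHM a c M ∧ (∃ d, F.Dl M d) ∧
      (∀ d, F.Dl M d → ∀ (k : ℕ) (W : Nm Ω B k),
        F.n k W ∈ M → Tr T W → ∀ C, F.ct C ∈ M → ∀ a, InS F.toDat a W →
        (∀ ξ n, C ξ n ∈ F.S a) → ∀ q, F.Gen a M q → ∀ t,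
          q ⊓ (⨅ ζ, ⨅ _ : ζ < d, W ζ (T.res ζ d t)) ⊓ Perp T F.toDat a C ⊓ (⨅ i, C d (t i)) ≤
            ⨆ V : Nm Ω B k, ⨆ _ : F.n k V ∈ M ∧ InS F.toDat a V, Lg T F.toDat a V ⊓ Sb V W) ∧
      (∀ q, F.Gen a M q → q ⊓ ⨆ x, f x ≤ ⨆ x, ⨆ _ : F.ct x ∈ M, f x) ∧
      F.cb b ∈ M ∧ F.cb (F.pr a b) ∈ M ∧ F.n k (tcl T W) ∈ M := by
    filter_upwards [hDa, hI, F.ev_exd hΩ, F.ev_lg, F.ev_iSup F.ct f, ev_mem (F.cb b),
      ev_mem (F.cb (F.pr a b)), ev_mem (F.n k (tcl T W))] with M h1 h2 h3 h4 h5 h6 h7 h8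
    exact ⟨h1, h2, h3, h4, h5 a hfS, h6, h7, h8⟩
  obtain ⟨M, -, -, hM1, hM2, ⟨d, hd⟩, hM4, hM5, hM6, hM7, hM8⟩ :=
    exists_of_ev hev Set.countable_empty
  obtain ⟨r0, hr0S, hr0ne, hr0le, hr0G⟩ := hM1 _ (F.pr_mem a b) hM7 hprne
  have hr0L : r0 ≤ Lg T F.toDat a W := hr0le.trans hprL
  have hr0f : r0 ≤ ⨆ C, ⨆ _ : F.ct C ∈ M, f C := by
    refine le_trans ?_ (hM5 r0 hr0G)
    exact le_inf le_rfl (hr0L.trans hLgf)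
  obtain ⟨C, hCM, hC1⟩ := ne_of_iSup hr0ne hr0f
  have hCS : ∀ ξ n, C ξ n ∈ F.S a := by
    by_contra h
    apply hC1
    rw [hf]
    simp only [iSup_neg h, inf_bot_eq]
  have hfC : f C = Perp T F.toDat a C ⊓ SbP W C := by
    rw [hf]
    simp only [iSup_pos hCS]
  rw [hfC] at hC1
  obtain ⟨r1, hr1⟩ : ∃ r1, r1 = r0 ⊓ (Perp T F.toDat a C ⊓ SbP W C) := ⟨_, rfl⟩
  rw [← hr1] at hC1
  have hr10 : r1 ≤ r0 := by
    rw [hr1]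
    exact inf_le_left
  have hr1P : r1 ≤ Perp T F.toDat a C := by
    rw [hr1]
    exact inf_le_right.trans inf_le_left
  have hr1S : r1 ≤ SbP W C := by
    rw [hr1]
    exact inf_le_right.trans inf_le_right
  have hr1m : r1 ∈ F.S a := by
    rw [hr1]
    exact F.inf_mem hr0S (F.inf_mem (F.Perp_mem hCS) (F.SbP_mem hW hCS))
  have hr1W : r1 ≤ ⨆ s, W d s := ((hr10.trans hr0L).trans hLgP).trans (Prn_ne T W d)
  obtain ⟨s, hs⟩ := ne_of_iSup' hC1 hr1W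
  have hr2m : r1 ⊓ W d s ∈ F.S a := F.inf_mem hr1m (hW d s)
  have hr2C : r1 ⊓ W d s ≤ ⨅ i, C d (s i) := by
    have h1 : SbP W C ≤ W d s ⇨ ⨅ i, C d (s i) := (iInf_le _ d).trans (iInf_le _ s)
    exact le_himp_iff.1 (hr1S.trans h1)
  have hr2Cap : r1 ⊓ W d s ≤ F.Cap a M d (tup s) := by
    refine le_iSup₂_of_le (f := fun (C : Ω → ℕ → B) (_ : F.ct C ∈ M ∧ ∀ ξ n, C ξ n ∈ F.S a) =>
      Perp T F.toDat a C ⊓ ⨅ n ∈ tup s, C d n) C ⟨hCM, hCS⟩ ?_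
    refine le_inf (inf_le_left.trans hr1P) (le_iInf₂ fun n hn => ?_)
    obtain ⟨i, -, rfl⟩ := Finset.mem_image.1 hn
    exact hr2C.trans (iInf_le _ i)
  obtain ⟨r3, hr3S, hr3ne, hr3b, hr3r, hr3G, hr3C⟩ := (hM2 d hd b hbS hM6 (tup s) (r1 ⊓ W d s) hr2m hs
    ((inf_le_left.trans hr10).trans hr0le) (F.gen_mono (inf_le_left.trans hr10) hr0G) hr2Cap).1 hc
  obtain ⟨C', ⟨hC'M, hC'S⟩, hC'1⟩ := ne_of_iSup hr3ne hr3C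
  apply hC'1
  rw [← le_bot_iff]
  have hr3P : r3 ≤ Prn T W ⊓ W d s :=
    le_inf ((hr3b.trans hbL).trans hLgP) (hr3r.trans inf_le_right)
  have h1 := hM4 d hd k (tcl T W) hM8 (tcl_Tr T W) C' hC'M c (F.tcl_InS hWc) hC'S r3 hr3G s
  have h2 : r3 ⊓ (Perp T F.toDat c C' ⊓ ⨅ n ∈ tup s, C' d n) ≤
      r3 ⊓ (⨅ ζ, ⨅ _ : ζ < d, tcl T W ζ (T.res ζ d s)) ⊓ Perp T F.toDat c C' ⊓
        (⨅ i, C' d (s i)) := by
    refine le_inf (le_inf (le_inf inf_le_left ?_) (inf_le_right.trans inf_le_left)) ?_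
    · refine inf_le_left.trans (le_iInf₂ fun ζ hζ => ?_)
      exact hr3P.trans (le_tcl T W hζ.le s)
    · refine le_iInf fun i => ?_
      refine (inf_le_right.trans inf_le_right).trans ?_
      exact iInf₂_le (s i) (Finset.mem_image_of_mem s (Finset.mem_univ i))
  have h3 : (⨆ V : Nm Ω B k, ⨆ _ : F.n k V ∈ M ∧ InS F.toDat c V,
      Lg T F.toDat c V ⊓ Sb V (tcl T W)) ≤ R := by
    rw [hR]
    refine iSup₂_le fun V hV => ?_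
    refine le_iSup₂_of_le V hV.2 (inf_le_inf_left _ ?_)
    have h4 := Sb_trans V (tcl T W) W
    rwa [Sb_top (tcl_le T W), inf_top_eq] at h4
  have h5 : r3 ⊓ (Perp T F.toDat c C' ⊓ ⨅ n ∈ tup s, C' d n) ≤ R := h2.trans (h1.trans h3)
  have h6 : r3 ⊓ (Perp T F.toDat c C' ⊓ ⨅ n ∈ tup s, C' d n) ≤ Rᶜ :=
    inf_le_left.trans (hr3b.trans hbR)
  exact (le_inf h5 h6).trans inf_compl_eq_bot.le

end Flt

end Pool.Agent.BPF
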