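import Pool.Agent.Lib.MP_11349d_lc.T.Tsk2

/-!
# Tsk3: task 2

`ev_Tk2`: let `q' = q ⊓ Lg a' W ⊓ Cap a M d y₀`. By `hp` and `ev_iSup` for the family
`f V = if InS a V then Lg a V ⊓ Sb V W else ⊥` (the club depends on `a` and `W`; normality, `a ∈ M`) `q'` is below the
supremum of `Lg a V ⊓ Sb V W` over `V` in `S a` with code in `M`; by `ev_iSup` for `f C = Perp a C ⊓ SbP V C` also over
`C` in `S a` with `ct C ∈ M` (normality in `V`). By `ev_lemA` for `V`, `q ⊓ Prn T V ≤ ⨆ y (∀ i, y i ∉ e), V d y`, and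
`V d y ⊓ Sb V W ≤ W d y`, `V d y ⊓ SbP V C ≤ ⨅ i, C d (y i)`, so `Perp a C ⊓ ... ≤ Cap a M d (tup y)`; then `Cap_union`.
-/

set_option autoImplicit false

namespace Pool.Agent.BPF

open Cardinal Pool.Agent.CSI

namespace Flt

variable {O Ω B : Type} [LinearOrder O] [WellFoundedLT O] [LinearOrder Ω] [WellFoundedLT Ω]
    [OrderBot O] [OrderBot Ω] [CompleteBooleanAlgebra B] {T : LTree Ω}
    (F : Flt (O := O) (B := B) T)

open Classical in
private noncomputable def t3f (a : O) {k : ℕ} (W V : Nm Ω B k) : B :=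
  if InS F.toDat a V then Lg T F.toDat a V ⊓ Sb V W else ⊥

open Classical in
private noncomputable def t3g (a : O) {k : ℕ} (V : Nm Ω B k) (C : Ω → ℕ → B) : B :=
  if (∀ ξ n, C ξ n ∈ F.S a) then Perp T F.toDat a C ⊓ SbP V C else ⊥

private theorem t3f_mem {a : O} {k : ℕ} {W : Nm Ω B k} (hW : InS F.toDat a W) (V : Nm Ω B k) :
    F.t3f a W V ∈ F.S a := by
  unfold t3f
  split_ifs with h
  · exact F.inf_mem (F.Lg_mem h) (F.Sb_mem h hW)
  · exact F.bot_mem a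

private theorem t3g_mem {a : O} {k : ℕ} {V : Nm Ω B k} (hV : InS F.toDat a V)
    (C : Ω → ℕ → B) : F.t3g a V C ∈ F.S a := by
  unfold t3g
  split_ifs with h
  · exact F.inf_mem (F.Perp_mem h) (F.SbP_mem hV h)
  · exact F.bot_mem a

private theorem t3_evf : ∀ᶠ M in clubF O, ∀ a ∈ M, ∀ (k : ℕ) (W : Nm Ω B k), F.n k W ∈ M →
    ∀ a', (∀ V, F.t3f a W V ∈ F.S a') → ∀ q, F.Gen a' M q →
      q ⊓ ⨆ V, F.t3f a W V ≤ ⨆ V, ⨆ _ : F.n k V ∈ M, F.t3f a W V := by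
  refine ev_normal fun a => ?_
  rw [eventually_countable_forall]
  intro k
  have h := ev_normalOn (K := O) (A := Set.univ) (c := F.n k) (F.n_inj k).injOn
    (Φ := fun W M => ∀ a', (∀ V, F.t3f a W V ∈ F.S a') → ∀ q, F.Gen a' M q →
      q ⊓ ⨆ V, F.t3f a W V ≤ ⨆ V, ⨆ _ : F.n k V ∈ M, F.t3f a W V)
    (fun W _ => F.ev_iSup (F.n k) (F.t3f a W))
  filter_upwards [h] with M hM W hW
  exact hM W trivial hW

private theorem t3_evg : ∀ᶠ M in clubF O, ∀ a ∈ M, ∀ (k : ℕ) (V : Nm Ω B k), F.n k V ∈ M →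
    ∀ a', (∀ C, F.t3g a V C ∈ F.S a') → ∀ q, F.Gen a' M q →
      q ⊓ ⨆ C, F.t3g a V C ≤ ⨆ C, ⨆ _ : F.ct C ∈ M, F.t3g a V C := by
  refine ev_normal fun a => ?_
  rw [eventually_countable_forall]
  intro k
  have h := ev_normalOn (K := O) (A := Set.univ) (c := F.n k) (F.n_inj k).injOn
    (Φ := fun V M => ∀ a', (∀ C, F.t3g a V C ∈ F.S a') → ∀ q, F.Gen a' M q →
      q ⊓ ⨆ C, F.t3g a V C ≤ ⨆ C, ⨆ _ : F.ct C ∈ M, F.t3g a V C)
    (fun V _ => F.ev_iSup F.ct (F.t3g a V))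
  filter_upwards [h] with M hM V hV
  exact hM V trivial hV

/-- splitting along a supremum -/
private theorem t3_split {X : Type} {P : X → Prop} {f : X → B} {q R : B}
    (h : q ≤ ⨆ x, ⨆ _ : P x, f x) (h' : ∀ x, P x → q ⊓ f x ≤ R) : q ≤ R := by
  refine (le_inf le_rfl h).trans ?_
  rw [inf_iSup_eq]
  refine iSup_le fun x => ?_
  rw [inf_iSup_eq]
  exact iSup_le fun hx => h' x hx

theorem ev_Tk2 (hΩ : IsOm1 Ω) : ∀ᶠ M in clubF O, ∀ d, F.Dl M d → ∀ a ∈ M, ∀ a' ≤ a,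
    ∀ (k : ℕ) (W : Nm Ω B k), F.n k W ∈ M → InS F.toDat a' W →
    (Lg T F.toDat a' W ≤ ⨆ V : Nm Ω B k, ⨆ _ : InS F.toDat a V, Lg T F.toDat a V ⊓ Sb V W) →
    ∀ q, F.Gen a M q → ∀ (e y₀ : Finset ℕ), q ⊓ Lg T F.toDat a' W ⊓ F.Cap a M d y₀ ≤
      ⨆ y : Fin k → ℕ, ⨆ _ : ∀ i, y i ∉ e, W d y ⊓ F.Cap a M d (y₀ ∪ tup y) := by
  filter_upwards [F.t3_evf, F.t3_evg, F.ev_lemA hΩ, F.ev_Cap_union] with M hf hg hA hU
  intro d hd a haM a' haa k W hWM hWS hp q hq e y₀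
  have hWa : InS F.toDat a W := fun ξ s => F.mono a' a haa (hWS ξ s)
  -- step 1: choose `V`
  have hq' : F.Gen a M (q ⊓ Lg T F.toDat a' W ⊓ F.Cap a M d y₀) :=
    F.gen_mono (inf_le_left.trans inf_le_left) hq
  have h1 : q ⊓ Lg T F.toDat a' W ⊓ F.Cap a M d y₀ ≤ ⨆ V, F.t3f a W V := by
    refine (inf_le_left.trans inf_le_right).trans (hp.trans ?_)
    refine iSup_mono fun V => iSup_le fun hV => ?_
    unfold t3f
    rw [if_pos hV]
  have h2 : q ⊓ Lg T F.toDat a' W ⊓ F.Cap a M d y₀ ≤ ⨆ V, ⨆ _ : F.n k V ∈ M, F.t3f a W V :=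
    (le_inf le_rfl h1).trans (hf a haM k W hWM a (F.t3f_mem hWa) _ hq')
  refine t3_split h2 fun V hVM => ?_
  unfold t3f
  split_ifs with hVS
  swap
  · rw [inf_bot_eq]; exact bot_le
  -- step 2: choose `C`
  set q₂ := q ⊓ Lg T F.toDat a' W ⊓ F.Cap a M d y₀ ⊓ (Lg T F.toDat a V ⊓ Sb V W) with hq₂
  have hq₂' : F.Gen a M q₂ := F.gen_mono inf_le_left hq'
  have h3 : q₂ ≤ ⨆ C, F.t3g a V C := by
    have h4 : q₂ ≤ Lg T F.toDat a V := inf_le_right.trans inf_le_left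
    refine h4.trans (inf_le_right.trans ?_)
    refine iSup_mono fun C => iSup_le fun hC => ?_
    unfold t3g
    rw [if_pos hC]
  have h4 : q₂ ≤ ⨆ C, ⨆ _ : F.ct C ∈ M, F.t3g a V C :=
    (le_inf le_rfl h3).trans (hg a haM k V hVM a (F.t3g_mem hVS) _ hq₂')
  refine t3_split h4 fun C hCM => ?_
  unfold t3g
  split_ifs with hCS
  swap
  · rw [inf_bot_eq]; exact bot_le
  -- step 3: choose `y`
  set q₃ := q₂ ⊓ (Perp T F.toDat a C ⊓ SbP V C) with hq₃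
  have hq₃' : F.Gen a M q₃ := F.gen_mono inf_le_left hq₂'
  have h5 : q₃ ≤ Prn T V := by
    refine inf_le_left.trans (inf_le_right.trans (inf_le_left.trans ?_))
    exact inf_le_left
  have h6 : q₃ ≤ ⨆ y : Fin k → ℕ, ⨆ _ : ∀ i, y i ∉ e, V d y :=
    (le_inf le_rfl h5).trans (hA d hd k V hVM a hVS q₃ hq₃' e)
  refine t3_split h6 fun y hy => ?_
  refine le_iSup₂_of_le y hy ?_
  have h7 : q₃ ⊓ V d y ≤ W d y := by
    have h8 : q₃ ≤ Sb V W := inf_le_left.trans (inf_le_right.trans inf_le_right)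
    have h9 : Sb V W ≤ V d y ⇨ W d y := (iInf_le _ d).trans (iInf_le _ y)
    exact (inf_le_inf_right _ (h8.trans h9)).trans himp_inf_le
  have h10 : q₃ ⊓ V d y ≤ F.Cap a M d (tup y) := by
    unfold Cap
    refine le_iSup₂_of_le C ⟨hCM, hCS⟩ (le_inf ?_ ?_)
    · exact inf_le_left.trans (inf_le_right.trans inf_le_left)
    · have h8 : q₃ ≤ SbP V C := inf_le_right.trans inf_le_right
      have h9 : SbP V C ≤ V d y ⇨ ⨅ i, C d (y i) := (iInf_le _ d).trans (iInf_le _ y)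
      have h11 : q₃ ⊓ V d y ≤ ⨅ i, C d (y i) :=
        (inf_le_inf_right _ (h8.trans h9)).trans himp_inf_le
      refine le_iInf₂ fun n hn => ?_
      obtain ⟨i, -, rfl⟩ := Finset.mem_image.1 hn
      exact h11.trans (iInf_le _ i)
  have h12 : q₃ ⊓ V d y ≤ F.Cap a M d y₀ :=
    inf_le_left.trans (inf_le_left.trans (inf_le_left.trans inf_le_right))
  exact le_inf h7 ((le_inf h12 h10).trans (hU a d y₀ (tup y)))

end Flt

end Pool.Agent.BPF
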