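import Pool.Agent.Lib.MP_11349d_lc.T.Cap2
import Pool.Agent.Lib.MP_11349d_lc.T.Tsk3
import Pool.Agent.Lib.MP_11349d_lc.T.Prs2

/-!
# Cap3: the capture step

PROOF of `ev_capt`. First make `y` nonempty: `y2` for `x`, `c = ⊥` (`IsMdl.bot`, `ev_mdl`), `k = 1`, `V = ⊤` (`Lg_top`) gives
`n₀` with `q ⊓ x.Y n₀ ≠ ⊥` (an element of `S a`, generic, nice); it is enough to treat `y' = insert n₀ y` and
`q' = q ⊓ x.Y n₀` (`Cap_mono`). So let `y` be nonempty. `ev_cap1` gives `x'`, `ρ`; put `e = y.image (T.r x'.d d)`, `ν = x'.d`,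
`r = j a ρ`. `r ∈ S a'` (`j_mem`), `r ≠ ⊥` (`j_ne`), `r ≤ p`, `r ≤ ρ.b ≤ q`, `Gen a' M r` (`ev_lemD`; `ρ.b` is generic). `r ≤ CN a ν e d n`
for `n ∈ y` (`CN_ge`). `F.ct (CN a ν e) ∈ M`: `F.s x' ∈ M`, so `F.o ν ∈ M` (`ev_side`); normality in `ν` (`F.o`), `ev_all` for `e`.
`r ≤ ⨅ ξ, ⨆ n, CN ξ n`: `ev_unb'` for `A ξ = ⨆ n, CN a ν e ξ n` (normality in `ν`, all `e`), `ζ = d`, `r ≤ A d` because `y` is
nonempty; `A` is antitone (`CN_tr`), so `⨅ ξ, ⨆ ζ ≥ ξ, A ζ = ⨅ ξ, A ξ`. By `CN_Perp` (`U_mem`), `r ≤ Perp a' (CN a ν e)`, hence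
`r ≤ Cap a' M d y`.
-/

set_option autoImplicit false

namespace Pool.Agent.BPF

open Cardinal Pool.Agent.CSI

namespace Flt

variable {O Ω B : Type} [LinearOrder O] [WellFoundedLT O] [LinearOrder Ω] [WellFoundedLT Ω]
    [OrderBot O] [OrderBot Ω] [CompleteBooleanAlgebra B] {T : LTree Ω}
    (F : Flt (O := O) (B := B) T)

/-- the **capture step** -/
theorem ev_capt (hΩ : IsOm1 Ω) {a a' : O} (ha : Lm a) (hs : Sc a a') (hN : F.NS a) :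
    ∀ᶠ M in clubF O, ∀ d, F.Dl M d → ∀ x, F.IsSide a M x → ∀ q ∈ F.S a, q ≠ ⊥ → F.Gen a M q →
      Nice T F.toDat a x q → ∀ y : Finset ℕ, (∀ n ∈ y, q ≤ x.Y n) → ∀ p ∈ F.S a', F.cb p ∈ M →
      q ≤ F.pr a p → ∃ r ∈ F.S a', r ≠ ⊥ ∧ r ≤ p ∧ r ≤ q ∧ F.Gen a' M r ∧ r ≤ F.Cap a' M d y := by
  classical
  have hct : ∀ᶠ M in clubF O, ∀ ν, F.o ν ∈ M → ∀ e : Finset ℕ, F.ct (F.CN a ν e) ∈ M :=
    ev_nrm F.o_inj fun ν => ev_all fun e => ev_mem _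
  have hunb : ∀ᶠ M in clubF O, ∀ ν, F.o ν ∈ M → ∀ e : Finset ℕ, ∀ d, F.Dl M d → ∀ a₁,
      (∀ ξ, (⨆ n, F.CN a ν e ξ n) ∈ F.S a₁) → ∀ q, F.Gen a₁ M q → ∀ ζ, d ≤ ζ →
        q ⊓ (⨆ n, F.CN a ν e ζ n) ≤ ⨅ ξ, ⨆ ζ, ⨆ _ : ξ ≤ ζ, ⨆ n, F.CN a ν e ζ n :=
    ev_nrm F.o_inj fun ν => ev_all fun e => F.ev_unb' fun ξ => ⨆ n, F.CN a ν e ξ n
  filter_upwards [ev_mem a, F.ev_cap1 hΩ ha hs hN, F.ev_lemD, F.ev_mdl hΩ, F.ev_side, hct,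
    hunb] with M haM hcap hD hmdl hside hctM hunbM d hd x hx
  -- the case of nonempty sets
  have hcore : ∀ q ∈ F.S a, q ≠ ⊥ → F.Gen a M q → Nice T F.toDat a x q → ∀ y : Finset ℕ,
      y.Nonempty → (∀ n ∈ y, q ≤ x.Y n) → ∀ p ∈ F.S a', F.cb p ∈ M → q ≤ F.pr a p →
      ∃ r ∈ F.S a', r ≠ ⊥ ∧ r ≤ p ∧ r ≤ q ∧ F.Gen a' M r ∧ r ≤ F.Cap a' M d y := by
    intro q hqS hq0 hqG hqN y hy hyq p hp hpM hqp
    obtain ⟨x', ρ, hx'M, h0, hx'd, hρ, hjp, hρq, hxρ, hremρ, hwρ⟩ :=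
      hcap d hd x hx q hqS hq0 hqG hqN y hyq p hp hpM hqp
    have hoM := (hside x' hx'M).1
    have hG : F.Gen a' M (F.j a ρ) :=
      hD d hd a haM ha a' hs x hx ρ hρ hxρ (F.gen_mono hρq hqG)
    have hge : ∀ n ∈ y, F.j a ρ ≤ F.CN a x'.d (y.image (T.r x'.d d)) d n := fun n hn =>
      F.CN_ge hx'd.le (Finset.mem_image_of_mem _ hn) hρ (hwρ n hn)
    have hb : F.j a ρ ≤ ⨅ ξ, ⨆ n, F.CN a x'.d (y.image (T.r x'.d d)) ξ n := by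
      obtain ⟨n, hn⟩ := hy
      have h1 := hunbM x'.d hoM (y.image (T.r x'.d d)) d hd a'
        (fun ξ => F.iSup_mem fun m => F.CN_mem ha hs _ _ ξ m) (F.j a ρ) hG d le_rfl
      have h2 : F.j a ρ ≤ F.j a ρ ⊓ ⨆ m, F.CN a x'.d (y.image (T.r x'.d d)) d m :=
        le_inf le_rfl ((hge n hn).trans (le_iSup _ n))
      refine (h2.trans h1).trans (iInf_mono fun ξ => ?_)
      refine iSup₂_le fun ζ hζ => iSup_le fun m => ?_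
      exact (F.CN_tr x'.d _ hζ m).trans (le_iSup _ (T.r ξ ζ m))
    have hP := F.CN_Perp ha hs hΩ hN (fun c hc hca ξ n => F.U_mem hc hca ξ n) hρ hremρ h0 le_rfl hb
    refine ⟨F.j a ρ, F.j_mem a a' ρ ha hs hρ, F.j_ne ha hρ, hjp, (F.j_le_b ha hρ).trans hρq, hG, ?_⟩
    refine le_iSup₂_of_le (F.CN a x'.d (y.image (T.r x'.d d)))
      ⟨hctM _ hoM _, fun ξ n => F.CN_mem ha hs _ _ ξ n⟩ (le_inf hP ?_)
    exact le_iInf₂ hge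
  intro q hqS hq0 hqG hqN y hyq p hp hpM hqp
  have hM := hmdl a ha x hx
  have hn₀ : ∃ n₀, q ⊓ x.Y n₀ ≠ ⊥ := by
    have hbot : ¬ Lm (⊥ : O) := fun h => by
      obtain ⟨c, hc⟩ := h.1
      exact not_lt_bot hc
    have hba : (⊥ : O) < a := by
      obtain ⟨c, hc⟩ := ha.1
      exact lt_of_le_of_lt bot_le hc
    have h1 := hqN.y2 ⊥ hM.bot hbot hba 1 (fun _ _ => ⊤ : Nm Ω B 1) (hM.top 1)
      (fun _ _ => F.top_mem ⊥) ∅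
    rw [F.Lg_top 1, inf_top_eq] at h1
    obtain ⟨z, -, hz⟩ := ne_of_iSup hq0 h1
    refine ⟨z 0, fun h2 => hz ?_⟩
    rw [← le_bot_iff, ← h2]
    exact inf_le_inf_left _ (inf_le_right.trans (iInf_le _ 0))
  obtain ⟨n₀, hn₀⟩ := hn₀
  obtain ⟨r, hr, hr0, hrp, hrq, hrG, hrC⟩ := hcore (q ⊓ x.Y n₀) (F.inf_mem hqS (hx.Y n₀)) hn₀
    (F.gen_mono inf_le_left hqG) (Nice_mono hqN inf_le_left) (insert n₀ y)
    (Finset.insert_nonempty _ _) (fun n hn => by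
      rcases Finset.mem_insert.1 hn with rfl | hn
      · exact inf_le_right
      · exact inf_le_left.trans (hyq n hn)) p hp hpM (inf_le_left.trans hqp)
  exact ⟨r, hr, hr0, hrp, hrq.trans inf_le_left, hrG,
    hrC.trans (F.Cap_mono a' M d (Finset.subset_insert _ _))⟩

end Flt

end Pool.Agent.BPF
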