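import Pool.Agent.Lib.MP_11349d_lc.T.PDc

/-!
# Climb: climbing through the side conditions inside a large tree

PROOF of `climb`. Induction on the cardinality of `m`. Let `x` be the greatest side condition of `m` (exists:
`m` is finite, nonempty, and linearly ordered by `Blw`, because `Blw D x y` implies `x.d < y.d`; take the one with the
largest `d`). If `m = {x}`: by `y2` for `x`, `c`, `V`, `e = ∅` there is `s : Fin k → ℕ` with
`b ⊓ V x.d s ⊓ ⨅ i, x.Y (s i) ≠ ⊥` (`ne_of_iSup`); `T.r x.d x.d n = n`. Otherwise apply the induction hypothesis to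
`m' = m.erase x`: there are `x₁ ∈ m'` and `s₁` with
`b₁ = b ⊓ V x₁.d s₁ ⊓ ⨅ y ∈ m', ⨅ i, y.Y (T.r y.d x₁.d (s₁ i)) ≠ ⊥`. Let `V₁ = cone T V x₁.d s₁`. `Mem D x V₁`: `Mem D x V`,
`x₁.d < x.d`, `IsMdl.cone` (`InS D a V` from `hV` and `hS`). `InS D c V₁` (`cone_InS`), `b₁ ≤ Lg T D c V₁` (`Lg_cone`). By `y2` for `x`
there is `s` with `b₁ ⊓ V₁ x.d s ⊓ ⨅ i, x.Y (s i) ≠ ⊥`. `V₁ x.d s ≠ ⊥` gives `T.cmp x₁.d s₁ x.d s`, so
`T.res x₁.d x.d s = s₁` (as `x₁.d < x.d`), and `T.r y.d x.d (s i) = T.r y.d x₁.d (s₁ i)` for `y ∈ m'` (`y.d ≤ x₁.d`).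
-/

set_option autoImplicit false

namespace Pool.Agent.BPF

open Cardinal Pool.Agent.CSI

section
variable {O Ω B : Type} [LinearOrder O] [LinearOrder Ω] [OrderBot O] [OrderBot Ω]
  [CompleteBooleanAlgebra B] {T : LTree Ω} {D : Dat O Ω B}

theorem exists_top {m : Finset (Side O Ω B)} (hm : m.Nonempty)
    (hc : ∀ x ∈ m, ∀ y ∈ m, x = y ∨ Blw D x y ∨ Blw D y x) :
    ∃ x ∈ m, ∀ y ∈ m, y = x ∨ Blw D y x := by
  obtain ⟨x, hx, hmax⟩ := Finset.exists_max_image m (fun x => x.d) hm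
  refine ⟨x, hx, fun y hy => ?_⟩
  rcases hc y hy x hx with h | h | h
  · exact Or.inl h
  · exact Or.inr h
  · exact absurd h.lt (not_lt.2 (hmax y hy))

theorem climb {a h c : O} (hca : c < a) (hcl : ¬ Lm c) (hbot : ⊥ ∈ D.S c)
    (hS : D.S c ⊆ D.S a) {k : ℕ} {V : Nm Ω B k} (hV : InS D c V) {b : B} (hb : b ≠ ⊥)
    (hL : b ≤ Lg T D c V) {m : Finset (Side O Ω B)} (hm : m.Nonempty)
    (hmd : ∀ x ∈ m, IsMdl T D a h x) (hn : ∀ x ∈ m, Nice T D a x b)
    (hc : ∀ x ∈ m, ∀ y ∈ m, x = y ∨ Blw D x y ∨ Blw D y x)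
    (hcm : ∀ x ∈ m, c ∈ Set.range x.N) (hVm : ∀ x ∈ m, Mem D x V) :
    ∃ x ∈ m, (∀ y ∈ m, y = x ∨ Blw D y x) ∧ ∃ s : Fin k → ℕ,
      b ⊓ V x.d s ⊓ (⨅ y, ⨅ _ : y ∈ m, ⨅ i, y.Y (T.r y.d x.d (s i))) ≠ ⊥ := by
  classical
  induction m using Finset.strongInduction with
  | H m ih =>
    obtain ⟨x, hx, hxt⟩ := exists_top hm hc
    by_cases h1 : (m.erase x).Nonempty
    · have hsub : ∀ y ∈ m.erase x, y ∈ m := fun y hy => Finset.mem_of_mem_erase hy
      obtain ⟨x1, hx1, ht1, s1, hs1⟩ := ih (m.erase x) (Finset.erase_ssubset hx) h1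
        (fun y hy => hmd y (hsub y hy)) (fun y hy => hn y (hsub y hy))
        (fun y hy z hz => hc y (hsub y hy) z (hsub z hz)) (fun y hy => hcm y (hsub y hy))
        (fun y hy => hVm y (hsub y hy))
      have hlt : x1.d < x.d := by
        rcases hxt x1 (hsub x1 hx1) with h | h
        · exact absurd h (Finset.ne_of_mem_erase hx1)
        · exact h.lt
      have hM1 : Mem D x (cone T V x1.d s1) :=
        (hmd x hx).cone k V x1.d s1 (fun ξ s => hS (hV ξ s)) (hVm x hx) hlt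
      have hI1 : InS D c (cone T V x1.d s1) := cone_InS T D hbot hV x1.d s1
      have hb1b : b ⊓ V x1.d s1 ⊓ (⨅ y, ⨅ _ : y ∈ m.erase x, ⨅ i, y.Y (T.r y.d x1.d (s1 i))) ≤ b :=
        inf_le_left.trans inf_le_left
      have hL1 := (le_inf (hb1b.trans hL) (inf_le_left.trans inf_le_right)).trans
        (Lg_cone T D c V x1.d s1)
      have hy := (hn x hx).y2 c (hcm x hx) hcl hca k _ hM1 hI1 ∅
      obtain ⟨s, -, hs⟩ := Flt.ne_of_iSup hs1 ((le_inf hb1b hL1).trans hy)
      refine ⟨x, hx, hxt, s, ?_⟩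
      have hcmp : T.cmp x1.d s1 x.d s := by
        by_contra hcn
        apply hs
        have h2 : cone T V x1.d s1 x.d s = ⊥ := by
          unfold cone
          rw [if_neg hcn]
        rw [h2, bot_inf_eq, inf_bot_eq]
      have hres : T.res x1.d x.d s = s1 := by
        rcases hcmp with h | h
        · exact h.2
        · exact absurd h.1 (not_le.2 hlt)
      intro h0
      apply hs
      rw [← le_bot_iff, ← h0]
      refine le_inf (le_inf (inf_le_left.trans hb1b)
        (inf_le_right.trans (inf_le_left.trans (cone_le T V x1.d s1 x.d s)))) ?_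
      refine le_iInf fun y => le_iInf fun hy => le_iInf fun i => ?_
      by_cases hyx : y = x
      · subst hyx
        rw [T.r_self]
        exact inf_le_right.trans (inf_le_right.trans (iInf_le _ i))
      · have hy' : y ∈ m.erase x := Finset.mem_erase.2 ⟨hyx, hy⟩
        have e : T.r y.d x.d (s i) = T.r y.d x1.d (s1 i) := by
          rw [← hres]
          have hle : y.d ≤ x1.d := by
            rcases ht1 y hy' with h | h
            · rw [h]
            · exact h.lt.le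
          exact (T.r_comp y.d x1.d x.d (s i) hle hlt.le).symm
        rw [e]
        exact inf_le_left.trans (inf_le_right.trans
          ((iInf_le _ y).trans ((iInf_le _ hy').trans (iInf_le _ i))))
    · have hm1 : ∀ y ∈ m, y = x := by
        intro y hy
        by_contra hne
        exact h1 ⟨y, Finset.mem_erase.2 ⟨hne, hy⟩⟩
      have hy := (hn x hx).y2 c (hcm x hx) hcl hca k V (hVm x hx) hV ∅
      obtain ⟨s, -, hs⟩ := Flt.ne_of_iSup hb ((le_inf le_rfl hL).trans hy)
      refine ⟨x, hx, hxt, s, fun h0 => hs ?_⟩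
      rw [← le_bot_iff, ← h0]
      refine le_inf (le_inf inf_le_left (inf_le_right.trans inf_le_left)) ?_
      refine le_iInf fun y => le_iInf fun hy => le_iInf fun i => ?_
      obtain rfl := hm1 y hy
      rw [T.r_self]
      exact inf_le_right.trans (inf_le_right.trans (iInf_le _ i))

end

end Pool.Agent.BPF
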