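import Pool.Agent.Lib.MP_11349d_lc.T.LemA

/-!
# Cone: cones and restrictions of trees

PROOFS. `res_res`: `T.r_comp`. `Prn_cone`: write `C = cone T W ξ s`.
(1) nonempty levels `η`: if `ξ ≤ η`, `Prn_ex` gives `W ξ s ≤ ⨆ s', ⨆ (T.res ξ η s' = s), W η s'`, these `s'` are comparable
with `s`; if `η ≤ ξ`, `W ξ s ≤ W η (T.res η ξ s)` (`Prn_tr`).
(2) tree: if `s'` (level `η`) is comparable with `s` and `ζ ≤ η`, then `T.res ζ η s'` is comparable with `s`: if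
`ξ ≤ η`, `T.res ξ η s' = s`: for `ξ ≤ ζ` we have `T.res ξ ζ (T.res ζ η s') = s`, for `ζ ≤ ξ` we have
`T.res ζ η s' = T.res ζ ξ s`; if `η ≤ ξ`, `s' = T.res η ξ s`, then `T.res ζ η s' = T.res ζ ξ s`.
(3) pruned: `s'` at level `η`, `η ≤ ζ`. If `ξ ≤ η` and `T.res ξ η s' = s`: every extension of `s'` is comparable
with `s`. If `η ≤ ξ`, `s' = T.res η ξ s`: if `ζ ≤ ξ` take `T.res ζ ξ s`; if `ξ ≤ ζ` take the extensions of `s` to level `ζ`
(`Prn_ex`), they extend `s'`. `Lg_top`: use `C = ⊤` in the definition of `Lg`; `Perp ... ⊥ ⊤ = ⊤` because there is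
no `c < ⊥`; `Prn T ⊤ = ⊤` by `T.r_surj` (choose a preimage for every coordinate).
-/

set_option autoImplicit false

namespace Pool.Agent.BPF

open Cardinal Pool.Agent.CSI

theorem LTree.res_res {Ω : Type} [LinearOrder Ω] (T : LTree Ω) {k : ℕ} {ξ η ζ : Ω} (h1 : ξ ≤ η)
    (h2 : η ≤ ζ) (s : Fin k → ℕ) : T.res ξ η (T.res η ζ s) = T.res ξ ζ s := by
  funext i
  exact T.r_comp ξ η ζ (s i) h1 h2

theorem LTree.res_self {Ω : Type} [LinearOrder Ω] (T : LTree Ω) {k : ℕ} (ξ : Ω) (s : Fin k → ℕ) :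
    T.res ξ ξ s = s := by
  funext i
  exact T.r_self ξ (s i)

theorem LTree.res_surj {Ω : Type} [LinearOrder Ω] (T : LTree Ω) {k : ℕ} {ξ η : Ω} (h : ξ ≤ η)
    (s : Fin k → ℕ) : ∃ s', T.res ξ η s' = s := by
  choose s' hs' using fun i => T.r_surj ξ η h (s i)
  exact ⟨s', funext hs'⟩

theorem LTree.cmp_res {Ω : Type} [LinearOrder Ω] (T : LTree Ω) {k : ℕ} {ξ η ζ : Ω} (h : ζ ≤ η)
    {s s' : Fin k → ℕ} (hs : T.cmp ξ s η s') : T.cmp ξ s ζ (T.res ζ η s') := by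
  rcases hs with ⟨h1, rfl⟩ | ⟨h1, rfl⟩
  · rcases le_total ξ ζ with h2 | h2
    · exact Or.inl ⟨h2, T.res_res h2 h s'⟩
    · exact Or.inr ⟨h2, T.res_res h2 h1 s'⟩
  · exact Or.inr ⟨h.trans h1, (T.res_res h h1 s).symm⟩

section
variable {O Ω B : Type} [LinearOrder O] [LinearOrder Ω] [OrderBot O] [OrderBot Ω]
  [CompleteBooleanAlgebra B] (T : LTree Ω) (D : Dat O Ω B)

theorem cone_le {k : ℕ} (W : Nm Ω B k) (ξ : Ω) (s : Fin k → ℕ) (η : Ω) (s' : Fin k → ℕ) :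
    cone T W ξ s η s' ≤ W η s' := by
  unfold cone
  split_ifs
  · exact le_rfl
  · exact bot_le

theorem cone_InS {k : ℕ} {a : O} {W : Nm Ω B k} (hb : ⊥ ∈ D.S a) (h : InS D a W) (ξ : Ω)
    (s : Fin k → ℕ) : InS D a (cone T W ξ s) := by
  intro η s'
  unfold cone
  split_ifs
  · exact h η s'
  · exact hb

theorem Prn_cone {k : ℕ} (W : Nm Ω B k) (ξ : Ω) (s : Fin k → ℕ) :
    Prn T W ⊓ W ξ s ≤ Prn T (cone T W ξ s) := by
  have hC : ∀ (η : Ω) (s' : Fin k → ℕ), T.cmp ξ s η s' → cone T W ξ s η s' = W η s' :=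
    fun η s' h => if_pos h
  have hC' : ∀ (η : Ω) (s' : Fin k → ℕ), ¬ T.cmp ξ s η s' → cone T W ξ s η s' = ⊥ :=
    fun η s' h => if_neg h
  have hdn : ∀ η, η ≤ ξ → Prn T W ⊓ W ξ s ≤ cone T W ξ s η (T.res η ξ s) := by
    intro η h
    rw [hC _ _ (Or.inr ⟨h, rfl⟩)]
    exact Prn_tr T W h s
  refine le_inf (le_inf ?_ ?_) ?_
  · refine le_iInf fun η => ?_
    rcases le_total ξ η with h | h
    · refine (Prn_ex T W h s).trans (iSup_mono fun s' => iSup_le fun hs' => ?_)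
      rw [hC _ _ (Or.inl ⟨h, hs'⟩)]
    · exact (hdn η h).trans (le_iSup _ _)
  · refine le_iInf fun ζ => le_iInf fun η => le_iInf fun h => le_iInf fun s' => ?_
    rw [le_himp_iff]
    by_cases hc : T.cmp ξ s η s'
    · rw [hC _ _ hc, hC _ _ (T.cmp_res h hc)]
      exact (inf_le_inf_right _ inf_le_left).trans (Prn_tr T W h s')
    · rw [hC' _ _ hc, inf_bot_eq]
      exact bot_le
  · refine le_iInf fun ζ => le_iInf fun η => le_iInf fun h => le_iInf fun s' => ?_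
    rw [le_himp_iff]
    by_cases hc : T.cmp ξ s ζ s'
    · rw [hC _ _ hc]
      rcases hc with ⟨h1, h2⟩ | ⟨h1, h2⟩
      · refine ((inf_le_inf_right _ inf_le_left).trans (Prn_ex T W h s')).trans ?_
        refine iSup_mono fun s'' => iSup_mono fun hs'' => ?_
        rw [hC _ _ (Or.inl ⟨h1.trans h, ?_⟩)]
        rw [← T.res_res h1 h, hs'', h2]
      · rcases le_total η ξ with h3 | h3
        · refine inf_le_left.trans ((hdn η h3).trans ?_)
          exact le_iSup₂_of_le (T.res η ξ s) (by rw [T.res_res h h3, h2]) le_rfl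
        · refine inf_le_left.trans ((Prn_ex T W h3 s).trans ?_)
          refine iSup_mono fun s'' => iSup_le fun hs'' => ?_
          refine le_iSup_of_le (by rw [← T.res_res h1 h3, hs'', h2]) ?_
          rw [hC _ _ (Or.inl ⟨h3, hs''⟩)]
    · rw [hC' _ _ hc, inf_bot_eq]
      exact bot_le

theorem SbP_cone {k : ℕ} (W : Nm Ω B k) (ξ : Ω) (s : Fin k → ℕ) (C : Ω → ℕ → B) :
    SbP W C ≤ SbP (cone T W ξ s) C := by
  exact iInf_mono fun η => iInf_mono fun s' => himp_le_himp_right (cone_le T W ξ s η s')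

theorem Lg_cone {k : ℕ} (a : O) (W : Nm Ω B k) (ξ : Ω) (s : Fin k → ℕ) :
    Lg T D a W ⊓ W ξ s ≤ Lg T D a (cone T W ξ s) := by
  refine le_inf ?_ ?_
  · exact (inf_le_inf_right _ inf_le_left).trans (Prn_cone T W ξ s)
  · refine (inf_le_left.trans inf_le_right).trans ?_
    exact iSup_mono fun C => iSup_mono fun _ => inf_le_inf_left _ (SbP_cone T W ξ s C)

end

namespace Flt

variable {O Ω B : Type} [LinearOrder O] [WellFoundedLT O] [LinearOrder Ω] [WellFoundedLT Ω]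
    [OrderBot O] [OrderBot Ω] [CompleteBooleanAlgebra B] {T : LTree Ω}
    (F : Flt (O := O) (B := B) T)

theorem Lg_top (k : ℕ) : Lg T F.toDat ⊥ (fun _ _ => ⊤ : Nm Ω B k) = ⊤ := by
  have h1 : Prn T (fun _ _ => ⊤ : Nm Ω B k) = ⊤ := by
    unfold Prn
    have h1 : (⨅ ξ : Ω, ⨆ _ : Fin k → ℕ, (⊤ : B)) = ⊤ := by
      simp
    have h2 : (⨅ ξ : Ω, ⨅ η : Ω, ⨅ _ : ξ ≤ η, ⨅ _ : Fin k → ℕ, ((⊤ : B) ⇨ ⊤)) = ⊤ := by
      simp
    have h3 : (⨅ ξ : Ω, ⨅ η : Ω, ⨅ _ : ξ ≤ η, ⨅ s : Fin k → ℕ,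
        ((⊤ : B) ⇨ ⨆ s' : Fin k → ℕ, ⨆ _ : T.res ξ η s' = s, ⊤)) = ⊤ := by
      refine le_antisymm le_top (le_iInf fun ξ => le_iInf fun η => le_iInf fun h =>
        le_iInf fun s => ?_)
      obtain ⟨s', hs'⟩ := T.res_surj h s
      rw [le_himp_iff, inf_idem]
      exact le_iSup₂_of_le s' hs' le_rfl
    rw [h1, h2, h3, inf_idem, inf_idem]
  have h2 : Perp T F.toDat ⊥ (fun _ _ => ⊤ : Ω → ℕ → B) = ⊤ := by
    unfold Perp
    have h1 : (⨅ c, ⨅ _ : Lm c ∧ c < (⊥ : O), ⨆ ξ, ⨅ n, ((⊤ : B) ⊓ F.U c ξ n)ᶜ) = ⊤ := by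
      simp
    rw [h1]
    simp
  have h3 : (⊤ : B) ∈ F.S ⊥ := by
    have h4 := F.sup_mem ⊥ ∅ (Set.empty_subset _)
    rw [sSup_empty] at h4
    have h5 := F.compl_mem ⊥ _ h4
    rwa [compl_bot] at h5
  refine le_antisymm le_top (le_inf (by rw [h1]) ?_)
  refine le_iSup₂_of_le (fun _ _ => ⊤) (fun _ _ => h3) ?_
  rw [h2]
  refine le_inf le_rfl ?_
  unfold SbP
  simp

end Flt

end Pool.Agent.BPF
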