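import Pool.Agent.Lib.MP_11349d_lc.I.Cl
import Pool.Agent.Lib.MP_11349d_lc.Free

/-!
# Df: definitions for the tree part

`tcl W`: the largest outright tree below `W`; `wC W C`: the tuples of `W` with all coordinates in `C`;
`prn W`: the pruned part of `W`. `F.Dg a`: generic conditions are dense in `S a` (properness);
`F.NS a`: nice side conditions exist for stationary many `M` (at the limit stage `a`); `tup y`: the
finite set of coordinates of a tuple.
-/

set_option autoImplicit false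

namespace Pool.Agent.BPF

open Cardinal Pool.Agent.CSI

section
variable {Ω B : Type} [LinearOrder Ω] [CompleteBooleanAlgebra B] (T : LTree Ω)

/-- the largest outright tree below `W` -/
def tcl {k : ℕ} (W : Nm Ω B k) : Nm Ω B k := fun ξ s => ⨅ η, ⨅ _ : η ≤ ξ, W η (T.res η ξ s)

/-- the elements of `W` with all coordinates in (the largest outright tree below) `C` -/
def wC {k : ℕ} (W : Nm Ω B k) (C : Ω → ℕ → B) : Nm Ω B k :=
  fun ξ s => W ξ s ⊓ ⨅ i, ⨅ η, ⨅ _ : η ≤ ξ, C η (T.r η ξ (s i))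

/-- the pruned part of `W` -/
def prn {k : ℕ} (W : Nm Ω B k) : Nm Ω B k :=
  fun ξ s => ⨅ η, ⨅ _ : ξ ≤ η, ⨆ s', ⨆ _ : T.res ξ η s' = s, W η s'

/-- the set of the coordinates of `y` -/
def tup {k : ℕ} (y : Fin k → ℕ) : Finset ℕ := Finset.univ.image y

end

namespace Flt

variable {O Ω B : Type} [LinearOrder O] [WellFoundedLT O] [LinearOrder Ω] [WellFoundedLT Ω]
    [OrderBot O] [OrderBot Ω] [CompleteBooleanAlgebra B] {T : LTree Ω}
    (F : Flt (O := O) (B := B) T)

/-- `d` is `M ∩ ω₁` -/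
def Dl (M : Set O) (d : Ω) : Prop := ∀ ξ, F.o ξ ∈ M ↔ ξ < d

/-- generic conditions are dense in `S a` -/
def Dg (a : O) : Prop :=
  ∀ᶠ M in clubF O, ∀ p ∈ F.S a, F.cb p ∈ M → p ≠ ⊥ → ∃ r ∈ F.S a, r ≠ ⊥ ∧ r ≤ p ∧ F.Gen a M r

/-- for club many `M`, the existence of a nice side condition given by `M` is dense below the
elements of `M` -/
def NS (a : O) : Prop :=
  ∀ᶠ M in clubF O, ∀ p ∈ F.S a, F.cb p ∈ M → p ≠ ⊥ → ∃ r ∈ F.S a, r ≠ ⊥ ∧ r ≤ p ∧
    ∃ x, F.IsSide a M x ∧ Nice T F.toDat a x r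

end Flt

end Pool.Agent.BPF
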