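import Pool.Agent.Lib.MP_11349d_lc.T.Unb

/-!
# LemA: Lemma A

PROOF of `ev_lemA`. By `ev_normalOn` (code `F.n k`) and `eventually_countable_forall` (for `k` and
`n : Fin k → ℕ`) we may use `ev_unb'`, `ev_low` for all families
`A n ζ = ⨆ s, ⨆ _ : ∀ i, T.f ζ (s i) = n i, W ζ s` with `F.n k W ∈ M`; also `ev_dl`. Suppose the inequality fails:
`b = q ⊓ Prn T W ⊓ (⨆ y, ⨆ _ : ∀ i, y i ∉ e, W d y)ᶜ ≠ ⊥`. As `b ≤ ⨆ s, W d s` there is `y₀` with
`b₀ = b ⊓ W d y₀ ≠ ⊥` (`ne_of_iSup'`). Put `n i = T.f d (y₀ i)`; `b₀ ≤ A n d`, `b₀` is generic (`gen_mono`), so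
`b₀ ≤ ⨆ ζ ≥ ξ, A n ζ` for all `ξ`, and for `ξ < d` even `b₀ ≤ ⨆ ξ ≤ ζ < d, A n ζ`. Let `N = e.card + 1`,
`R = N * (k ^ 2 + 1)`. (1) `exists_chain`: by induction on `R`: there are `ξ : Fin R → Ω` strictly monotone,
`ξ i < d`, `x : Fin R → Fin k → ℕ` with `T.f (ξ i) (x i j) = n j` and `b₀ ⊓ ⨅ i, W (ξ i) (x i) ≠ ⊥` (in the step
choose `η < d` above the last `ξ` and use the inequality for the generic condition `b₀ ⊓ ⨅ i, ...`).
(2) `free_tuples` gives `ē : Fin N → Fin R`. (3) By induction on the number of indices (for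
`m ≤ N`): there is `y : Fin N → Fin k → ℕ` with `T.res (ξ (ē l)) d (y l) = x (ē l)` for `l < m` and
`b₀ ⊓ (⨅ i, W (ξ i) (x i)) ⊓ ⨅ l < m, W d (y l) ≠ ⊥` (use `b ≤ Prn T W` and `ne_of_iSup`). (4) `exists_avoid`
gives `l` with `y l i ∉ e` for all `i`. Then the element of (3) is below `W d (y l)` and below its
complement.
-/

set_option autoImplicit false

namespace Pool.Agent.BPF

open Cardinal Pool.Agent.CSI

section
variable {Ω B : Type} [LinearOrder Ω] [CompleteBooleanAlgebra B] (T : LTree Ω)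

theorem Prn_ne {k : ℕ} (W : Nm Ω B k) (ξ : Ω) : Prn T W ≤ ⨆ s, W ξ s := by
  exact (inf_le_left.trans inf_le_left).trans (iInf_le _ ξ)

theorem Prn_tr {k : ℕ} (W : Nm Ω B k) {ξ η : Ω} (h : ξ ≤ η) (s : Fin k → ℕ) :
    Prn T W ⊓ W η s ≤ W ξ (T.res ξ η s) := by
  rw [← le_himp_iff]
  refine (inf_le_left.trans inf_le_right).trans ?_
  exact ((iInf_le _ ξ).trans (iInf_le _ η)).trans ((iInf_le _ h).trans (iInf_le _ s))

theorem Prn_ex {k : ℕ} (W : Nm Ω B k) {ξ η : Ω} (h : ξ ≤ η) (s : Fin k → ℕ) :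
    Prn T W ⊓ W ξ s ≤ ⨆ s', ⨆ _ : T.res ξ η s' = s, W η s' := by
  rw [← le_himp_iff]
  refine inf_le_right.trans ?_
  exact ((iInf_le _ ξ).trans (iInf_le _ η)).trans ((iInf_le _ h).trans (iInf_le _ s))

/-- many elements of `W` of increasing heights with constant values of `f` -/
theorem exists_chain {k : ℕ} {W : Nm Ω B k} {d : Ω} (hd : ∀ ξ < d, ∃ η, ξ < η ∧ η < d) (h0 : ∃ ξ, ξ < d)
    {n : Fin k → ℕ} {G : B → Prop} (hG : ∀ b b', G b → b' ≤ b → G b')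
    (h : ∀ b, G b → ∀ ξ < d, b ≤ ⨆ ζ, ⨆ _ : ξ ≤ ζ ∧ ζ < d, ⨆ s, ⨆ _ : ∀ i, T.f ζ (s i) = n i, W ζ s)
    {b : B} (hb : b ≠ ⊥) (hGb : G b) (R : ℕ) :
    ∃ (ξ : Fin R → Ω) (x : Fin R → Fin k → ℕ), StrictMono ξ ∧ (∀ i, ξ i < d) ∧
      (∀ i j, T.f (ξ i) (x i j) = n j) ∧ b ⊓ ⨅ i, W (ξ i) (x i) ≠ ⊥ := by
  induction R with
  | zero =>
    refine ⟨fun i => i.elim0, fun i => i.elim0, fun i => i.elim0, fun i => i.elim0,
      fun i => i.elim0, ?_⟩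
    rw [iInf_of_empty, inf_top_eq]
    exact hb
  | succ R ih =>
    obtain ⟨ξ, x, hmono, hlt, hf, hne⟩ := ih
    obtain ⟨ξ₀, hξ₀, hξ₀'⟩ : ∃ ξ₀ < d, ∀ i, ξ i < ξ₀ := by
      rcases Nat.eq_zero_or_pos R with h0' | h0'
      · subst h0'
        obtain ⟨ξ₀, hξ₀⟩ := h0
        exact ⟨ξ₀, hξ₀, fun i => i.elim0⟩
      · obtain ⟨η, hη, hηd⟩ := hd _ (hlt ⟨R - 1, by omega⟩)
        refine ⟨η, hηd, fun i => lt_of_le_of_lt (hmono.monotone ?_) hη⟩
        rw [Fin.le_def]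
        have := i.2
        simp only
        omega
    have hG' : G (b ⊓ ⨅ i, W (ξ i) (x i)) := hG _ _ hGb inf_le_left
    obtain ⟨ζ, hζ, hne1⟩ := Flt.ne_of_iSup hne (h _ hG' ξ₀ hξ₀)
    obtain ⟨s, hs, hne2⟩ := Flt.ne_of_iSup (q := (b ⊓ ⨅ i, W (ξ i) (x i)) ⊓
      ⨆ s, ⨆ _ : ∀ i, T.f ζ (s i) = n i, W ζ s) hne1 inf_le_right
    refine ⟨Fin.snoc ξ ζ, Fin.snoc x s, ?_, ?_, ?_, ?_⟩
    · intro i j hij
      induction j using Fin.lastCases with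
      | last =>
        induction i using Fin.lastCases with
        | last => exact absurd hij (lt_irrefl _)
        | cast i => simpa using lt_of_lt_of_le (hξ₀' i) hζ.1
      | cast j =>
        induction i using Fin.lastCases with
        | last => exact absurd hij (not_lt.2 (Fin.le_last _))
        | cast i => simpa using hmono (by simpa using hij)
    · intro i
      induction i using Fin.lastCases with
      | last => simpa using hζ.2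
      | cast i => simpa using hlt i
    · intro i
      induction i using Fin.lastCases with
      | last => simpa using hs
      | cast i => simpa using hf i
    · intro hbot
      apply hne2
      rw [← le_bot_iff, ← hbot]
      refine le_inf ((inf_le_left.trans inf_le_left).trans inf_le_left) (le_iInf fun i => ?_)
      induction i using Fin.lastCases with
      | last => simpa using inf_le_right
      | cast i =>
        simp only [Fin.snoc_castSucc]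
        exact ((inf_le_left.trans inf_le_left).trans inf_le_right).trans (iInf_le _ i)

/-- extension of finitely many elements of a pruned tree to level `d` -/
theorem exists_ext {k N : ℕ} {W : Nm Ω B k} {d : Ω} {ξ : Fin N → Ω} (hξ : ∀ i, ξ i ≤ d)
    {x : Fin N → Fin k → ℕ} {b : B} (hb : b ≠ ⊥) (hP : b ≤ Prn T W) (hW : ∀ i, b ≤ W (ξ i) (x i)) :
    ∃ y : Fin N → Fin k → ℕ, (∀ i, T.res (ξ i) d (y i) = x i) ∧ b ⊓ ⨅ i, W d (y i) ≠ ⊥ := by
  have key : ∀ m : ℕ, m ≤ N → ∃ y : Fin N → Fin k → ℕ,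
      (∀ i : Fin N, i.1 < m → T.res (ξ i) d (y i) = x i) ∧
        b ⊓ ⨅ i : Fin N, ⨅ _ : i.1 < m, W d (y i) ≠ ⊥ := by
    intro m
    induction m with
    | zero =>
      intro _
      refine ⟨fun _ => fun _ => 0, fun i hi => absurd hi (Nat.not_lt_zero _), ?_⟩
      simpa using hb
    | succ m ih =>
      intro hm
      obtain ⟨y, hy, hne⟩ := ih (by omega)
      have hle : b ⊓ (⨅ i : Fin N, ⨅ _ : i.1 < m, W d (y i)) ≤
          ⨆ s', ⨆ _ : T.res (ξ ⟨m, hm⟩) d s' = x ⟨m, hm⟩, W d s' :=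
        inf_le_left.trans ((le_inf hP (hW ⟨m, hm⟩)).trans (Prn_ex T W (hξ ⟨m, hm⟩) _))
      obtain ⟨s, hs, hne'⟩ := Flt.ne_of_iSup hne hle
      refine ⟨Function.update y ⟨m, hm⟩ s, ?_, ?_⟩
      · intro i hi
        by_cases him : i = ⟨m, hm⟩
        · subst him
          rw [Function.update_self]
          exact hs
        · rw [Function.update_of_ne him]
          refine hy i (lt_of_le_of_ne (Nat.lt_succ_iff.1 hi) fun h => him (Fin.ext h))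
      · intro hbot
        apply hne'
        rw [← le_bot_iff, ← hbot]
        refine le_inf (inf_le_left.trans inf_le_left) (le_iInf fun i => le_iInf fun hi => ?_)
        by_cases him : i = ⟨m, hm⟩
        · subst him
          rw [Function.update_self]
          exact inf_le_right
        · rw [Function.update_of_ne him]
          have hi' : i.1 < m := lt_of_le_of_ne (Nat.lt_succ_iff.1 hi) fun h => him (Fin.ext h)
          exact (inf_le_left.trans inf_le_right).trans ((iInf_le _ i).trans (iInf_le _ hi'))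
  obtain ⟨y, hy, hne⟩ := key N le_rfl
  refine ⟨y, fun i => hy i i.2, fun hbot => hne ?_⟩
  rw [← le_bot_iff, ← hbot]
  exact le_inf inf_le_left (le_iInf fun i => inf_le_right.trans (iInf₂_le i i.2))

end

namespace Flt

variable {O Ω B : Type} [LinearOrder O] [WellFoundedLT O] [LinearOrder Ω] [WellFoundedLT Ω]
    [OrderBot O] [OrderBot Ω] [CompleteBooleanAlgebra B] {T : LTree Ω}
    (F : Flt (O := O) (B := B) T)

/-- **Lemma A** -/
theorem ev_lemA (hΩ : IsOm1 Ω) : ∀ᶠ M in clubF O, ∀ d, F.Dl M d → ∀ (k : ℕ) (W : Nm Ω B k),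
    F.n k W ∈ M → ∀ a, InS F.toDat a W → ∀ q, F.Gen a M q → ∀ e : Finset ℕ,
      q ⊓ Prn T W ≤ ⨆ y : Fin k → ℕ, ⨆ _ : ∀ i, y i ∉ e, W d y := by
  have hA : ∀ᶠ M in clubF O, ∀ (k : ℕ) (W : Nm Ω B k), F.n k W ∈ M → ∀ n : Fin k → ℕ,
      (∀ d, F.Dl M d → ∀ a, (∀ ξ, (⨆ s, ⨆ _ : ∀ i, T.f ξ (s i) = n i, W ξ s) ∈ F.S a) → ∀ q,
        F.Gen a M q → ∀ ζ, d ≤ ζ → q ⊓ (⨆ s, ⨆ _ : ∀ i, T.f ζ (s i) = n i, W ζ s) ≤
          ⨅ ξ, ⨆ ζ, ⨆ _ : ξ ≤ ζ, ⨆ s, ⨆ _ : ∀ i, T.f ζ (s i) = n i, W ζ s) ∧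
      (∀ d, F.Dl M d → ∀ a, (∀ ξ, (⨆ s, ⨆ _ : ∀ i, T.f ξ (s i) = n i, W ξ s) ∈ F.S a) → ∀ q,
        F.Gen a M q → ∀ ξ < d,
          q ⊓ (⨆ ζ, ⨆ _ : ξ ≤ ζ, ⨆ s, ⨆ _ : ∀ i, T.f ζ (s i) = n i, W ζ s) ≤
          ⨆ ζ, ⨆ _ : ξ ≤ ζ ∧ ζ < d, ⨆ s, ⨆ _ : ∀ i, T.f ζ (s i) = n i, W ζ s) := by
    refine ev_all fun k => ev_nrm (F.n_inj k) fun W => ev_all fun n => ?_
    exact (F.ev_unb' fun ζ => ⨆ s, ⨆ _ : ∀ i, T.f ζ (s i) = n i, W ζ s).and
      (F.ev_low fun ζ => ⨆ s, ⨆ _ : ∀ i, T.f ζ (s i) = n i, W ζ s)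
  filter_upwards [hA, F.ev_dl hΩ] with M hM hdl d hd k W hWM a hW q hq e
  obtain ⟨hlim, h0⟩ := hdl d hd
  by_contra hcon
  set R' : B := ⨆ y : Fin k → ℕ, ⨆ _ : ∀ i, y i ∉ e, W d y with hR'
  set b : B := q ⊓ Prn T W ⊓ R'ᶜ with hb
  have hbne : b ≠ ⊥ := by
    intro h
    apply hcon
    have := disjoint_iff.2 h
    exact disjoint_compl_right_iff.1 this
  have hbP : b ≤ Prn T W := inf_le_left.trans inf_le_right
  obtain ⟨y₀, hy₀⟩ := ne_of_iSup' hbne (hbP.trans (Prn_ne T W d))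
  set b₀ : B := b ⊓ W d y₀ with hb₀
  set n : Fin k → ℕ := fun i => T.f d (y₀ i) with hn
  have hS : ∀ ξ, (⨆ s, ⨆ _ : ∀ i, T.f ξ (s i) = n i, W ξ s) ∈ F.S a :=
    fun ξ => F.iSup_mem fun s => F.iSup_mem fun _ => hW ξ s
  have hG₀ : F.Gen a M b₀ := F.gen_mono ((inf_le_left.trans inf_le_left).trans inf_le_left) hq
  have hlow : ∀ b', (F.Gen a M b' ∧ b' ≤ b₀) → ∀ ξ < d, b' ≤ ⨆ ζ, ⨆ _ : ξ ≤ ζ ∧ ζ < d,
      ⨆ s, ⨆ _ : ∀ i, T.f ζ (s i) = n i, W ζ s := by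
    rintro b' ⟨hg, hle⟩ ξ hξ
    have h1 := (hM k W hWM n).1 d hd a hS b' hg d le_rfl
    have h2 : b' ≤ ⨆ s, ⨆ _ : ∀ i, T.f d (s i) = n i, W d s :=
      hle.trans (inf_le_right.trans (le_iSup₂_of_le y₀ (fun _ => rfl) le_rfl))
    have h3 : b' ≤ ⨆ ζ, ⨆ _ : ξ ≤ ζ, ⨆ s, ⨆ _ : ∀ i, T.f ζ (s i) = n i, W ζ s :=
      (le_inf le_rfl h2).trans (h1.trans (iInf_le _ ξ))
    exact (le_inf le_rfl h3).trans ((hM k W hWM n).2 d hd a hS b' hg ξ hξ)
  obtain ⟨ξ, x, hξm, hξd, hf, hne⟩ := exists_chain T hlim ⟨⊥, h0⟩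
    (G := fun b' => F.Gen a M b' ∧ b' ≤ b₀)
    (fun c c' h hle => ⟨F.gen_mono hle h.1, hle.trans h.2⟩) hlow hy₀ ⟨hG₀, le_rfl⟩
    ((e.card + 1) * (k ^ 2 + 1))
  obtain ⟨g, hg, hfree⟩ := free_tuples T (N := e.card + 1) le_rfl hξm hf
  set b₁ : B := b₀ ⊓ ⨅ i, W (ξ i) (x i) with hb₁
  obtain ⟨y, hy, hne2⟩ := exists_ext T (W := W) (d := d) (ξ := fun l => ξ (g l))
    (x := fun l => x (g l)) (fun l => (hξd (g l)).le) hne
    ((inf_le_left.trans inf_le_left).trans hbP)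
    (fun l => inf_le_right.trans (iInf_le _ (g l)))
  obtain ⟨m, hm⟩ := exists_avoid T (ξ := fun l => ξ (g l)) (x := fun l => x (g l))
    (hξm.comp hg) (fun l => (hξd (g l)).le) hfree (y := y)
    (fun m i => congrFun (hy m) i) (Nat.lt_succ_self _)
  apply hne2
  rw [← le_bot_iff]
  calc b₁ ⊓ ⨅ i, W d (y i) ≤ R'ᶜ ⊓ R' := by
        refine le_inf ?_ ?_
        · exact inf_le_left.trans (inf_le_left.trans (inf_le_left.trans inf_le_right))
        · exact (inf_le_right.trans (iInf_le _ m)).trans (le_iSup₂_of_le (y m) hm le_rfl)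
    _ = ⊥ := compl_inf_eq_bot

end Flt

end Pool.Agent.BPF
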