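import Pool.Agent.Lib.MP_11349d_lc.T.Climb

/-!
# LemD1: Lemma D, the tree of unfriendly tuples

`Fr T m₀ p ξ s`: the side conditions of `p` which do not belong to `m₀` are friendly to the tuple `s` of level
`ξ`. `F.Ep a E w₀ m₀`: the conditions below an element of `E` which contain `w₀`, `m₀`. `F.WD a E w₀ m₀`: the
tuples to which no condition of `Ep` in the generic filter is friendly.
PROOFS. `Fr_res`: `T.r x.d ξ (T.r ξ η n) = T.r x.d η n` for `x.d ≤ ξ ≤ η`. `WD_Tr` from `Fr_res`.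
`ev_WD`: the code of `WD a E w₀ m₀` is in `M` by normality in `a` (`ev_normal`), `E` (`ev_normalOn`, `F.cS_inj`), `⟨⊥, w₀, m₀⟩`
(`ev_nrm F.cc_inj`), and `ev_all` for `k`. Second part: for fixed `a`, `E`, `w₀`, `m₀`, `k`, `ξ`, `s : Fin k → ℕ` use `ev_iSup` with
`X = Cnd O Ω B`, `c = F.cc`, `f p = if p ∈ Ep then p.b ⊓ Fr T m₀ p ξ s else ⊥`; with `s = T.res ξ d t`, `Fr_res` and the
hypothesis, `q ⊓ f p = ⊥` for all `p` with `F.cc p ∈ M`; so `q ≤ (⨆ p, f p)ᶜ = WD a E w₀ m₀ ξ s`.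
-/

set_option autoImplicit false

namespace Pool.Agent.BPF

open Cardinal Pool.Agent.CSI

section
variable {O Ω B : Type} [LinearOrder Ω] [CompleteBooleanAlgebra B] (T : LTree Ω)

open Classical in
/-- the side conditions of `p` outside `m₀` are friendly to the tuple `s` of level `ξ` -/
noncomputable def Fr {k : ℕ} (m₀ : Finset (Side O Ω B)) (p : Cnd O Ω B) (ξ : Ω) (s : Fin k → ℕ) : B :=
  ⨅ x, ⨅ _ : x ∈ p.m ∧ x ∉ m₀, if x.d ≤ ξ then ⨅ i, x.Y (T.r x.d ξ (s i)) else ⊥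

theorem Fr_res {k : ℕ} (m₀ : Finset (Side O Ω B)) (p : Cnd O Ω B) {ξ η : Ω} (h : ξ ≤ η)
    (s : Fin k → ℕ) : Fr T m₀ p ξ (T.res ξ η s) ≤ Fr T m₀ p η s := by
  refine iInf_mono fun x => iInf_mono fun _ => ?_
  by_cases hx : x.d ≤ ξ
  · rw [if_pos hx, if_pos (hx.trans h)]
    refine iInf_mono fun i => ?_
    rw [show T.res ξ η s i = T.r ξ η (s i) from rfl, T.r_comp _ _ _ _ hx h]
  · rw [if_neg hx]
    exact bot_le

end

namespace Flt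

variable {O Ω B : Type} [LinearOrder O] [WellFoundedLT O] [LinearOrder Ω] [WellFoundedLT Ω]
    [OrderBot O] [OrderBot Ω] [CompleteBooleanAlgebra B] {T : LTree Ω}
    (F : Flt (O := O) (B := B) T)

/-- the conditions below an element of `E` which contain `w₀`, `m₀` -/
def Ep (a : O) (E : Set B) (w₀ : Finset (Ω × Ω × ℕ)) (m₀ : Finset (Side O Ω B)) :
    Set (Cnd O Ω B) :=
  {p | F.PD a p ∧ (∃ e ∈ E, F.j a p ≤ e) ∧ w₀ ⊆ p.w ∧ m₀ ⊆ p.m}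

/-- the tuples to which no condition of `Ep` is friendly -/
noncomputable def WD (a : O) (E : Set B) (w₀ : Finset (Ω × Ω × ℕ)) (m₀ : Finset (Side O Ω B))
    (k : ℕ) : Nm Ω B k :=
  fun ξ s => ⨅ p, ⨅ _ : p ∈ F.Ep a E w₀ m₀, (p.b ⊓ Fr T m₀ p ξ s)ᶜ

variable {a : O} {E : Set B} {w₀ : Finset (Ω × Ω × ℕ)} {m₀ : Finset (Side O Ω B)} {k : ℕ}

theorem Fr_mem {p : Cnd O Ω B} (hp : F.PD a p) (ξ : Ω) (s : Fin k → ℕ) :
    Fr T m₀ p ξ s ∈ F.S a := by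
  refine F.iInf_mem fun x => F.iInf_mem fun hx => ?_
  split_ifs
  · exact F.iInf_mem fun i => (hp.mdl x hx.1).Y _
  · exact F.bot_mem a

theorem WD_Tr : Tr T (F.WD a E w₀ m₀ k) := by
  intro ξ η s h
  exact iInf_mono fun p => iInf_mono fun _ =>
    compl_le_compl (inf_le_inf_left _ (Fr_res T m₀ p h s))

theorem WD_InS : InS F.toDat a (F.WD a E w₀ m₀ k) := by
  intro ξ s
  exact F.iInf_mem fun p => F.iInf_mem fun hp =>
    F.compl_iff.2 (F.inf_mem hp.1.b (F.Fr_mem hp.1 ξ s))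

theorem ev_WD : ∀ᶠ M in clubF O, ∀ d, F.Dl M d → ∀ a ∈ M, ∀ E : Set B, #E < #O → F.cS E ∈ M →
    ∀ w₀ m₀, F.cc ⟨⊥, w₀, m₀⟩ ∈ M → ∀ k, F.n k (F.WD a E w₀ m₀ k) ∈ M ∧ ∀ q, F.Gen a M q →
      ∀ t : Fin k → ℕ, (∀ p ∈ F.Ep a E w₀ m₀, F.cc p ∈ M → q ⊓ p.b ⊓ Fr T m₀ p d t = ⊥) →
        ∀ ξ < d, q ≤ F.WD a E w₀ m₀ k ξ (T.res ξ d t) := by
  classical
  have key : ∀ᶠ M in clubF O, ∀ a ∈ M, ∀ E ∈ {E : Set B | #E < #O}, F.cS E ∈ M →
      ∀ x : Finset (Ω × Ω × ℕ) × Finset (Side O Ω B), F.cc ⟨⊥, x.1, x.2⟩ ∈ M → ∀ k : ℕ,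
        F.n k (F.WD a E x.1 x.2 k) ∈ M ∧ ∀ ξ, F.o ξ ∈ M → ∀ s : Fin k → ℕ, ∀ b,
          (∀ p, (if p ∈ F.Ep a E x.1 x.2 then p.b ⊓ Fr T x.2 p ξ s else ⊥) ∈ F.S b) →
          ∀ q, F.Gen b M q →
            q ⊓ (⨆ p, if p ∈ F.Ep a E x.1 x.2 then p.b ⊓ Fr T x.2 p ξ s else ⊥) ≤
              ⨆ p, ⨆ _ : F.cc p ∈ M,
                if p ∈ F.Ep a E x.1 x.2 then p.b ⊓ Fr T x.2 p ξ s else ⊥ := by
    refine ev_normal fun a => ev_normalOn F.cS_inj fun E _ => ev_nrm ?_ fun x => ev_all fun k =>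
      (ev_mem _).and (ev_nrm F.o_inj fun ξ => ev_all fun s => F.ev_iSup F.cc _)
    intro x y h
    have h1 := F.cc_inj h
    simp only [Cnd.mk.injEq, true_and] at h1
    exact Prod.ext h1.1 h1.2
  filter_upwards [key] with M hM d hd a ha E hE hEM w₀ m₀ hwm k
  obtain ⟨h1, h2⟩ := hM a ha E hE hEM (w₀, m₀) hwm k
  refine ⟨h1, fun q hq t ht ξ hξ => ?_⟩
  have h3 := h2 ξ ((hd ξ).2 hξ) (T.res ξ d t) a (fun p => by
    split_ifs with hp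
    · exact F.inf_mem hp.1.b (F.Fr_mem hp.1 _ _)
    · exact F.bot_mem a) q hq
  have h4 : q ⊓ (⨆ p, if p ∈ F.Ep a E w₀ m₀ then p.b ⊓ Fr T m₀ p ξ (T.res ξ d t) else ⊥) ≤ ⊥ := by
    refine (le_inf inf_le_left h3).trans ?_
    rw [inf_iSup_eq]
    refine iSup_le fun p => ?_
    rw [inf_iSup_eq]
    refine iSup_le fun hp => ?_
    dsimp only
    split_ifs with hp'
    · rw [← ht p hp' hp, ← inf_assoc]
      exact inf_le_inf_left _ (Fr_res T m₀ p hξ.le t)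
    · exact inf_le_right
  refine le_iInf fun p => le_iInf fun hp => ?_
  rw [le_compl_iff_disjoint_right, disjoint_iff_inf_le]
  refine (inf_le_inf_left q ?_).trans h4
  refine le_iSup_of_le p ?_
  rw [if_pos hp]

end Flt

end Pool.Agent.BPF
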