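import Pool.Agent.Lib.MP_11349d_lc.T.LemD1

/-!
# LemD2: Lemma D, the union of two conditions

PROOF of `union_PD`. `ρ' = ⟨b, ρ.w ∪ p.w, ρ.m ∪ p.m⟩`. `mdl` clear, `nice` by `Nice_mono`. A side condition `y ∈ p.m` satisfies
`Blw y x`: `F.s y ∈ M` (`hcc`) and `F.s y < h a` (`(F.bd a ha).s`, `(hp.mdl y _).lt`, `.Y`), so `F.s y ∈ Set.range x.N` (`hx.N`);
`Set.range y.N ⊆ M` (`hsd`) and below `h a` (`IsMdl.lt`); `F.o y.d ∈ M`, so `y.d < x.d` (`hx.om`). Also `x.d = d` (both are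
`M ∩ ω₁`).
`chain`: for `y ∈ p.m`, `z ∈ ρ.m`: by the chain condition of `ρ`, `z = x` or `Blw z x` or `Blw x z`. In the second case
`z ∈ m₀ ⊆ p.m`; in the other cases `Blw y z` (`Blw_trans`).
`res`: `v ∈ ρ.w ∪ p.w`, `y ∈ ρ.m ∪ p.m`, `v.1 < y.d ≤ v.2.1`. Both in `ρ` or both in `p`: clear (`b ≤ ρ.b`, `b ≤ p.b`).
`v ∈ p.w`, `y ∈ ρ.m`, `y ∉ p.m`: `y = x` or `Blw x y` (otherwise `y ∈ m₀ ⊆ p.m`), so `d ≤ y.d`; but `F.o v.2.1 ∈ M`, so `v.2.1 < d`: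
impossible. `v ∈ ρ.w`, `y ∈ p.m`: `y.d < d`, so `v.1 < d`. If `v.2.1 < d`, then `v ∈ w₀ ⊆ p.w`. If `d ≤ v.2.1` there is `i` with
`t i = T.r d v.2.1 v.2.2`; if `y ∈ m₀` then `y ∈ ρ.m`; otherwise `b ≤ Fr T m₀ p d t ≤ y.Y (T.r y.d d (t i))`, and
`T.r y.d d (t i) = T.r y.d v.2.1 v.2.2`.
-/

set_option autoImplicit false

namespace Pool.Agent.BPF

open Cardinal Pool.Agent.CSI

namespace Flt

variable {O Ω B : Type} [LinearOrder O] [WellFoundedLT O] [LinearOrder Ω] [WellFoundedLT Ω]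
    [OrderBot O] [OrderBot Ω] [CompleteBooleanAlgebra B] {T : LTree Ω}
    (F : Flt (O := O) (B := B) T)

/-- an element of `M` which is a side condition is below the side condition given by `M` -/
theorem blw_of_mem {a : O} (ha : Lm a) {M : Set O}
    (hsd : ∀ x : Side O Ω B, F.s x ∈ M → F.o x.d ∈ M ∧ Set.range x.N ⊆ M)
    {x : Side O Ω B} (hx : F.IsSide a M x) {y : Side O Ω B} (hy : IsMdl T F.toDat a (F.h a) y)
    (hyM : F.s y ∈ M) : Blw F.toDat y x := by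
  obtain ⟨h1, h2⟩ := hsd y hyM
  refine ⟨?_, ?_, (hx.om _).1 h1⟩
  · rw [hx.N]
    exact ⟨hyM, (F.bd a ha).s y hy.lt hy.Y⟩
  · rw [hx.N]
    rintro _ ⟨n, rfl⟩
    exact ⟨h2 ⟨n, rfl⟩, hy.lt n⟩

theorem union_PD {a : O} (ha : Lm a) {M : Set O} {d : Ω} (hd : F.Dl M d)
    (hsd : ∀ x : Side O Ω B, F.s x ∈ M → F.o x.d ∈ M ∧ Set.range x.N ⊆ M)
    {x : Side O Ω B} (hx : F.IsSide a M x) {ρ p : Cnd O Ω B} (hρ : F.PD a ρ) (hxρ : x ∈ ρ.m)
    (hp : F.PD a p) (hpw : ∀ v ∈ p.w, F.o v.1 ∈ M ∧ F.o v.2.1 ∈ M) (hpm : ∀ x ∈ p.m, F.s x ∈ M)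
    {m₀ : Finset (Side O Ω B)} (hm₀ : ∀ y, y ∈ m₀ ↔ y ∈ ρ.m ∧ Blw F.toDat y x) (hm : m₀ ⊆ p.m)
    {w₀ : Finset (Ω × Ω × ℕ)} (hw₀ : ∀ v, v ∈ w₀ ↔ v ∈ ρ.w ∧ v.1 < d ∧ v.2.1 < d) (hw : w₀ ⊆ p.w)
    {k : ℕ} {t : Fin k → ℕ}
    (ht : ∀ v ∈ ρ.w, v.1 < d → d ≤ v.2.1 → ∃ i, t i = T.r d v.2.1 v.2.2)
    {b : B} (hb : b ∈ F.S a) (hne : b ≠ ⊥) (hbρ : b ≤ ρ.b) (hbp : b ≤ p.b)
    (hF : b ≤ Fr T m₀ p d t) :
    ∃ ρ', F.PD a ρ' ∧ ρ'.le ρ ∧ ρ'.le p ∧ ρ'.b = b := by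
  classical
  have hxd : x.d = d := by
    apply le_antisymm
    · by_contra h
      exact lt_irrefl _ ((hd d).1 ((hx.om d).2 (not_le.1 h)))
    · by_contra h
      exact lt_irrefl _ ((hx.om x.d).1 ((hd x.d).2 (not_le.1 h)))
  have hbx : ∀ y ∈ p.m, Blw F.toDat y x := fun y hy =>
    F.blw_of_mem ha hsd hx (hp.mdl y hy) (hpm y hy)
  have hρx : ∀ z ∈ ρ.m, z ∈ p.m ∨ z = x ∨ Blw F.toDat x z := by
    intro z hz
    rcases hρ.chain z hz x hxρ with h | h | h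
    · exact Or.inr (Or.inl h)
    · exact Or.inl (hm ((hm₀ z).2 ⟨hz, h⟩))
    · exact Or.inr (Or.inr h)
  have hch : ∀ y ∈ p.m, ∀ z ∈ ρ.m, Blw F.toDat y z ∨ z ∈ p.m := by
    intro y hy z hz
    rcases hρx z hz with h | h | h
    · exact Or.inr h
    · rw [h]
      exact Or.inl (hbx y hy)
    · exact Or.inl (Blw_trans (hbx y hy) h)
  refine ⟨⟨b, ρ.w ∪ p.w, ρ.m ∪ p.m⟩, ⟨hb, hne, ?_, ?_, ?_, ?_⟩,
    ⟨hbρ, Finset.subset_union_left, Finset.subset_union_left⟩,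
    ⟨hbp, Finset.subset_union_right, Finset.subset_union_right⟩, rfl⟩
  · intro y hy
    rcases Finset.mem_union.1 hy with h | h
    · exact hρ.mdl y h
    · exact hp.mdl y h
  · intro y hy
    rcases Finset.mem_union.1 hy with h | h
    · exact Nice_mono (hρ.nice y h) hbρ
    · exact Nice_mono (hp.nice y h) hbp
  · intro y hy z hz
    rcases Finset.mem_union.1 hy with h | h <;> rcases Finset.mem_union.1 hz with h' | h'
    · exact hρ.chain y h z h'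
    · rcases hch z h' y h with h1 | h1
      · exact Or.inr (Or.inr h1)
      · exact hp.chain y h1 z h'
    · rcases hch y h z h' with h1 | h1
      · exact Or.inr (Or.inl h1)
      · exact hp.chain y h z h1
    · exact hp.chain y h z h'
  · intro v hv y hy h1 h2
    rcases Finset.mem_union.1 hv with h | h <;> rcases Finset.mem_union.1 hy with h' | h'
    · exact hbρ.trans (hρ.res v h y h' h1 h2)
    · have hyd : y.d < d := hxd ▸ (hbx y h').lt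
      by_cases hvd : v.2.1 < d
      · exact hbp.trans (hp.res v (hw ((hw₀ v).2 ⟨h, h1.trans hyd, hvd⟩)) y h' h1 h2)
      · obtain ⟨i, hi⟩ := ht v h (h1.trans hyd) (not_lt.1 hvd)
        by_cases hy0 : y ∈ m₀
        · exact hbρ.trans (hρ.res v h y ((hm₀ y).1 hy0).1 h1 h2)
        · refine hF.trans ((iInf₂_le y ⟨h', hy0⟩).trans ?_)
          rw [if_pos hyd.le]
          refine (iInf_le _ i).trans ?_
          rw [hi, T.r_comp _ _ _ _ hyd.le (not_lt.1 hvd)]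
    · have hvd : v.2.1 < d := (hd _).1 (hpw v h).2
      rcases hρx y h' with h3 | h3 | h3
      · exact hbp.trans (hp.res v h y h3 h1 h2)
      · exfalso
        rw [h3, hxd] at h2
        exact lt_irrefl _ (h2.trans_lt hvd)
      · exfalso
        have h4 := h3.lt
        rw [hxd] at h4
        exact lt_irrefl _ ((h4.trans_le h2).trans hvd)
    · exact hbp.trans (hp.res v h y h' h1 h2)

end Flt

end Pool.Agent.BPF
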