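import Pool.Agent.Lib.MP_11349d_lc.T.Cone

/-!
# PDb: basic facts about the conditions at a limit stage

PROOFS. `Nice_mono`, `Nice_sSup`: all clauses have the form `b ⊓ u ≤ v` (for `sSup` use `sSup_inf_eq` after
reassociating; `sSup ∅ = ⊥` is fine). `Blw_trans` clear. `PD_restr`: `Nice_mono`. `j_ne`: `pr a (j a p) = p.b ≠ ⊥` and
`pr_eq_bot`. `exists_j_le`: by `j_dns` there is `p₁` with `j p₁ ≤ j p ⊓ x`; by `j_cpt` (`j p₁ ⊓ j p = j p₁ ≠ ⊥`) there is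
`p'` below `p₁` and `p`; `j_mono`. `iSup_j`: if `x ⊓ (⨆ ...)ᶜ ≠ ⊥` use `j_dns`. `pr_iSup_j`: `pr_iSup` and `j_pr`.
-/

set_option autoImplicit false

namespace Pool.Agent.BPF

open Cardinal Pool.Agent.CSI

section
variable {O Ω B : Type} [LinearOrder O] [LinearOrder Ω] [OrderBot O] [OrderBot Ω]
  [CompleteBooleanAlgebra B] {T : LTree Ω} {D : Dat O Ω B}

theorem Nice_mono {a : O} {x : Side O Ω B} {b b' : B} (h : Nice T D a x b) (hb : b' ≤ b) :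
    Nice T D a x b' := by
  refine ⟨?_, ?_, ?_⟩
  · intro c hc hl hlt n
    exact le_bot_iff.1 ((inf_le_inf_right _ (inf_le_inf_right _ hb)).trans (h.y0 c hc hl hlt n).le)
  · intro k W h1 h2 h3 t
    exact (inf_le_inf_right _ (inf_le_inf_right _ hb)).trans (h.y1 k W h1 h2 h3 t)
  · intro c hc hl hlt k V h1 h2 e
    exact (inf_le_inf_right _ hb).trans (h.y2 c hc hl hlt k V h1 h2 e)

theorem Nice_sSup {a : O} {x : Side O Ω B} {E : Set B} (h : ∀ b ∈ E, Nice T D a x b) :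
    Nice T D a x (sSup E) := by
  refine ⟨?_, ?_, ?_⟩
  · intro c hc hl hlt n
    rw [inf_assoc, sSup_inf_eq, ← le_bot_iff]
    exact iSup₂_le fun b hb => (inf_assoc _ _ _).ge.trans ((h b hb).y0 c hc hl hlt n).le
  · intro k W h1 h2 h3 t
    rw [inf_assoc, sSup_inf_eq]
    exact iSup₂_le fun b hb => (inf_assoc _ _ _).ge.trans ((h b hb).y1 k W h1 h2 h3 t)
  · intro c hc hl hlt k V h1 h2 e
    rw [sSup_inf_eq]
    exact iSup₂_le fun b hb => (h b hb).y2 c hc hl hlt k V h1 h2 e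

theorem Blw_trans {x y z : Side O Ω B} (h : Blw D x y) (h' : Blw D y z) : Blw D x z :=
  ⟨h'.sub h.mem, h.sub.trans h'.sub, h.lt.trans h'.lt⟩

theorem PD_restr {a h : O} {p : Cnd O Ω B} (hp : PD T D a h p) {b : B} (hb : b ∈ D.S a)
    (hne : b ≠ ⊥) (hle : b ≤ p.b) : PD T D a h ⟨b, p.w, p.m⟩ :=
  ⟨hb, hne, hp.mdl, fun x hx => Nice_mono (hp.nice x hx) hle, hp.chain,
    fun v hv x hx h1 h2 => hle.trans (hp.res v hv x hx h1 h2)⟩

theorem Cnd.le_refl' (p : Cnd O Ω B) : p.le p := ⟨le_rfl, subset_rfl, subset_rfl⟩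

theorem Cnd.le_trans' {p q r : Cnd O Ω B} (h : p.le q) (h' : q.le r) : p.le r :=
  ⟨h.1.trans h'.1, h'.2.1.trans h.2.1, h'.2.2.trans h.2.2⟩

end

namespace Flt

variable {O Ω B : Type} [LinearOrder O] [WellFoundedLT O] [LinearOrder Ω] [WellFoundedLT Ω]
    [OrderBot O] [OrderBot Ω] [CompleteBooleanAlgebra B] {T : LTree Ω}
    (F : Flt (O := O) (B := B) T)

theorem j_ne {a : O} (ha : Lm a) {p : Cnd O Ω B} (hp : F.PD a p) : F.j a p ≠ ⊥ := by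
  intro h
  apply hp.ne
  rw [← F.j_pr a p ha hp, h]
  exact F.pr_eq_bot.2 rfl

theorem j_le_b {a : O} (ha : Lm a) {p : Cnd O Ω B} (hp : F.PD a p) : F.j a p ≤ p.b :=
  (F.le_pr a _).trans (F.j_pr a p ha hp).le

theorem exists_j_le {a a' : O} (ha : Lm a) (hs : Sc a a') {p : Cnd O Ω B} (hp : F.PD a p) {x : B}
    (hx : x ∈ F.S a') (hne : F.j a p ⊓ x ≠ ⊥) : ∃ p', F.PD a p' ∧ p'.le p ∧ F.j a p' ≤ x := by
  obtain ⟨p₁, hp₁, hle⟩ := F.j_dns a a' ha hs _ (F.inf_mem (F.j_mem a a' p ha hs hp) hx) hne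
  have h1 : F.j a p₁ ⊓ F.j a p ≠ ⊥ := by
    rw [inf_eq_left.2 (hle.trans inf_le_left)]
    exact F.j_ne ha hp₁
  obtain ⟨p', hp', h2, h3⟩ := F.j_cpt a p₁ p ha hp₁ hp h1
  exact ⟨p', hp', h3, (F.j_mono a p₁ p' ha hp₁ hp' h2).trans (hle.trans inf_le_right)⟩

/-- two compatible conditions and an element of `S a'` -/
theorem exists_j_le2 {a a' : O} (ha : Lm a) (hs : Sc a a') {p p' : Cnd O Ω B} (hp : F.PD a p)
    (hp' : F.PD a p') {x : B} (hx : x ∈ F.S a') (hne : F.j a p ⊓ F.j a p' ⊓ x ≠ ⊥) :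
    ∃ p'', F.PD a p'' ∧ p''.le p ∧ p''.le p' ∧ F.j a p'' ≤ x := by
  obtain ⟨q, hq, hqp, hqx⟩ := F.exists_j_le ha hs hp
    (F.inf_mem (F.j_mem a a' p' ha hs hp') hx) (by rw [← inf_assoc]; exact hne)
  have h1 : F.j a q ⊓ F.j a p' ≠ ⊥ := by
    rw [inf_eq_left.2 (hqx.trans inf_le_left)]
    exact F.j_ne ha hq
  obtain ⟨p'', hp'', h2, h3⟩ := F.j_cpt a q p' ha hq hp' h1
  exact ⟨p'', hp'', Cnd.le_trans' h2 hqp, h3,
    (F.j_mono a q p'' ha hq hp'' h2).trans (hqx.trans inf_le_right)⟩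

theorem iSup_j {a a' : O} (ha : Lm a) (hs : Sc a a') {x : B} (hx : x ∈ F.S a') :
    x ≤ ⨆ p, ⨆ _ : F.PD a p ∧ F.j a p ≤ x, F.j a p := by
  by_contra hn
  have hne : x ⊓ (⨆ p, ⨆ _ : F.PD a p ∧ F.j a p ≤ x, F.j a p)ᶜ ≠ ⊥ := fun h0 =>
    hn (disjoint_compl_right_iff.1 (disjoint_iff_inf_le.2 h0.le))
  have hmem : x ⊓ (⨆ p, ⨆ _ : F.PD a p ∧ F.j a p ≤ x, F.j a p)ᶜ ∈ F.S a' :=
    F.inf_mem hx (F.compl_iff.2 (F.iSup_mem fun p => F.iSup_mem fun hp =>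
      F.j_mem a a' p ha hs hp.1))
  obtain ⟨p, hp, hle⟩ := F.j_dns a a' ha hs _ hmem hne
  apply F.j_ne ha hp
  rw [← le_bot_iff, ← inf_compl_self (⨆ p, ⨆ _ : F.PD a p ∧ F.j a p ≤ x, F.j a p)]
  exact le_inf (le_iSup₂_of_le p ⟨hp, hle.trans inf_le_left⟩ le_rfl) (hle.trans inf_le_right)

theorem pr_le_iSup_b {a a' : O} (ha : Lm a) (hs : Sc a a') {x : B} (hx : x ∈ F.S a') :
    F.pr a x ≤ ⨆ p, ⨆ _ : F.PD a p ∧ F.j a p ≤ x, p.b := by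
  refine (F.pr_mono (F.iSup_j ha hs hx)).trans ?_
  rw [F.pr_iSup]
  refine iSup_mono fun p => ?_
  rw [F.pr_iSup]
  exact iSup_mono fun hp => (F.j_pr a p ha hp.1).le

end Flt

end Pool.Agent.BPF
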