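import Pool.Agent.Lib.MP_11349d_lc.T.PDb

/-!
# PDc: conditions and side conditions in models

`ev_side`: `ev_fun`, `ev_cset` for `F.s` (`Set.range x.N` is countable). `ev_cc`: `ev_fun`/`ev_cset` for `F.cc`.
`ev_cc_mem`: the club is closed under `⊥ ↦ cc ⟨⊥, ∅, ∅⟩` and under `(cc ⟨⊥, w, m⟩, o ξ, o η, i) ↦ cc ⟨⊥, insert (ξ, η, i) w, m⟩`,
`(cc ⟨⊥, w, m⟩, s x) ↦ cc ⟨⊥, w, insert x m⟩` (nested `ev_normalOn`, `eventually_countable_forall` for `i`, `ev_mem`); then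
`Finset.induction_on`. `ev_mdl`: clauses of `IsMdl`: `lt` and `om` from `IsSide.N`, `IsSide.om`, `(F.bd a ha).o`; `pos`: `ev_dl`;
`bot`: `ev_mem ⊥` and `⊥ ≤ a < h a`; `top`: `ev_mem` of the code of the constant name for all `k`, and `(F.bd a ha).n`
(`top_mem`); `cone`: `ev_normalOn` for `W` and `ξ`, countably many `k`, `s`; the bound by `(F.bd a ha).n` and `cone_InS`.
-/

set_option autoImplicit false

namespace Pool.Agent.BPF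

open Cardinal Pool.Agent.CSI

namespace Flt

variable {O Ω B : Type} [LinearOrder O] [WellFoundedLT O] [LinearOrder Ω] [WellFoundedLT Ω]
    [OrderBot O] [OrderBot Ω] [CompleteBooleanAlgebra B] {T : LTree Ω}
    (F : Flt (O := O) (B := B) T)

theorem ev_side : ∀ᶠ M in clubF O, ∀ x : Side O Ω B, F.s x ∈ M →
    F.o x.d ∈ M ∧ Set.range x.N ⊆ M :=
  ev_nrm F.s_inj fun x => (ev_mem (F.o x.d)).and (ev_sub (Set.countable_range x.N))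

theorem ev_cc : ∀ᶠ M in clubF O, ∀ p : Cnd O Ω B, F.cc p ∈ M → F.cb p.b ∈ M ∧
    (∀ v ∈ p.w, F.o v.1 ∈ M ∧ F.o v.2.1 ∈ M) ∧ (∀ x ∈ p.m, F.s x ∈ M) := by
  refine ev_nrm F.cc_inj fun p => (ev_mem (F.cb p.b)).and (Filter.Eventually.and ?_ ?_)
  · refine (Filter.eventually_all_finset p.w).2 fun v _ => ?_
    exact (ev_mem (F.o v.1)).and (ev_mem (F.o v.2.1))
  · exact (Filter.eventually_all_finset p.m).2 fun x _ => ev_mem (F.s x)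

theorem ev_cc_mem : ∀ᶠ M in clubF O, ∀ (w : Finset (Ω × Ω × ℕ)) (m : Finset (Side O Ω B)),
    (∀ v ∈ w, F.o v.1 ∈ M ∧ F.o v.2.1 ∈ M) → (∀ x ∈ m, F.s x ∈ M) → F.cc ⟨⊥, w, m⟩ ∈ M := by
  classical
  have hc : Function.Injective (fun q : Finset (Ω × Ω × ℕ) × Finset (Side O Ω B) =>
      F.cc ⟨⊥, q.1, q.2⟩) := by
    rintro ⟨w, m⟩ ⟨w', m'⟩ h
    have h1 := F.cc_inj h
    injection h1 with h2 h3 h4
    exact Prod.ext h3 h4
  have h1 : ∀ᶠ M in clubF O, ∀ q : Finset (Ω × Ω × ℕ) × Finset (Side O Ω B),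
      F.cc ⟨⊥, q.1, q.2⟩ ∈ M → ∀ ξ, F.o ξ ∈ M → ∀ η, F.o η ∈ M → ∀ i : ℕ,
        F.cc ⟨⊥, insert (ξ, η, i) q.1, q.2⟩ ∈ M :=
    ev_nrm3 hc F.o_inj F.o_inj fun q ξ η => ev_all fun i => ev_mem _
  have h2 : ∀ᶠ M in clubF O, ∀ q : Finset (Ω × Ω × ℕ) × Finset (Side O Ω B),
      F.cc ⟨⊥, q.1, q.2⟩ ∈ M → ∀ x, F.s x ∈ M → F.cc ⟨⊥, q.1, insert x q.2⟩ ∈ M :=
    ev_nrm2 hc F.s_inj fun q x => ev_mem _
  filter_upwards [ev_mem (F.cc ⟨⊥, ∅, ∅⟩), h1, h2] with M h0 h1 h2 w m hw hm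
  have hw' : F.cc ⟨⊥, w, ∅⟩ ∈ M := by
    clear hm
    induction w using Finset.induction_on with
    | empty => exact h0
    | insert v w _ ih =>
      have h3 := hw v (Finset.mem_insert_self v w)
      exact h1 (w, ∅) (ih fun u hu => hw u (Finset.mem_insert_of_mem hu)) v.1 h3.1 v.2.1 h3.2 v.2.2
  induction m using Finset.induction_on with
  | empty => exact hw'
  | insert x m _ ih =>
    exact h2 (w, m) (ih fun u hu => hm u (Finset.mem_insert_of_mem hu)) x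
      (hm x (Finset.mem_insert_self x m))

theorem ev_mdl (hΩ : IsOm1 Ω) : ∀ᶠ M in clubF O, ∀ a, Lm a → ∀ x, F.IsSide a M x →
    IsMdl T F.toDat a (F.h a) x := by
  have h1 : ∀ᶠ M in clubF O, ∀ k : ℕ, ∀ W : Nm Ω B k, F.n k W ∈ M → ∀ ξ, F.o ξ ∈ M →
      ∀ s : Fin k → ℕ, F.n k (cone T W ξ s) ∈ M :=
    ev_all fun k => ev_nrm2 (F.n_inj k) F.o_inj fun W ξ => ev_all fun s => ev_mem _
  have h2 : ∀ᶠ M in clubF O, ∀ k : ℕ, F.n k (fun _ _ => ⊤ : Nm Ω B k) ∈ M :=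
    ev_all fun k => ev_mem _
  filter_upwards [h1, h2, ev_mem (⊥ : O), ev_mem (F.o ⊥)] with M h1 h2 h3 h4 a ha x hx
  have hr : ∀ z, z ∈ Set.range x.N ↔ z ∈ M ∧ z < F.h a := fun z => by
    rw [hx.N]
    exact Iff.rfl
  have hbd := F.bd a ha
  refine ⟨fun n => ((hr _).1 ⟨n, rfl⟩).2, fun ξ => ?_, (hx.om ⊥).1 h4, ?_, fun k => ?_, ?_, hx.Y⟩
  · rw [hr, hx.om]
    exact ⟨fun h => h.1, fun h => ⟨h, hbd.o ξ⟩⟩
  · exact (hr _).2 ⟨h3, bot_le.trans_lt hbd.lt⟩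
  · exact (hr _).2 ⟨h2 k, hbd.n k _ fun ξ s => F.top_mem a⟩
  · intro k W ξ s hW hM hξ
    have hM' := (hr _).1 hM
    exact (hr _).2 ⟨h1 k W hM'.1 ξ ((hx.om ξ).2 hξ) s,
      hbd.n k _ (cone_InS T F.toDat (F.bot_mem a) hW ξ s)⟩

end Flt

end Pool.Agent.BPF
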