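import Pool.Agent.Lib.MP_11349d_lc.T.Lrg

/-!
# Pers: persistence of large trees

PROOFS. `Cap_bot`: `C = ⊤` (constant), `ct ⊤ ∈ M`; `Perp T F.toDat ⊥ ⊤ = ⊤` (no `c < ⊥`). `Gen_bot`: `F.bot`; if `E ⊆ S ⊥` is not
contained in `{⊥}`, then `⊤ ∈ E`, `cb ⊤ ∈ M` (`ev_mem`). `Dg_of`: for `a = ⊥`: `p = ⊤` and `r = ⊤` (`Gen_bot`). For `⊥ < a`:
`IHM ⊥ a M` with `y = ∅`, `q = ⊤` (`pr ⊥ p = ⊤` because `pr ⊥ p ∈ S ⊥` is not `⊥`), the `d` from `ev_exd`.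
`NS_of`: the same with the second clause of `IHM`.
-/

set_option autoImplicit false

namespace Pool.Agent.BPF

open Cardinal Pool.Agent.CSI

section
variable {Ω B : Type} [LinearOrder Ω] [CompleteBooleanAlgebra B] (T : LTree Ω)

private theorem pers_self {k : ℕ} (ξ : Ω) (s : Fin k → ℕ) : T.res ξ ξ s = s :=
  funext fun i => T.r_self ξ (s i)

private theorem pers_comp {k : ℕ} {ζ ξ η : Ω} (h : ζ ≤ ξ) (h' : ξ ≤ η) (s : Fin k → ℕ) :
    T.res ζ ξ (T.res ξ η s) = T.res ζ η s :=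
  funext fun i => T.r_comp ζ ξ η (s i) h h'

theorem tcl_le {k : ℕ} (W : Nm Ω B k) (ξ : Ω) (s : Fin k → ℕ) : tcl T W ξ s ≤ W ξ s := by
  have h1 : tcl T W ξ s ≤ W ξ (T.res ξ ξ s) :=
    (iInf_le (fun ζ : Ω => ⨅ (_ : ζ ≤ ξ), W ζ (T.res ζ ξ s)) ξ).trans (iInf_le _ le_rfl)
  rwa [pers_self] at h1

theorem tcl_Tr {k : ℕ} (W : Nm Ω B k) : Tr T (tcl T W) := by
  intro ξ η s h
  refine le_iInf₂ fun ζ hζ => ?_
  rw [pers_comp T hζ h]
  exact (iInf_le (fun ζ : Ω => ⨅ (_ : ζ ≤ η), W ζ (T.res ζ η s)) ζ).trans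
    (iInf_le _ (hζ.trans h))

theorem le_tcl {k : ℕ} (W : Nm Ω B k) {ξ η : Ω} (h : ξ ≤ η) (s : Fin k → ℕ) :
    Prn T W ⊓ W η s ≤ tcl T W ξ (T.res ξ η s) := by
  refine le_iInf₂ fun ζ hζ => ?_
  rw [pers_comp T hζ h]
  have h1 : Prn T W ≤ W η s ⇨ W ζ (T.res ζ η s) :=
    (inf_le_left.trans inf_le_right).trans
      (((iInf_le _ ζ).trans (iInf_le _ η)).trans ((iInf_le _ (hζ.trans h)).trans (iInf_le _ s)))
  exact le_himp_iff.1 h1

end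

namespace Flt

variable {O Ω B : Type} [LinearOrder O] [WellFoundedLT O] [LinearOrder Ω] [WellFoundedLT Ω]
    [OrderBot O] [OrderBot Ω] [CompleteBooleanAlgebra B] {T : LTree Ω}
    (F : Flt (O := O) (B := B) T)

theorem tcl_InS {k : ℕ} {a : O} {W : Nm Ω B k} (h : InS F.toDat a W) :
    InS F.toDat a (tcl T W) := by
  intro ξ s
  exact F.iInf_mem fun η => F.iInf_mem fun _ => h _ _

theorem Prn_mem {k : ℕ} {a : O} {W : Nm Ω B k} (h : InS F.toDat a W) : Prn T W ∈ F.S a := by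
  refine F.inf_mem (F.inf_mem ?_ ?_) ?_
  · exact F.iInf_mem fun ξ => F.iSup_mem fun s => h _ _
  · exact F.iInf_mem fun ξ => F.iInf_mem fun η => F.iInf_mem fun _ => F.iInf_mem fun s =>
      F.himp_mem (h _ _) (h _ _)
  · exact F.iInf_mem fun ξ => F.iInf_mem fun η => F.iInf_mem fun _ => F.iInf_mem fun s =>
      F.himp_mem (h _ _) (F.iSup_mem fun s' => F.iSup_mem fun _ => h _ _)

theorem Sb_mem {k : ℕ} {a : O} {V W : Nm Ω B k} (h : InS F.toDat a V) (h' : InS F.toDat a W) :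
    Sb V W ∈ F.S a := by
  exact F.iInf_mem fun ξ => F.iInf_mem fun s => F.himp_mem (h _ _) (h' _ _)

/-- successors exist -/
theorem exists_Sc (hO : IsKap O) (a : O) : ∃ a', Sc a a' := by
  obtain ⟨b, hb⟩ := hO.bdd {a} (by
    rw [mk_singleton]
    exact (one_lt_aleph0.trans aleph0_lt_aleph_one).trans hO.om1)
  have hne : {x : O | a < x}.Nonempty := ⟨b, hb a rfl⟩
  exact ⟨wellFounded_lt.min _ hne, WellFounded.min_mem _ _ hne,
    fun c hc => WellFounded.min_le (wellFounded_lt (α := O)) hc⟩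

/-- `U c ξ n ∈ S a` for limits `c < a` (take the successor of `c`: the least element above `c`) -/
theorem U_mem {a c : O} (hc : Lm c) (h : c < a) (ξ : Ω) (n : ℕ) : F.U c ξ n ∈ F.S a := by
  have hne : {x : O | c < x}.Nonempty := ⟨a, h⟩
  have hS : Sc c (wellFounded_lt.min _ hne) := ⟨WellFounded.min_mem _ _ hne,
    fun e he => WellFounded.min_le (wellFounded_lt (α := O)) he⟩
  rw [F.U_def c ξ n hc]
  refine F.iSup_mem fun p => F.iSup_mem fun hp => ?_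
  exact F.mono _ _ (hS.2 a h) (F.j_mem c _ p hc hS hp.1)

theorem Perp_mem {a : O} {C : Ω → ℕ → B} (hC : ∀ ξ n, C ξ n ∈ F.S a) :
    Perp T F.toDat a C ∈ F.S a := by
  refine F.inf_mem (F.inf_mem ?_ ?_) ?_
  · exact F.iInf_mem fun ξ => F.iSup_mem fun n => hC _ _
  · exact F.iInf_mem fun ξ => F.iInf_mem fun η => F.iInf_mem fun _ => F.iInf_mem fun n =>
      F.himp_mem (hC _ _) (hC _ _)
  · exact F.iInf_mem fun c => F.iInf_mem fun hc => F.iSup_mem fun ξ => F.iInf_mem fun n =>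
      F.compl_mem _ _ (F.inf_mem (hC _ _) (F.U_mem hc.1 hc.2 _ _))

theorem SbP_mem {k : ℕ} {a : O} {W : Nm Ω B k} {C : Ω → ℕ → B} (h : InS F.toDat a W)
    (hC : ∀ ξ n, C ξ n ∈ F.S a) : SbP W C ∈ F.S a := by
  exact F.iInf_mem fun ξ => F.iInf_mem fun s => F.himp_mem (h _ _) (F.iInf_mem fun i => hC _ _)

theorem Lg_mem {k : ℕ} {a : O} {W : Nm Ω B k} (h : InS F.toDat a W) :
    Lg T F.toDat a W ∈ F.S a := by
  refine F.inf_mem (F.Prn_mem h) (F.iSup_mem fun C => F.iSup_mem fun hC => ?_)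
  exact F.inf_mem (F.Perp_mem hC) (F.SbP_mem h hC)

theorem Cap_bot : ∀ᶠ M in clubF O, ∀ d, F.Cap ⊥ M d ∅ = ⊤ := by
  filter_upwards [ev_mem (F.ct fun _ _ => ⊤)] with M hM d
  rw [eq_top_iff]
  refine le_trans ?_ (le_iSup₂ (fun _ _ => (⊤ : B)) ⟨hM, fun _ _ => F.top_mem _⟩)
  simp [Perp]

theorem Gen_bot : ∀ᶠ M in clubF O, ∀ q, F.Gen ⊥ M q := by
  filter_upwards [ev_mem (F.cb ⊤)] with M hM q E hE _
  by_cases h : (⊤ : B) ∈ E
  · exact le_top.trans (le_sSup ⟨h, hM⟩)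
  · have h1 : sSup E = ⊥ := by
      rw [sSup_eq_bot]
      intro e he
      rcases F.bot e (hE he) with h2 | h2
      · exact h2
      · exact absurd (h2 ▸ he) h
    rw [h1, inf_bot_eq]
    exact bot_le

private theorem pers_pr {p : B} (hp : p ≠ ⊥) : F.pr ⊥ p = ⊤ :=
  (F.bot _ (F.pr_mem _ _)).resolve_left fun h => hp (F.pr_eq_bot.1 h)

theorem Dg_of (hΩ : IsOm1 Ω) {a : O} (ha : ¬ Lm a) (h0 : ⊥ < a → F.IH ⊥ a) : F.Dg a := by
  rcases eq_or_ne a ⊥ with rfl | hne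
  · filter_upwards [F.Gen_bot] with M hM p hp _ hp0
    have hp1 : p = ⊤ := (F.bot p hp).resolve_left hp0
    exact ⟨⊤, F.top_mem _, F.ntriv.symm, hp1.ge, hM ⊤⟩
  · have h1 := h0 (bot_lt_iff_ne_bot.2 hne)
    filter_upwards [F.Gen_bot, F.Cap_bot, h1, ev_delta hΩ.cnt (fun h => hΩ.unc
      (Set.countable_univ_iff.1 h)) F.o_inj] with M hG hC hI hd p hp hpM hp0
    obtain ⟨d, hd, -⟩ := hd
    obtain ⟨r, hr, hr0, hrp, -, hrG, -⟩ := (hI d hd p hp hpM ∅ ⊤ (F.top_mem _) F.ntriv.symm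
      (F.pers_pr hp0).ge (hG ⊤) (hC d).ge).1 ha
    exact ⟨r, hr, hr0, hrp, hrG⟩

theorem NS_of (hΩ : IsOm1 Ω) {a : O} (ha : Lm a) (h0 : F.IH ⊥ a) : F.NS a := by
  filter_upwards [F.Gen_bot, F.Cap_bot, h0, ev_delta hΩ.cnt (fun h => hΩ.unc
    (Set.countable_univ_iff.1 h)) F.o_inj] with M hG hC hI hd p hp hpM hp0
  obtain ⟨d, hd, -⟩ := hd
  obtain ⟨r, hr, hr0, hrp, -, hrG, x, hx1, hx2, -⟩ := (hI d hd p hp hpM ∅ ⊤ (F.top_mem _)
    F.ntriv.symm (F.pers_pr hp0).ge (hG ⊤) (hC d).ge).2 ha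
  exact ⟨r, hr, hr0, hrp, x, hx1, hx2⟩

end Flt

end Pool.Agent.BPF
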