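import Pool.Agent.Lib.MP_11349d_lc.T.Cone

/-!
# Prnd: the pruned part of a tree

PROOFS. `iInf_le_prn`: for `ξ ≤ η ≤ ζ`, `⨆ s' (T.res ξ ζ s' = s), W ζ s' ≤ ⨆ s' (T.res ξ η s' = s), W η s'` by `Tr`
(take `T.res η ζ s'`). `prn_Tr`: `ξ ≤ η`, `ξ ≤ ζ`; an extension `s'` of `s` (level `η`) to level `max η ζ`; if `η ≤ ζ` it is
an extension of `T.res ξ η s` to level `ζ`; if `ζ ≤ η` take `T.res ζ η s'`.
`ev_prn`: for fixed `W`, `ξ`, `s` use `ev_unb'` for `A ζ = ⨆ s', ⨆ _ : T.res ξ ζ s' = s, W ζ s'` and `iInf_le_prn`; then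
`eventually_countable_forall` for `k`, `s`, and `ev_normalOn` for `W` and for `ξ`. `ev_prn2`: the same with `ev_unb`: for
`ξ' < d` put `ζ = max ξ ξ' < d`; then `W ζ (T.res ζ d t) ≤ A ζ` for `s = T.res ξ d t`.
`ev_prn_ex`: for `ξ ≤ η < d` and `s`, `q ⊓ prn T W ξ s ≤ ⨆ s' (T.res ξ d s' = s), W d s'`, and by `ev_prn`
`q ⊓ W d s' ≤ prn T W η (T.res η d s')`, with `T.res ξ η (T.res η d s') = s`; so `q` is below the inner term. For all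
`η` use `ev_iInf` with `X = Ω`, `c = F.o`, `f η = ⨅ _ : ξ ≤ η, ⨅ s, ...` (for fixed `W`, `ξ`; normality `ev_nrm` in both), then
`ev_iInf` again with `f ξ = ⨅ η, ...`. `ev_Prn_prn`: the second part of `Prn T (prn T W)` is `⊤` by `prn_Tr`, the third one is
above `q` by `ev_prn_ex`; for the first part use `ev_prn2` and `ev_iInf` (`X = Ω`, `f ξ = ⨆ s, prn T W ξ s`, generic
condition `q ⊓ ⨅ ζ < d, ...`) and normality in `W`.
-/

set_option autoImplicit false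

namespace Pool.Agent.BPF

open Cardinal Pool.Agent.CSI

section
variable {Ω B : Type} [LinearOrder Ω] [CompleteBooleanAlgebra B] (T : LTree Ω)

theorem prn_le {k : ℕ} (W : Nm Ω B k) (ξ : Ω) (s : Fin k → ℕ) : prn T W ξ s ≤ W ξ s := by
  refine (iInf₂_le ξ le_rfl).trans (iSup₂_le fun s' hs' => ?_)
  rw [T.res_self] at hs'
  rw [hs']

theorem iInf_le_prn {k : ℕ} {W : Nm Ω B k} (hW : Tr T W) (ξ : Ω) (s : Fin k → ℕ) :
    (⨅ η, ⨆ ζ, ⨆ _ : η ≤ ζ, ⨆ s', ⨆ _ : T.res ξ ζ s' = s, W ζ s') ≤ prn T W ξ s := by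
  refine le_iInf₂ fun η hη => (iInf_le _ η).trans (iSup₂_le fun ζ hζ => iSup₂_le fun s' hs' => ?_)
  refine (hW η ζ s' hζ).trans (le_iSup₂_of_le (T.res η ζ s') ?_ le_rfl)
  rw [T.res_res hη hζ, hs']

theorem prn_Tr {k : ℕ} {W : Nm Ω B k} (hW : Tr T W) : Tr T (prn T W) := by
  intro ξ η s hξη
  refine le_iInf₂ fun ζ hζ => (iInf₂_le (max η ζ) (le_max_left η ζ)).trans
    (iSup₂_le fun s' hs' => ?_)
  refine (hW ζ (max η ζ) s' (le_max_right η ζ)).trans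
    (le_iSup₂_of_le (T.res ζ (max η ζ) s') ?_ le_rfl)
  rw [T.res_res hζ (le_max_right η ζ), ← hs', T.res_res hξη (le_max_left η ζ)]

end

namespace Flt

variable {O Ω B : Type} [LinearOrder O] [WellFoundedLT O] [LinearOrder Ω] [WellFoundedLT Ω]
    [OrderBot O] [OrderBot Ω] [CompleteBooleanAlgebra B] {T : LTree Ω}
    (F : Flt (O := O) (B := B) T)

theorem prn_InS {k : ℕ} {a : O} {W : Nm Ω B k} (h : InS F.toDat a W) :
    InS F.toDat a (prn T W) := fun _ _ =>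
  F.iInf_mem fun _ => F.iInf_mem fun _ => F.iSup_mem fun _ => F.iSup_mem fun _ => h _ _

theorem ev_prn : ∀ᶠ M in clubF O, ∀ d, F.Dl M d → ∀ (k : ℕ) (W : Nm Ω B k), F.n k W ∈ M → Tr T W →
    ∀ a, InS F.toDat a W → ∀ q, F.Gen a M q → ∀ ξ < d, ∀ η, d ≤ η → ∀ s',
      q ⊓ W η s' ≤ prn T W ξ (T.res ξ η s') := by
  filter_upwards [ev_all fun k => ev_nrm (F.n_inj k) fun W : Nm Ω B k => ev_nrm F.o_inj fun ξ : Ω =>
    ev_all fun s : Fin k → ℕ => F.ev_unb' fun ζ => ⨆ s', ⨆ _ : T.res ξ ζ s' = s, W ζ s'] with M h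
  intro d hd k W hWM hW a hWa q hq ξ hξ η hη s'
  refine (inf_le_inf_left q ?_).trans ((h k W hWM ξ ((hd ξ).2 hξ) (T.res ξ η s') d hd a
    (fun ζ => F.iSup_mem fun _ => F.iSup_mem fun _ => hWa _ _) q hq η hη).trans
      (iInf_le_prn T hW ξ _))
  exact le_iSup₂_of_le s' rfl le_rfl

theorem ev_prn2 : ∀ᶠ M in clubF O, ∀ d, F.Dl M d → ∀ (k : ℕ) (W : Nm Ω B k), F.n k W ∈ M → Tr T W →
    ∀ a, InS F.toDat a W → ∀ q, F.Gen a M q → ∀ t, ∀ ξ < d,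
      q ⊓ (⨅ ζ, ⨅ _ : ζ < d, W ζ (T.res ζ d t)) ≤ prn T W ξ (T.res ξ d t) := by
  filter_upwards [ev_all fun k => ev_nrm (F.n_inj k) fun W : Nm Ω B k => ev_nrm F.o_inj fun ξ : Ω =>
    ev_all fun s : Fin k → ℕ => F.ev_unb fun ζ => ⨆ s', ⨆ _ : T.res ξ ζ s' = s, W ζ s'] with M h
  intro d hd k W hWM hW a hWa q hq t ξ hξ
  refine (inf_le_inf_left q ?_).trans ((h k W hWM ξ ((hd ξ).2 hξ) (T.res ξ d t) d hd a
    (fun ζ => F.iSup_mem fun _ => F.iSup_mem fun _ => hWa _ _) q hq).trans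
      (iInf_le_prn T hW ξ _))
  refine le_iInf₂ fun ξ' hξ' => ?_
  have hm : max ξ ξ' < d := max_lt hξ hξ'
  refine (iInf₂_le (max ξ ξ') hm).trans (le_iSup₂_of_le (max ξ ξ') (le_max_right _ _)
    (le_iSup₂_of_le (T.res (max ξ ξ') d t) ?_ le_rfl))
  exact T.res_res (le_max_left _ _) hm.le t

private theorem prn_fam_mem {k : ℕ} {a : O} {W : Nm Ω B k} (hWa : InS F.toDat a W) (ξ η : Ω) :
    (⨅ _ : ξ ≤ η, ⨅ s, (prn T W ξ s ⇨ ⨆ s', ⨆ _ : T.res ξ η s' = s, prn T W η s')) ∈ F.S a :=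
  F.iInf_mem fun _ => F.iInf_mem fun _ => F.himp_mem (F.prn_InS hWa _ _)
    (F.iSup_mem fun _ => F.iSup_mem fun _ => F.prn_InS hWa _ _)

theorem ev_prn_ex : ∀ᶠ M in clubF O, ∀ d, F.Dl M d → ∀ (k : ℕ) (W : Nm Ω B k), F.n k W ∈ M →
    Tr T W → ∀ a, InS F.toDat a W → ∀ q, F.Gen a M q →
      q ≤ ⨅ ξ, ⨅ η, ⨅ _ : ξ ≤ η, ⨅ s, (prn T W ξ s ⇨ ⨆ s', ⨆ _ : T.res ξ η s' = s, prn T W η s') := by
  filter_upwards [F.ev_prn,
    ev_all fun k => ev_nrm (F.n_inj k) fun W : Nm Ω B k => ev_nrm F.o_inj fun ξ : Ω =>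
      F.ev_iInf F.o fun η : Ω => ⨅ _ : ξ ≤ η, ⨅ s,
        (prn T W ξ s ⇨ ⨆ s', ⨆ _ : T.res ξ η s' = s, prn T W η s'),
    ev_all fun k => ev_nrm (F.n_inj k) fun W : Nm Ω B k =>
      F.ev_iInf F.o fun ξ : Ω => ⨅ η, ⨅ _ : ξ ≤ η, ⨅ s,
        (prn T W ξ s ⇨ ⨆ s', ⨆ _ : T.res ξ η s' = s, prn T W η s')] with M h1 h2 h3
  intro d hd k W hWM hW a hWa q hq
  refine h3 k W hWM a (fun ξ => F.iInf_mem fun η => F.prn_fam_mem hWa ξ η) q hq fun ξ hξ => ?_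
  refine h2 k W hWM ξ hξ a (fun η => F.prn_fam_mem hWa ξ η) q hq fun η hη => ?_
  have hξd : ξ < d := (hd ξ).1 hξ
  have hηd : η < d := (hd η).1 hη
  refine le_iInf₂ fun hξη s => ?_
  rw [le_himp_iff]
  refine (inf_le_inf_left q (iInf₂_le d hξd.le)).trans ?_
  rw [inf_iSup_eq]
  refine iSup_le fun s' => ?_
  rw [inf_iSup_eq]
  refine iSup_le fun hs' => ?_
  refine (h1 d hd k W hWM hW a hWa q hq η hηd d le_rfl s').trans
    (le_iSup₂_of_le (T.res η d s') ?_ le_rfl)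
  rw [T.res_res hξη hηd.le, hs']

theorem ev_Prn_prn : ∀ᶠ M in clubF O, ∀ d, F.Dl M d → ∀ (k : ℕ) (W : Nm Ω B k),
    F.n k W ∈ M → Tr T W → ∀ a, InS F.toDat a W → ∀ q, F.Gen a M q → ∀ t,
      q ⊓ (⨅ ζ, ⨅ _ : ζ < d, W ζ (T.res ζ d t)) ≤ Prn T (prn T W) := by
  filter_upwards [F.ev_prn2, F.ev_prn_ex,
    ev_all fun k => ev_nrm (F.n_inj k) fun W : Nm Ω B k =>
      F.ev_iInf F.o fun ξ : Ω => ⨆ s, prn T W ξ s] with M h1 h2 h3
  intro d hd k W hWM hW a hWa q hq t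
  refine le_inf (le_inf ?_ ?_) (inf_le_left.trans (h2 d hd k W hWM hW a hWa q hq))
  · refine h3 k W hWM a (fun ξ => F.iSup_mem fun s => F.prn_InS hWa ξ s) _
      (F.gen_mono inf_le_left hq) fun ξ hξ => ?_
    exact (h1 d hd k W hWM hW a hWa q hq t ξ ((hd ξ).1 hξ)).trans
      (le_iSup (fun s => prn T W ξ s) (T.res ξ d t))
  · refine le_iInf₂ fun ξ η => le_iInf₂ fun hξη s => ?_
    rw [le_himp_iff]
    exact inf_le_right.trans (prn_Tr T hW ξ η s hξη)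

end Flt

end Pool.Agent.BPF
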