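import Pool.Agent.Lib.MP_11349d_lc.T.Pers

/-!
# Tsk2: large trees have captured elements of level `M ∩ ω₁` which avoid a finite set

PROOFS. `Perp_sup`: the three parts of `Perp` separately; for the third one use that
`(⨅ n, (C ξ n ⊓ U)ᶜ) ⊓ (⨅ n, (C' η n ⊓ U)ᶜ) ≤ ⨅ n, ((C ζ n ⊔ C' ζ n) ⊓ U c ζ n)ᶜ` for `ζ = max ξ η`, because of the tree parts of
`Perp` and of `U_tr` (a common element at level `ζ` restricts to common elements at levels `ξ` and `η`).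
`Cap_union`: distribute both suprema; for codes of `C`, `C'` in `M` the code of `fun ξ n => C ξ n ⊔ C' ξ n` is in `M`
(`ev_normalOn` twice).
-/

set_option autoImplicit false

namespace Pool.Agent.BPF

open Cardinal Pool.Agent.CSI

namespace Flt

variable {O Ω B : Type} [LinearOrder O] [WellFoundedLT O] [LinearOrder Ω] [WellFoundedLT Ω]
    [OrderBot O] [OrderBot Ω] [CompleteBooleanAlgebra B] {T : LTree Ω}
    (F : Flt (O := O) (B := B) T)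

/-- `U a` is an outright tree -/
theorem U_tr {a : O} (ha : Lm a) {ξ η : Ω} (h : ξ ≤ η) (n : ℕ) : F.U a η n ≤ F.U a ξ (T.r ξ η n) := by
  rw [F.U_def a η n ha, F.U_def a ξ _ ha]
  refine iSup₂_le fun p hp => ?_
  obtain ⟨hp1, v, hv, hv0, hv1, hv2⟩ := hp
  refine le_iSup₂_of_le p ⟨hp1, v, hv, hv0, h.trans hv1, ?_⟩ le_rfl
  rw [← hv2, T.r_comp _ _ _ _ h hv1]

private theorem perp_cov {a : O} (C : Ω → ℕ → B) : Perp T F.toDat a C ≤ ⨅ ξ, ⨆ n, C ξ n :=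
  inf_le_left.trans inf_le_left

private theorem perp_tr {a : O} (C : Ω → ℕ → B) {ξ η : Ω} (h : ξ ≤ η) (n : ℕ) :
    Perp T F.toDat a C ⊓ C η n ≤ C ξ (T.r ξ η n) := by
  rw [← le_himp_iff]
  refine (inf_le_left.trans inf_le_right).trans ?_
  exact iInf_le_of_le ξ (iInf_le_of_le η (iInf_le_of_le h (iInf_le _ n)))

private theorem perp_ad {a : O} (C : Ω → ℕ → B) {c : O} (hc : Lm c) (hca : c < a) :
    Perp T F.toDat a C ≤ ⨆ ξ, ⨅ n, (C ξ n ⊓ F.U c ξ n)ᶜ :=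
  inf_le_right.trans (iInf₂_le_of_le c ⟨hc, hca⟩ le_rfl)

private theorem perp_up {a : O} (C : Ω → ℕ → B) {c : O} (hc : Lm c) {ξ ζ : Ω} (h : ξ ≤ ζ) (n : ℕ) :
    Perp T F.toDat a C ⊓ (⨅ n, (C ξ n ⊓ F.U c ξ n)ᶜ) ⊓ (C ζ n ⊓ F.U c ζ n) ≤ ⊥ := by
  have h1 : Perp T F.toDat a C ⊓ (⨅ n, (C ξ n ⊓ F.U c ξ n)ᶜ) ⊓ (C ζ n ⊓ F.U c ζ n) ≤
      (C ξ (T.r ξ ζ n) ⊓ F.U c ξ (T.r ξ ζ n)) ⊓ (C ξ (T.r ξ ζ n) ⊓ F.U c ξ (T.r ξ ζ n))ᶜ := by
    refine le_inf (le_inf ?_ ?_) ?_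
    · exact (inf_le_inf inf_le_left inf_le_left).trans (F.perp_tr C h n)
    · exact (inf_le_right.trans inf_le_right).trans (F.U_tr hc h n)
    · exact (inf_le_left.trans inf_le_right).trans (iInf_le _ _)
  rwa [inf_compl_eq_bot] at h1

theorem Perp_sup (a : O) (C C' : Ω → ℕ → B) :
    Perp T F.toDat a C ⊓ Perp T F.toDat a C' ≤ Perp T F.toDat a (fun ξ n => C ξ n ⊔ C' ξ n) := by
  have hR : Perp T F.toDat a (fun ξ n => C ξ n ⊔ C' ξ n) =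
      (⨅ ξ, ⨆ n, (C ξ n ⊔ C' ξ n)) ⊓ (⨅ ξ, ⨅ η, ⨅ _ : ξ ≤ η, ⨅ n, ((C η n ⊔ C' η n) ⇨
        (C ξ (T.r ξ η n) ⊔ C' ξ (T.r ξ η n)))) ⊓
      ⨅ c, ⨅ _ : Lm c ∧ c < a, ⨆ ξ, ⨅ n, ((C ξ n ⊔ C' ξ n) ⊓ F.U c ξ n)ᶜ := rfl
  rw [hR]
  refine le_inf (le_inf ?_ ?_) ?_
  · refine (inf_le_left.trans (F.perp_cov C)).trans ?_
    exact iInf_mono fun ξ => iSup_mono fun n => le_sup_left
  · refine le_iInf fun ξ => le_iInf fun η => le_iInf fun h => le_iInf fun n => ?_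
    rw [le_himp_iff, inf_sup_left]
    refine sup_le_sup ?_ ?_
    · exact (inf_le_inf_right _ inf_le_left).trans (F.perp_tr C h n)
    · exact (inf_le_inf_right _ inf_le_right).trans (F.perp_tr C' h n)
  · refine le_iInf₂ fun c hc => ?_
    have h1 : Perp T F.toDat a C ⊓ Perp T F.toDat a C' ≤
        (Perp T F.toDat a C ⊓ Perp T F.toDat a C') ⊓
          ((⨆ ξ, ⨅ n, (C ξ n ⊓ F.U c ξ n)ᶜ) ⊓ ⨆ ξ, ⨅ n, (C' ξ n ⊓ F.U c ξ n)ᶜ) :=
      le_inf le_rfl (inf_le_inf (F.perp_ad C hc.1 hc.2) (F.perp_ad C' hc.1 hc.2))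
    refine h1.trans ?_
    rw [iSup_inf_eq, inf_iSup_eq]
    refine iSup_le fun ξ => ?_
    rw [inf_iSup_eq, inf_iSup_eq]
    refine iSup_le fun η => ?_
    refine le_iSup_of_le (max ξ η) (le_iInf fun n => ?_)
    rw [le_compl_iff_disjoint_right, disjoint_iff_inf_le, inf_sup_right, inf_sup_left]
    refine sup_le ?_ ?_
    · refine le_trans ?_ (F.perp_up (a := a) C hc.1 (le_max_left ξ η) n)
      exact inf_le_inf_right _ (inf_le_inf inf_le_left inf_le_left)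
    · refine le_trans ?_ (F.perp_up (a := a) C' hc.1 (le_max_right ξ η) n)
      exact inf_le_inf_right _ (inf_le_inf inf_le_right inf_le_right)

theorem Cap_mono (a : O) (M : Set O) (d : Ω) {y y' : Finset ℕ} (h : y ⊆ y') :
    F.Cap a M d y' ≤ F.Cap a M d y :=
  iSup₂_mono fun _ _ => inf_le_inf_left _ (biInf_mono fun _ hn => h hn)

theorem Cap_mem (a : O) (M : Set O) (d : Ω) (y : Finset ℕ) : F.Cap a M d y ∈ F.S a := by
  refine F.iSup_mem fun C => F.iSup_mem fun hC => ?_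
  exact F.inf_mem (F.Perp_mem hC.2) (F.iInf_mem fun n => F.iInf_mem fun _ => hC.2 d n)

theorem ev_Cap_union : ∀ᶠ M in clubF O, ∀ a d y y',
    F.Cap a M d y ⊓ F.Cap a M d y' ≤ F.Cap a M d (y ∪ y') := by
  filter_upwards [ev_f2 F.ct_inj F.ct_inj F.ct
    (fun C C' : Ω → ℕ → B => fun ξ n => C ξ n ⊔ C' ξ n)] with M hM a d y y'
  unfold Cap
  simp only [iSup_inf_eq]
  refine iSup₂_le fun C hC => ?_
  simp only [inf_iSup_eq]
  refine iSup₂_le fun C' hC' => ?_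
  refine le_iSup₂_of_le (fun ξ n => C ξ n ⊔ C' ξ n)
    ⟨hM C hC.1 C' hC'.1, fun ξ n => F.sup_mem' (hC.2 ξ n) (hC'.2 ξ n)⟩ ?_
  refine le_inf ?_ (le_iInf₂ fun n hn => ?_)
  · exact (inf_le_inf inf_le_left inf_le_left).trans (F.Perp_sup a C C')
  · rcases Finset.mem_union.1 hn with h | h
    · exact (inf_le_left.trans (inf_le_right.trans (iInf₂_le n h))).trans le_sup_left
    · exact (inf_le_right.trans (inf_le_right.trans (iInf₂_le n h))).trans le_sup_right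

end Flt

end Pool.Agent.BPF
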