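import Pool.Agent.Lib.MP_11349d_lc.T.Df

/-!
# Unb: boundedness and genericity

PROOFS. `ev_dl`: from `ev_delta` (with `hΩ.cnt`, `hΩ.unc`) and `ev_mem (F.o ⊥)`; the `δ` of `ev_delta` is `d`.
`ev_unb`: `ev_iInf` with `X = Ω`, `c = F.o`, `f ξ = ⨆ ζ ≥ ξ, A ζ`, applied to the generic condition
`q ⊓ ⨅ ξ < d, f ξ` (`gen_mono`). `ev_low`: for fixed `ξ` this is `ev_iSup` for the family
`f ζ = ⨆ _ : ξ ≤ ζ, A ζ`; then `ev_normalOn` (code `F.o`, `F.o_inj`) for all `ξ` with `F.o ξ ∈ M`.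
-/

set_option autoImplicit false

namespace Pool.Agent.BPF

open Cardinal Pool.Agent.CSI

namespace Flt

variable {O Ω B : Type} [LinearOrder O] [WellFoundedLT O] [LinearOrder Ω] [WellFoundedLT Ω]
    [OrderBot O] [OrderBot Ω] [CompleteBooleanAlgebra B] {T : LTree Ω}
    (F : Flt (O := O) (B := B) T)

theorem ev_dl (hΩ : IsOm1 Ω) : ∀ᶠ M in clubF O, ∀ d, F.Dl M d → (∀ ξ < d, ∃ η, ξ < η ∧ η < d) ∧
    ⊥ < d := by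
  have hU : ¬ (Set.univ : Set Ω).Countable := fun h => hΩ.unc (Set.countable_univ_iff.1 h)
  filter_upwards [ev_delta hΩ.cnt hU F.o_inj, ev_mem (F.o ⊥)] with M h1 h2 d hd
  obtain ⟨δ, h3, h4, -⟩ := h1
  have he : δ = d := eq_of_forall_lt_iff fun ξ => (h3 ξ).symm.trans (hd ξ)
  subst he
  exact ⟨h4, (hd ⊥).1 h2⟩

theorem ev_exd (hΩ : IsOm1 Ω) : ∀ᶠ M in clubF O, ∃ d, F.Dl M d := by
  have hU : ¬ (Set.univ : Set Ω).Countable := fun h => hΩ.unc (Set.countable_univ_iff.1 h)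
  filter_upwards [ev_delta hΩ.cnt hU F.o_inj] with M h1
  obtain ⟨δ, h3, -⟩ := h1
  exact ⟨δ, h3⟩

theorem ev_unb (A : Ω → B) : ∀ᶠ M in clubF O, ∀ d, F.Dl M d → ∀ a, (∀ ξ, A ξ ∈ F.S a) → ∀ q,
    F.Gen a M q → q ⊓ (⨅ ξ, ⨅ _ : ξ < d, ⨆ ζ, ⨆ _ : ξ ≤ ζ, A ζ) ≤ ⨅ ξ, ⨆ ζ, ⨆ _ : ξ ≤ ζ, A ζ := by
  filter_upwards [F.ev_iInf F.o (fun ξ => ⨆ ζ, ⨆ _ : ξ ≤ ζ, A ζ)] with M h d hd a ha q hq
  refine h a (fun ξ => F.iSup_mem fun ζ => F.iSup_mem fun _ => ha ζ) _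
    (F.gen_mono inf_le_left hq) fun ξ hξ => ?_
  exact inf_le_right.trans (iInf₂_le ξ ((hd ξ).1 hξ))

/-- a generic condition which is below some `A ζ`, `ζ ≥ d`, is below `A` unboundedly often -/
theorem ev_unb' (A : Ω → B) : ∀ᶠ M in clubF O, ∀ d, F.Dl M d → ∀ a, (∀ ξ, A ξ ∈ F.S a) → ∀ q,
    F.Gen a M q → ∀ ζ, d ≤ ζ → q ⊓ A ζ ≤ ⨅ ξ, ⨆ ζ, ⨆ _ : ξ ≤ ζ, A ζ := by
  filter_upwards [F.ev_unb A] with M h d hd a ha q hq ζ hζ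
  refine le_trans (le_inf inf_le_left ?_) (h d hd a ha q hq)
  refine le_iInf₂ fun ξ hξ => ?_
  exact inf_le_right.trans (le_iSup₂_of_le ζ (hξ.le.trans hζ) le_rfl)

theorem ev_low (A : Ω → B) : ∀ᶠ M in clubF O, ∀ d, F.Dl M d → ∀ a, (∀ ξ, A ξ ∈ F.S a) → ∀ q,
    F.Gen a M q → ∀ ξ < d, q ⊓ (⨆ ζ, ⨆ _ : ξ ≤ ζ, A ζ) ≤ ⨆ ζ, ⨆ _ : ξ ≤ ζ ∧ ζ < d, A ζ := by
  filter_upwards [ev_nrm F.o_inj fun ξ => F.ev_iSup F.o (fun ζ => ⨆ _ : ξ ≤ ζ, A ζ)] with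
    M h d hd a ha q hq ξ hξ
  refine (h ξ ((hd ξ).2 hξ) a (fun ζ => F.iSup_mem fun _ => ha ζ) q hq).trans ?_
  refine iSup_le fun ζ => iSup_le fun hM => iSup_le fun hle => ?_
  exact le_iSup₂_of_le ζ ⟨hle, (hd ζ).1 hM⟩ le_rfl

end Flt

end Pool.Agent.BPF
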